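import Mathlib
import Pool.Agent.Helper150.Cub.Defs
import Pool.Agent.Helper150.Cub.KerF

set_option autoImplicit false

namespace Pool.Agent.H729R2.CB

open MeasureTheory

noncomputable section

/-- the length of the circle is positive -/
instance factTwoPi : Fact (0 < 2 * Real.pi) := ⟨by positivity⟩

/-- the circle of length `2π` (with the quotient norm `‖x‖ ≤ π`) -/
abbrev G := AddCircle (2 * Real.pi)

/-- Haar probability measure on `G` -/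
abbrev hm : Measure G := AddCircle.haarAddCircle

/-- Haar probability measure on `G × G` -/
abbrev hm2 : Measure (G × G) := hm.prod hm

/-- the two coordinate directions -/
def i1 (t : G) : G × G := (t, 0)
def i2 (t : G) : G × G := (0, t)

/-- convolution with `M` in the direction `ι` -/
def Cv (ι : G → G × G) (M : G → ℝ) (g : G × G → ℝ) (x : G × G) : ℝ := ∫ t, M t * g (x - ι t) ∂hm

/-- the adjoint operator -/
def Dv (ι : G → G × G) (M : G → ℝ) (g : G × G → ℝ) (x : G × G) : ℝ := ∫ t, M t * g (x + ι t) ∂hm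

/-- the properties of the family of kernels `M_δ`, `0 < δ ≤ 1` -/
structure Ker (r C : ℝ) (M : ℝ → G → ℝ) : Prop where
  cont : ∀ δ, 0 < δ → δ ≤ 1 → Continuous (M δ)
  l1 : ∀ δ, 0 < δ → δ ≤ 1 → ∫ t, |M δ t| ∂hm ≤ C
  wt : ∀ δ, 0 < δ → δ ≤ 1 → ∀ ρ, 0 < ρ → ∫ t, min 1 (‖t‖ / ρ) * |M δ t| ∂hm ≤ C * (δ / ρ) ^ (1/4 : ℝ)
  mean : ∀ δ, 0 < δ → δ ≤ 1 → ∫ t, M δ t ∂hm = δ ^ r

/-- the univariate kernel `F_r(·,α)` as a function on the circle -/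
def FG (r α : ℝ) : G → ℝ :=
  Function.Periodic.lift (f := Pool.Agent.Helper150.Cub.F1 r α) (c := 2 * Real.pi)
    (fun x => Pool.Agent.Helper150.Cub.F1_periodic r α x)

/-- the function `∑ λ_μ F(ξ¹_μ - y₁) F(ξ²_μ - y₂) - 1` -/
def errF (r α : ℝ) {m : ℕ} (w : Fin m → ℝ) (ξ : Fin m → G × G) (y : G × G) : ℝ :=
  ∑ μ, w μ * (FG r α ((ξ μ).1 - y.1) * FG r α ((ξ μ).2 - y.2)) - 1

/-- no node within the box of half sides `a, b` around `y` (and the values of the two operators there) -/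
def Star (r : ℝ) (M : ℝ → G → ℝ) {m : ℕ} (ξ : Fin m → G × G) (f : G × G → ℝ) : Prop :=
  ∀ a b : ℝ, 0 < a → a ≤ 1 → 0 < b → b ≤ 1 → ∀ y : G × G,
    (∀ μ, a ≤ ‖(ξ μ).1 - y.1‖ ∨ b ≤ ‖(ξ μ).2 - y.2‖) →
      Dv i1 (M a) (Dv i2 (M b) f) y = - (a ^ r * b ^ r)

/-- the Riesz product over the set `S` -/
def RP (q : ℕ → G × G → ℝ) (S : Finset ℕ) (x : G × G) : ℝ := ∏ k ∈ S, (1 + q k x)

/-- the two sequences of scales -/
def sa (s : ℝ) (j : ℕ) : ℝ := s ^ (j + 1)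
def sb (s : ℝ) (J j : ℕ) : ℝ := s ^ (J - 1 - j)

/-- the factor `q_j = -γ M_{a_j} M_{b_j} χ_j` of the Riesz product, `γ = 1/(2C²)` -/
def qf (C : ℝ) (M : ℝ → G → ℝ) (s : ℝ) (J : ℕ) (χ : ℕ → G × G → ℝ) (j : ℕ) (x : G × G) : ℝ :=
  - (1 / (2 * C ^ 2)) * Cv i1 (M (sa s j)) (Cv i2 (M (sb s J j)) (χ j)) x

/-- the properties of the cut off functions -/
structure Cut {m : ℕ} (ξ : Fin m → G × G) (a b : ℝ) (χ : G × G → ℝ) : Prop where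
  cont : Continuous χ
  nonneg : ∀ x, 0 ≤ χ x
  le_one : ∀ x, χ x ≤ 1
  lip1 : ∀ x t, |χ (x + i1 t) - χ x| ≤ ‖t‖ / a
  lip2 : ∀ x t, |χ (x + i2 t) - χ x| ≤ ‖t‖ / b
  zero : ∀ x, (∃ μ, ‖(ξ μ).1 - x.1‖ < a ∧ ‖(ξ μ).2 - x.2‖ < b) → χ x = 0
  int : 1 - (m : ℝ) * a * b / 2 ≤ ∫ x, χ x ∂hm2

/-- the symbol `u^r sinc(κu)^q` -/
def mu (r κ : ℝ) (q : ℕ) (u : ℝ) : ℝ := u ^ r * (Real.sinc (κ * u)) ^ q

/-- the phase `exp(-i sgn(k) απ/2)` -/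
def ph (α : ℝ) (k : ℤ) : ℂ := Complex.exp (((-(Int.sign k : ℝ) * (α * Real.pi / 2) : ℝ) : ℂ) * Complex.I)

/-- the Fourier coefficients of `F_r(·,α)` -/
def fc (r α : ℝ) (k : ℤ) : ℂ := if k = 0 then 1 else (((|(k : ℝ)|) ^ (-r) : ℝ) : ℂ) * ph α k

/-- the Fourier coefficients of the kernel `M_δ` -/
def mc (r α κ : ℝ) (q : ℕ) (δ : ℝ) (k : ℤ) : ℂ :=
  if k = 0 then ((δ ^ r : ℝ) : ℂ) else ((mu r κ q (|(k : ℝ)| * δ) : ℝ) : ℂ) * ph (-α) k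

/-- all hypotheses of the two-dimensional part -/
structure Setup (r C E : ℝ) (M : ℝ → G → ℝ) (m : ℕ) (ξ : Fin m → G × G) (f : G × G → ℝ) (J : ℕ) (s : ℝ)
    (χ : ℕ → G × G → ℝ) : Prop where
  hr : 1 ≤ r
  hC : 1 ≤ C
  ker : Ker r C M
  fc : Continuous f
  fE : ∀ x, |f x| ≤ E
  star : Star r M ξ f
  J1 : 1 ≤ J
  s0 : 0 < s
  sJ : (10 ^ 4 + 8 * C ^ 2) * (J : ℝ) ^ 8 * s ≤ 1
  ms : (m : ℝ) * s ^ J ≤ 1
  cut : ∀ j, j < J → Cut ξ (sa s j) (sb s J j) (χ j)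

end

end Pool.Agent.H729R2.CB
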