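import Mathlib
import Pool.Agent.H729R2.CB.Defs

set_option autoImplicit false

namespace Pool.Agent.H729R2.CB

open MeasureTheory Pool.Agent.Helper150.Cub

noncomputable section

/-- continuity -/
def S_CV1 : Prop := ∀ (ι : G → G × G) (M : G → ℝ) (g : G × G → ℝ), Continuous ι → Continuous M → Continuous g →
  Continuous (Cv ι M g) ∧ Continuous (Dv ι M g)

/-- sup bounds -/
def S_CV2 : Prop := ∀ (ι : G → G × G) (M : G → ℝ) (g : G × G → ℝ) (B C : ℝ), Continuous ι → Continuous M →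
  Continuous g → (∀ x, |g x| ≤ B) → ∫ t, |M t| ∂hm ≤ C →
  (∀ x, |Cv ι M g x| ≤ C * B) ∧ (∀ x, |Dv ι M g x| ≤ C * B)

/-- moduli of continuity are transferred -/
def S_CV3 : Prop := ∀ (ι : G → G × G) (M : G → ℝ) (g : G × G → ℝ) (e : G × G) (w C : ℝ), Continuous ι → Continuous M →
  Continuous g → (∀ x, |g (x + e) - g x| ≤ w) → ∫ t, |M t| ∂hm ≤ C →
  ∀ x, |Cv ι M g (x + e) - Cv ι M g x| ≤ C * w

/-- adjoint -/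
def S_CV4 : Prop := ∀ (ι : G → G × G) (M : G → ℝ) (g k : G × G → ℝ), Continuous ι → Continuous M → Continuous g →
  Continuous k → ∫ x, g x * Cv ι M k x ∂hm2 = ∫ x, Dv ι M g x * k x ∂hm2

/-- the operators commute -/
def S_CV5 : Prop := ∀ (ι κ : G → G × G) (M M' : G → ℝ) (g : G × G → ℝ), Continuous ι → Continuous κ → Continuous M →
  Continuous M' → Continuous g → Cv ι M (Cv κ M' g) = Cv κ M' (Cv ι M g) ∧ Dv ι M (Dv κ M' g) = Dv κ M' (Dv ι M g)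

/-- the commutator estimate -/
def S_COM : Prop := ∀ (ι : G → G × G) (M : G → ℝ) (g h k : G × G → ℝ) (A B : ℝ), Continuous ι → Continuous M →
  Continuous g → Continuous h → Continuous k → (∀ x, |g x| ≤ A) → (∀ x, |k x| ≤ B) →
  |∫ x, g x * h x * Cv ι M k x ∂hm2 - ∫ x, Dv ι M g x * h x * k x ∂hm2|
    ≤ A * B * ∫ t, |M t| * (∫ x, |h (x + ι t) - h x| ∂hm2) ∂hm

/-- `L¹` modulus of continuity of a Riesz product times a Lipschitz function -/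
def S_HAR : Prop := ∀ (ι : G → G × G) (q : ℕ → G × G → ℝ) (τ : ℕ → ℝ) (S : Finset ℕ) (σ : ℝ), 0 < σ → Continuous ι →
  (∀ k ∈ S, 0 < τ k) → (∀ k ∈ S, Continuous (q k)) → (∀ k ∈ S, ∀ x, |q k x| ≤ 1/2) →
  (∀ k ∈ S, ∀ x t, |q k (x + ι t) - q k x| ≤ ‖t‖ / τ k / 2) → ∑ k ∈ S, 1 / τ k ≤ 1 / σ →
  ∀ (h : G × G → ℝ) (b τ' σ' : ℝ), Continuous h → (∀ x, |h x| ≤ b) → (∀ x t, |h (x + ι t) - h x| ≤ b * (‖t‖ / τ')) →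
  0 < σ' → σ' ≤ σ → σ' ≤ τ' →
  ∀ t, ∫ x, |h (x + ι t) * RP q S (x + ι t) - h x * RP q S x| ∂hm2
    ≤ 4 * b * min 1 (‖t‖ / σ') * ∫ x, RP q S x ∂hm2

/-- cut off functions -/
def S_CUT : Prop := ∀ (m : ℕ) (ξ : Fin m → G × G) (a b : ℝ), 0 < a → a ≤ 1 → 0 < b → b ≤ 1 →
  ∃ χ : G × G → ℝ, Cut ξ a b χ

/-- the measure of the set of points near a node -/
def S_NM : Prop := ∀ (m : ℕ) (ξ : Fin m → G × G) (a b : ℝ), 0 < a → 0 < b →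
  (hm2 {x : G × G | ∃ μ, ‖(ξ μ).1 - x.1‖ < a ∧ ‖(ξ μ).2 - x.2‖ < b}).toReal ≤ m * a * b

/-- expansion of the product -/
def S_EXP : Prop := ∀ (q : ℕ → ℝ) (J : ℕ), ∏ k ∈ Finset.range J, (1 + q k)
  = 1 + ∑ j ∈ Finset.range J, q j
    + ∑ j ∈ Finset.range J, ∑ i ∈ Finset.range j, q i * (∏ k ∈ Finset.Ioo i j, (1 + q k)) * q j

/-- the factors `q_j` -/
def S_QF : Prop := ∀ (r C E : ℝ) (M : ℝ → G → ℝ) (m : ℕ) (ξ : Fin m → G × G) (f : G × G → ℝ) (J : ℕ) (s : ℝ)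
  (χ : ℕ → G × G → ℝ), Setup r C E M m ξ f J s χ → ∀ j, j < J →
    Continuous (qf C M s J χ j) ∧ (∀ x, |qf C M s J χ j x| ≤ 1/2) ∧
    (∀ x t, |qf C M s J χ j (x + i1 t) - qf C M s J χ j x| ≤ ‖t‖ / sa s j / 2) ∧
    (∀ x t, |qf C M s J χ j (x + i2 t) - qf C M s J χ j x| ≤ ‖t‖ / sb s J j / 2)

/-- the integrals of the partial products -/
def S_INT : Prop := ∀ (r C E : ℝ) (M : ℝ → G → ℝ) (m : ℕ) (ξ : Fin m → G × G) (f : G × G → ℝ) (J : ℕ) (s : ℝ)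
  (χ : ℕ → G × G → ℝ), Setup r C E M m ξ f J s χ → ∀ i j, j ≤ J →
    ∫ x, RP (qf C M s J χ) (Finset.Ico i j) x ∂hm2 ≤ 2

/-- the cross terms -/
def S_CRO : Prop := ∀ (r C E : ℝ) (M : ℝ → G → ℝ) (m : ℕ) (ξ : Fin m → G × G) (f : G × G → ℝ) (J : ℕ) (s : ℝ)
  (χ : ℕ → G × G → ℝ), Setup r C E M m ξ f J s χ → ∀ i j, i < j → j < J →
    |∫ x, f x * (qf C M s J χ i x * RP (qf C M s J χ) (Finset.Ioo i j) x * qf C M s J χ j x) ∂hm2|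
      ≤ 5 * E * s ^ (1/4 : ℝ) + (s ^ (J + (j - i))) ^ r / 2 + E * (3 * s / 2) ^ (j - i) / 4

/-- the main terms -/
def S_MAI : Prop := ∀ (r C E : ℝ) (M : ℝ → G → ℝ) (m : ℕ) (ξ : Fin m → G × G) (f : G × G → ℝ) (J : ℕ) (s : ℝ)
  (χ : ℕ → G × G → ℝ), Setup r C E M m ξ f J s χ → ∀ j, j < J →
    (1 / (4 * C ^ 2)) * (s ^ J) ^ r ≤ ∫ x, f x * qf C M s J χ j x ∂hm2

/-- the two-dimensional theorem -/
def S_CORE : Prop := ∀ (r C E : ℝ) (M : ℝ → G → ℝ) (m : ℕ) (ξ : Fin m → G × G) (f : G × G → ℝ) (J : ℕ) (s : ℝ),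
  1 ≤ r → 1 ≤ C → Ker r C M → Continuous f → (∀ x, |f x| ≤ E) → Star r M ξ f → 1 ≤ J → 0 < s →
  (10 ^ 4 + 8 * C ^ 2) * (J : ℝ) ^ 8 * s ≤ 1 → (m : ℝ) * s ^ J ≤ 1 →
  (1 / (32 * C ^ 2)) * J * (s ^ J) ^ r ≤ E

/-- the symbol -/
def S_MU : Prop := ∀ (r κ : ℝ) (q : ℕ), 1 < r → 0 < κ → κ ≤ 1 → r + 2 ≤ q → ∃ B : ℝ, 1 ≤ B ∧
  (∀ u, 0 ≤ u → |mu r κ q u| ≤ B / (1 + u ^ 2)) ∧
  (∀ u h, 0 ≤ u → 0 ≤ h → h ≤ 1 → |mu r κ q (u + h) - mu r κ q u| ≤ B * h / (1 + u ^ 2)) ∧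
  (∀ u, 0 ≤ u → u ≤ 1 → |mu r κ q u| ≤ u)

/-- the spline -/
def S_SPL : Prop := ∀ (q : ℕ) (h : ℝ), 2 ≤ q → 0 < h → q * h ≤ 1 → ∃ N : G → ℝ, Continuous N ∧
  (∀ k : ℤ, fourierCoeff (fun x : G => (N x : ℂ)) k = ((Real.sinc (k * h) ^ q : ℝ) : ℂ)) ∧
  (∀ x : G, q * h < ‖x‖ → N x = 0)

/-- absolutely convergent Fourier series and Parseval -/
def S_PAR : Prop := ∀ c : ℤ → ℂ, Summable (fun k => ‖c k‖) →
  Continuous (fun x : G => ∑' k, c k * fourier k x) ∧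
  (∀ k, fourierCoeff (fun x : G => ∑' k, c k * fourier k x) k = c k) ∧
  ∫ x : G, ‖∑' k, c k * fourier k x‖ ^ 2 ∂hm = ∑' k, ‖c k‖ ^ 2

/-- the Fourier series of `F_r(·,α)` -/
def S_FCF : Prop := ∀ (r α : ℝ), 1 < r → Continuous (FG r α) ∧ Summable (fun k => ‖fc r α k‖) ∧
  ∀ x : G, ((FG r α x : ℝ) : ℂ) = ∑' k, fc r α k * fourier k x

/-- convolution of absolutely convergent series -/
def S_CON : Prop := ∀ (c d : ℤ → ℂ) (M F : G → ℝ), Summable (fun k => ‖c k‖) → Summable (fun k => ‖d k‖) →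
  (∀ x : G, ((M x : ℝ) : ℂ) = ∑' k, c k * fourier k x) → (∀ x : G, ((F x : ℝ) : ℂ) = ∑' k, d k * fourier k x) →
  ∀ x : G, ((∫ t, M t * F (x - t) ∂hm : ℝ) : ℂ) = ∑' k, c k * d k * fourier k x

/-- a simple sum -/
def S_SUM : Prop := ∀ δ : ℝ, 0 < δ → δ ≤ 1 → Summable (fun k : ℕ => 1 / (1 + ((k : ℝ) * δ) ^ 2)) ∧
  ∑' k : ℕ, 1 / (1 + ((k : ℝ) * δ) ^ 2) ≤ 3 / δ

/-- the sums of squares of the coefficients of the kernels and of their differences -/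
def S_L2 : Prop := ∀ (r α κ : ℝ) (q : ℕ), 1 < r → 0 < κ → κ ≤ 1 → r + 2 ≤ q → ∃ B : ℝ, 1 ≤ B ∧ ∀ δ : ℝ, 0 < δ → δ ≤ 1 →
  Summable (fun k => ‖mc r α κ q δ k‖) ∧ ∑' k, ‖mc r α κ q δ k‖ ^ 2 ≤ B / δ ∧
  ∑' k, ‖mc r α κ q δ k - mc r α κ q δ (k - 1)‖ ^ 2 ≤ B * δ

/-- from weighted `L²` to weighted `L¹` -/
def S_WL1 : Prop := ∃ K : ℝ, 1 ≤ K ∧ ∀ (B δ : ℝ) (g : G → ℝ), 0 ≤ B → 0 < δ → δ ≤ 1 → Continuous g →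
  ∫ x, g x ^ 2 ∂hm ≤ B / δ → ∫ x, ‖x‖ ^ 2 * g x ^ 2 ∂hm ≤ B * δ →
  ∫ x, |g x| ∂hm ≤ K * Real.sqrt B ∧
  ∀ ρ, 0 < ρ → ∫ x, min 1 (‖x‖ / ρ) * |g x| ∂hm ≤ K * Real.sqrt B * (δ / ρ) ^ (1/4 : ℝ)

/-- `‖x‖ ≤ 2 |e^{ix} - 1|` on the circle -/
def S_NRM : Prop := ∀ x : G, ‖x‖ ≤ 2 * ‖(fourier 1 x : ℂ) - 1‖

/-- the kernels -/
def S_KER : Prop := ∀ (r α : ℝ), 1 < r → ∃ (C : ℝ) (M : ℝ → G → ℝ), 1 ≤ C ∧ Ker r C M ∧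
  ∀ δ, 0 < δ → δ ≤ 1 → ∀ x : G, δ ≤ ‖x‖ → ∫ t, M δ t * FG r α (x - t) ∂hm = 0

/-- the property `Star` -/
def S_STAR : Prop := ∀ (r α C : ℝ) (M : ℝ → G → ℝ), 1 < r → Ker r C M →
  (∀ δ, 0 < δ → δ ≤ 1 → ∀ x : G, δ ≤ ‖x‖ → ∫ t, M δ t * FG r α (x - t) ∂hm = 0) →
  ∀ (m : ℕ) (w : Fin m → ℝ) (ξ : Fin m → G × G), Continuous (errF r α w ξ) ∧ Star r M ξ (errF r α w ξ)

/-- the error of the cubature formula on the class dominates the sup norm of `errF` -/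
def S_SUP : Prop := ∀ (𝕜 : Type) [RCLike 𝕜] (r α : ℝ), 1 < r → ∀ (m : ℕ) (w : Fin m → 𝕜) (ξ : Fin m → ℝ × ℝ) (E : ℝ),
  0 ≤ E → cubErr (W 𝕜 r α) w ξ ≤ ENNReal.ofReal E →
  ∀ y : G × G, |errF r α (fun μ => RCLike.re (w μ)) (fun μ => (((ξ μ).1 : G), ((ξ μ).2 : G))) y| ≤ E

/-- the result -/
def S_FIN : Prop := ∀ (𝕜 : Type) [RCLike 𝕜] (r α : ℝ), 1 < r → ∃ c : ℝ, 0 < c ∧ ∃ m₀ : ℕ, ∀ m : ℕ, m₀ ≤ m →
  ENNReal.ofReal (c * ((m:ℝ) ^ (-r) * Real.log m / Real.log (Real.log m))) ≤ kappa m (W 𝕜 r α)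

end

end Pool.Agent.H729R2.CB
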