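import Mathlib
import Pool.Agent.H729R2.CB.Stubs

set_option autoImplicit false

namespace Pool.Agent.H729R2.CB

open MeasureTheory

theorem com_swap (Φ : G × G → G → ℝ) (hΦ : Continuous (Function.uncurry Φ)) :
    ∫ x, (∫ t, Φ x t ∂hm) ∂hm2 = ∫ t, (∫ x, Φ x t ∂hm2) ∂hm :=
  integral_integral_swap_of_hasCompactSupport hΦ (HasCompactSupport.of_compactSpace _)

theorem com_int2 {φ : G × G → ℝ} (h : Continuous φ) : Integrable φ hm2 :=
  h.integrable_of_hasCompactSupport (HasCompactSupport.of_compactSpace _)

theorem com_int1 {φ : G → ℝ} (h : Continuous φ) : Integrable φ hm :=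
  h.integrable_of_hasCompactSupport (HasCompactSupport.of_compactSpace _)

theorem com_cont (Φ : G × G → G → ℝ) (hΦ : Continuous (Function.uncurry Φ)) :
    Continuous fun t => ∫ x, Φ x t ∂hm2 := by
  have h : Continuous (Function.uncurry fun (t : G) (x : G × G) => Φ x t) :=
    hΦ.comp (continuous_snd.prodMk continuous_fst)
  have := continuous_parametric_integral_of_continuous (μ := hm2) h (isCompact_univ)
  simpa using this

theorem t_COM : S_COM := by
  intro ι M g h k A B hι hM hg hh hk hA hB
  have hA0 : 0 ≤ A := (abs_nonneg _).trans (hA 0)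
  have hB0 : 0 ≤ B := (abs_nonneg _).trans (hB 0)
  -- the first integral
  have c1 : Continuous (Function.uncurry fun (x : G × G) (t : G) =>
      g x * h x * (M t * k (x - ι t))) := by
    unfold Function.uncurry
    fun_prop
  have c2 : Continuous (Function.uncurry fun (x : G × G) (t : G) =>
      (M t * g (x + ι t)) * h x * k x) := by
    unfold Function.uncurry
    fun_prop
  have c3 : Continuous (Function.uncurry fun (x : G × G) (t : G) =>
      (M t * g (x + ι t)) * h (x + ι t) * k x) := by
    unfold Function.uncurry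
    fun_prop
  have c4 : Continuous (Function.uncurry fun (x : G × G) (t : G) => |h (x + ι t) - h x|) := by
    unfold Function.uncurry
    fun_prop
  have e1 : ∫ x, g x * h x * Cv ι M k x ∂hm2 =
      ∫ t, (∫ x, (M t * g (x + ι t)) * h (x + ι t) * k x ∂hm2) ∂hm := by
    calc ∫ x, g x * h x * Cv ι M k x ∂hm2
        = ∫ x, (∫ t, g x * h x * (M t * k (x - ι t)) ∂hm) ∂hm2 := by
          congr 1
          funext x
          unfold Cv
          rw [integral_const_mul]
      _ = ∫ t, (∫ x, g x * h x * (M t * k (x - ι t)) ∂hm2) ∂hm := com_swap _ c1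
      _ = ∫ t, (∫ x, (M t * g (x + ι t)) * h (x + ι t) * k x ∂hm2) ∂hm := by
          congr 1
          funext t
          rw [← integral_add_right_eq_self (fun x => g x * h x * (M t * k (x - ι t))) (ι t)]
          congr 1
          funext x
          rw [add_sub_cancel_right]
          ring
  have e2 : ∫ x, Dv ι M g x * h x * k x ∂hm2 =
      ∫ t, (∫ x, (M t * g (x + ι t)) * h x * k x ∂hm2) ∂hm := by
    calc ∫ x, Dv ι M g x * h x * k x ∂hm2
        = ∫ x, (∫ t, (M t * g (x + ι t)) * h x * k x ∂hm) ∂hm2 := by
          congr 1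
          funext x
          unfold Dv
          rw [integral_mul_const, integral_mul_const]
      _ = _ := com_swap _ c2
  rw [e1, e2, ← integral_sub (com_int1 (com_cont _ c3)) (com_int1 (com_cont _ c2)),
    ← integral_const_mul]
  refine (abs_integral_le_integral_abs).trans (integral_mono ?_ ?_ fun t => ?_)
  · exact ((com_int1 (com_cont _ c3)).sub (com_int1 (com_cont _ c2))).abs
  · exact com_int1 (continuous_const.mul (hM.abs.mul (com_cont _ c4)))
  · have i1 : Integrable (fun x => (M t * g (x + ι t)) * h (x + ι t) * k x) hm2 :=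
      com_int2 (by fun_prop)
    have i2 : Integrable (fun x => (M t * g (x + ι t)) * h x * k x) hm2 :=
      com_int2 (by fun_prop)
    show |(∫ x, (M t * g (x + ι t)) * h (x + ι t) * k x ∂hm2) -
      ∫ x, (M t * g (x + ι t)) * h x * k x ∂hm2| ≤
      A * B * (|M t| * ∫ x, |h (x + ι t) - h x| ∂hm2)
    rw [← integral_sub i1 i2, ← integral_const_mul, ← integral_const_mul]
    refine (abs_integral_le_integral_abs).trans (integral_mono (i1.sub i2).abs ?_ fun x => ?_)
    · exact com_int2 (by fun_prop)
    · show |(M t * g (x + ι t)) * h (x + ι t) * k x - (M t * g (x + ι t)) * h x * k x| ≤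
        A * B * (|M t| * |h (x + ι t) - h x|)
      have e : (M t * g (x + ι t)) * h (x + ι t) * k x - (M t * g (x + ι t)) * h x * k x =
          g (x + ι t) * k x * (M t * (h (x + ι t) - h x)) := by ring
      rw [e, abs_mul, abs_mul, abs_mul (M t)]
      have h1 := hA (x + ι t)
      have h2 := hB x
      gcongr

end Pool.Agent.H729R2.CB
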