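import Mathlib
import Pool.Agent.H729R2.CB.Stubs

set_option autoImplicit false

namespace Pool.Agent.H729R2.CB

open MeasureTheory

lemma con_fourier_sub (l : ℤ) (x t : G) : (fourier l (x - t) : ℂ) = fourier l x * fourier (-l) t := by
  rw [sub_eq_add_neg, fourier_apply, fourier_apply, fourier_apply, smul_add, AddCircle.toCircle_add,
    Circle.coe_mul, smul_neg, neg_smul]

lemma con_norm_fourier (l : ℤ) (x : G) : ‖(fourier l x : ℂ)‖ = 1 := by
  rw [fourier_apply]
  exact Circle.norm_coe _

theorem t_CON (hP : S_PAR) : S_CON := by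
  intro c d M F hc hd hM hF x
  obtain ⟨hcont, hcoef, _⟩ := hP c hc
  have hMc : Continuous (fun t : G => ((M t : ℝ) : ℂ)) := by
    have : (fun t : G => ((M t : ℝ) : ℂ)) = fun t => ∑' k, c k * fourier k t := funext hM
    rw [this]
    exact hcont
  have hMr : Continuous M := by
    have := Complex.continuous_re.comp hMc
    exact this.congr fun t => by simp
  have hMint : Integrable (fun t : G => |M t|) hm :=
    (hMr.abs).integrable_of_hasCompactSupport (HasCompactSupport.of_compactSpace _)
  have e1 : ((∫ t, M t * F (x - t) ∂hm : ℝ) : ℂ) =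
      ∫ t, ∑' l, (((M t : ℝ) : ℂ) * (d l * fourier l (x - t))) ∂hm := by
    rw [← integral_complex_ofReal]
    apply integral_congr_ae
    refine Filter.Eventually.of_forall fun t => ?_
    show ((M t * F (x - t) : ℝ) : ℂ) = _
    rw [Complex.ofReal_mul, hF (x - t), ← tsum_mul_left]
  have hcl : ∀ l, Continuous (fun t : G => (((M t : ℝ) : ℂ) * (d l * fourier l (x - t)))) := by
    intro l
    exact hMc.mul (continuous_const.mul ((fourier l).continuous.comp (continuous_const.sub continuous_id)))
  have hnorm : ∀ l (t : G), ‖(((M t : ℝ) : ℂ) * (d l * fourier l (x - t)))‖ = |M t| * ‖d l‖ := by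
    intro l t
    rw [norm_mul, norm_mul, con_norm_fourier, mul_one, Complex.norm_real, Real.norm_eq_abs]
  have hs : HasSum (fun l => ∫ t, (((M t : ℝ) : ℂ) * (d l * fourier l (x - t))) ∂hm)
      (∫ t, ∑' l, (((M t : ℝ) : ℂ) * (d l * fourier l (x - t))) ∂hm) := by
    apply hasSum_integral_of_summable_integral_norm
    · intro l
      exact (hcl l).integrable_of_hasCompactSupport (HasCompactSupport.of_compactSpace _)
    · have : (fun l => ∫ t, ‖(((M t : ℝ) : ℂ) * (d l * fourier l (x - t)))‖ ∂hm) =
          fun l => (∫ t, |M t| ∂hm) * ‖d l‖ := by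
        funext l
        rw [← integral_mul_const]
        apply integral_congr_ae
        exact Filter.Eventually.of_forall fun t => hnorm l t
      rw [this]
      exact hd.mul_left _
  rw [e1, ← hs.tsum_eq]
  apply tsum_congr
  intro l
  have e2 : (fun t : G => (((M t : ℝ) : ℂ) * (d l * fourier l (x - t)))) =
      fun t => (d l * fourier l x) * (fourier (-l) t • ((M t : ℝ) : ℂ)) := by
    funext t
    rw [con_fourier_sub, smul_eq_mul]
    ring
  rw [e2, integral_const_mul]
  have e3 : ∫ t, (fourier (-l) t • ((M t : ℝ) : ℂ)) ∂hm = c l := by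
    have := hcoef l
    rw [fourierCoeff] at this
    rw [← this]
    apply integral_congr_ae
    exact Filter.Eventually.of_forall fun t => by
      show fourier (-l) t • ((M t : ℝ) : ℂ) = fourier (-l) t • (∑' k, c k * fourier k t)
      rw [hM t]
  rw [e3]
  ring

end Pool.Agent.H729R2.CB
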