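import Mathlib
import Pool.Agent.H729R2.CB.Stubs

set_option autoImplicit false

namespace Pool.Agent.H729R2.CB

open MeasureTheory

noncomputable section

theorem core_int {g : G × G → ℝ} (hg : Continuous g) : Integrable g hm2 :=
  hg.integrable_of_hasCompactSupport (HasCompactSupport.of_compactSpace g)

theorem t_CORE (hCUT : S_CUT) (hEXP : S_EXP) (hQ : S_QF) (hI : S_INT) (hX : S_CRO) (hM : S_MAI) :
    S_CORE := by
  intro r C E M m ξ f J s hr hC hK hfc hfE hst hJ hs0 hsJ hms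
  have hJr : (1:ℝ) ≤ J := by exact_mod_cast hJ
  have hJ8 : (1:ℝ) ≤ (J:ℝ)^8 := one_le_pow₀ hJr
  have hC2 : 1 ≤ C ^ 2 := one_le_pow₀ hC
  have hE : 0 ≤ E := (abs_nonneg _).trans (hfE 0)
  have hsJ' : 0 < (J:ℝ)^8 * s := by positivity
  have h10 : 10 ^ 4 * ((J:ℝ)^8 * s) ≤ 1 := by nlinarith
  have h8C : 8 * C ^ 2 * ((J:ℝ)^8 * s) ≤ 1 := by nlinarith
  have hs1 : s ≤ 1 / 10 ^ 4 := by nlinarith
  have hs1' : s ≤ 1 := hs1.trans (by norm_num)
  have hsa : ∀ j, 0 < sa s j ∧ sa s j ≤ 1 := fun j =>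
    ⟨pow_pos hs0 _, pow_le_one₀ hs0.le hs1'⟩
  have hsb : ∀ j, 0 < sb s J j ∧ sb s J j ≤ 1 := fun j =>
    ⟨pow_pos hs0 _, pow_le_one₀ hs0.le hs1'⟩
  choose χ hχ using fun j => hCUT m ξ (sa s j) (sb s J j) (hsa j).1 (hsa j).2 (hsb j).1 (hsb j).2
  have hS : Setup r C E M m ξ f J s χ :=
    ⟨hr, hC, hK, hfc, hfE, hst, hJ, hs0, hsJ, hms, fun j _ => hχ j⟩
  set q : ℕ → G × G → ℝ := qf C M s J χ with hq
  have hqc : ∀ j, j < J → Continuous (q j) := fun j hj => (hQ r C E M m ξ f J s χ hS j hj).1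
  have hqb : ∀ j, j < J → ∀ x, |q j x| ≤ 1/2 := fun j hj => (hQ r C E M m ξ f J s χ hS j hj).2.1
  have hRPc : ∀ S : Finset ℕ, (∀ k ∈ S, k < J) → Continuous (RP q S) := by
    intro S hS'
    unfold RP
    exact continuous_finset_prod _ fun k hk => continuous_const.add (hqc k (hS' k hk))
  have hRPn : ∀ S : Finset ℕ, (∀ k ∈ S, k < J) → ∀ x, 0 ≤ RP q S x := by
    intro S hS' x
    unfold RP
    refine Finset.prod_nonneg fun k hk => ?_
    have := (abs_le.1 (hqb k (hS' k hk) x)).1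
    linarith
  have hrange : ∀ k ∈ Finset.range J, k < J := fun k hk => Finset.mem_range.1 hk
  have hPc := hRPc _ hrange
  have hP2 : ∫ x, RP q (Finset.range J) x ∂hm2 ≤ 2 := by
    have := hI r C E M m ξ f J s χ hS 0 J le_rfl
    rwa [← Finset.range_eq_Ico] at this
  -- upper bound
  have hup : ∫ x, f x * (RP q (Finset.range J) x - 1) ∂hm2 ≤ 3 * E := by
    have h1 : ∫ x, f x * (RP q (Finset.range J) x - 1) ∂hm2 ≤
        ∫ x, E * (RP q (Finset.range J) x + 1) ∂hm2 := by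
      refine integral_mono (core_int (hfc.mul (hPc.sub continuous_const)))
        (core_int (continuous_const.mul (hPc.add continuous_const))) fun x => ?_
      have h2 := hRPn _ hrange x
      have h3 : |RP q (Finset.range J) x - 1| ≤ RP q (Finset.range J) x + 1 := by
        rw [abs_le]; constructor <;> linarith
      calc f x * (RP q (Finset.range J) x - 1) ≤ |f x * (RP q (Finset.range J) x - 1)| :=
            le_abs_self _
        _ = |f x| * |RP q (Finset.range J) x - 1| := abs_mul _ _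
        _ ≤ E * (RP q (Finset.range J) x + 1) :=
            mul_le_mul (hfE x) h3 (abs_nonneg _) hE
    have h4 : ∫ x, E * (RP q (Finset.range J) x + 1) ∂hm2 =
        E * ((∫ x, RP q (Finset.range J) x ∂hm2) + 1) := by
      rw [integral_const_mul, integral_add (core_int hPc) (integrable_const _)]
      simp
    rw [h4] at h1
    nlinarith
  -- expansion
  have hcr : ∀ i j, i < j → j < J → Continuous
      (fun x => f x * (q i x * RP q (Finset.Ioo i j) x * q j x)) := by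
    intro i j hij hj
    refine hfc.mul (((hqc i (hij.trans hj)).mul (hRPc _ ?_)).mul (hqc j hj))
    intro k hk
    exact (Finset.mem_Ioo.1 hk).2.trans hj
  have hexp : ∫ x, f x * (RP q (Finset.range J) x - 1) ∂hm2 =
      ∑ j ∈ Finset.range J, ∫ x, f x * q j x ∂hm2 +
      ∑ j ∈ Finset.range J, ∑ i ∈ Finset.range j,
        ∫ x, f x * (q i x * RP q (Finset.Ioo i j) x * q j x) ∂hm2 := by
    have h1 : (fun x => f x * (RP q (Finset.range J) x - 1)) = fun x =>
        ∑ j ∈ Finset.range J, f x * q j x + ∑ j ∈ Finset.range J, ∑ i ∈ Finset.range j,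
          f x * (q i x * RP q (Finset.Ioo i j) x * q j x) := by
      funext x
      have := hEXP (fun k => q k x) J
      have h2 : RP q (Finset.range J) x = 1 + ∑ j ∈ Finset.range J, q j x
          + ∑ j ∈ Finset.range J, ∑ i ∈ Finset.range j, q i x * RP q (Finset.Ioo i j) x * q j x :=
        this
      rw [h2]
      simp only [← Finset.mul_sum]
      ring
    have hi1 : ∀ j ∈ Finset.range J, Integrable (fun x => f x * q j x) hm2 := fun j hj =>
      core_int (hfc.mul (hqc j (hrange j hj)))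
    have hi2 : ∀ j ∈ Finset.range J, ∀ i ∈ Finset.range j, Integrable
        (fun x => f x * (q i x * RP q (Finset.Ioo i j) x * q j x)) hm2 := fun j hj i hi =>
      core_int (hcr i j (Finset.mem_range.1 hi) (hrange j hj))
    rw [h1, integral_add (integrable_finset_sum _ hi1)
      (integrable_finset_sum _ fun j hj => integrable_finset_sum _ (hi2 j hj)),
      integral_finset_sum _ hi1,
      integral_finset_sum _ fun j hj => integrable_finset_sum _ (hi2 j hj)]
    congr 1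
    refine Finset.sum_congr rfl fun j hj => ?_
    exact integral_finset_sum _ (hi2 j hj)
  -- the main terms
  have hmain : (J:ℝ) * ((1 / (4 * C ^ 2)) * (s ^ J) ^ r) ≤
      ∑ j ∈ Finset.range J, ∫ x, f x * q j x ∂hm2 := by
    have := Finset.card_nsmul_le_sum (Finset.range J) (fun j => ∫ x, f x * q j x ∂hm2)
      ((1 / (4 * C ^ 2)) * (s ^ J) ^ r) (fun j hj => hM r C E M m ξ f J s χ hS j (hrange j hj))
    simpa [nsmul_eq_mul] using this
  -- the cross terms
  set A : ℝ := (s ^ J) ^ r with hA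
  have hA0 : 0 < A := Real.rpow_pos_of_pos (pow_pos hs0 _) _
  set T : ℝ := 5 * E * s ^ (1/4 : ℝ) + A * s / 2 + E * (3 * s / 2) / 4 with hT
  have hT0 : 0 ≤ T := by positivity
  have hterm : ∀ i j, i < j → j < J →
      -T ≤ ∫ x, f x * (q i x * RP q (Finset.Ioo i j) x * q j x) ∂hm2 := by
    intro i j hij hj
    have h1 := (abs_le.1 (hX r C E M m ξ f J s χ hS i j hij hj)).1
    refine le_trans ?_ h1
    rw [neg_le_neg_iff, hT]
    have hd : 1 ≤ j - i := by omega
    have e1 : (s ^ (J + (j - i))) ^ r ≤ A * s := by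
      rw [pow_add, Real.mul_rpow (pow_nonneg hs0.le _) (pow_nonneg hs0.le _)]
      refine mul_le_mul_of_nonneg_left ?_ hA0.le
      have p1 : 0 < s ^ (j - i) := pow_pos hs0 _
      have p2 : s ^ (j - i) ≤ s := by
        calc s ^ (j - i) ≤ s ^ 1 := pow_le_pow_of_le_one hs0.le hs1' hd
          _ = s := pow_one s
      calc (s ^ (j - i)) ^ r ≤ (s ^ (j - i)) ^ (1:ℝ) :=
            Real.rpow_le_rpow_of_exponent_ge p1 (p2.trans hs1') hr
        _ = s ^ (j - i) := Real.rpow_one _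
        _ ≤ s := p2
    have e2 : (3 * s / 2) ^ (j - i) ≤ 3 * s / 2 := by
      calc (3 * s / 2) ^ (j - i) ≤ (3 * s / 2) ^ 1 :=
            pow_le_pow_of_le_one (by positivity) (by linarith) hd
        _ = 3 * s / 2 := pow_one _
    have e3 : E * (3 * s / 2) ^ (j - i) ≤ E * (3 * s / 2) := mul_le_mul_of_nonneg_left e2 hE
    linarith
  have hcross : -((J:ℝ) * (J * T)) ≤ ∑ j ∈ Finset.range J, ∑ i ∈ Finset.range j,
        ∫ x, f x * (q i x * RP q (Finset.Ioo i j) x * q j x) ∂hm2 := by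
    have h1 : ∀ j ∈ Finset.range J, -(J * T) ≤ ∑ i ∈ Finset.range j,
        ∫ x, f x * (q i x * RP q (Finset.Ioo i j) x * q j x) ∂hm2 := by
      intro j hj
      have h2 := Finset.card_nsmul_le_sum (Finset.range j)
        (fun i => ∫ x, f x * (q i x * RP q (Finset.Ioo i j) x * q j x) ∂hm2) (-T)
        (fun i hi => hterm i j (Finset.mem_range.1 hi) (hrange j hj))
      simp only [Finset.card_range, nsmul_eq_mul] at h2
      refine le_trans ?_ h2
      have h3 : (j:ℝ) ≤ J := by exact_mod_cast (hrange j hj).le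
      nlinarith
    have h2 := Finset.card_nsmul_le_sum (Finset.range J) _ (-(J * T)) h1
    simp only [Finset.card_range, nsmul_eq_mul] at h2
    linarith
  -- numbers
  have hquarter : s ^ (1/4 : ℝ) ≤ 1 / (10 * (J:ℝ) ^ 2) := by
    have h1 : s ≤ (1 / (10 * (J:ℝ) ^ 2)) ^ (4:ℝ) := by
      rw [show (4:ℝ) = ((4:ℕ) : ℝ) by norm_num, Real.rpow_natCast, div_pow, one_pow,
        le_div_iff₀ (by positivity)]
      calc s * (10 * (J:ℝ) ^ 2) ^ 4 = 10 ^ 4 * ((J:ℝ)^8 * s) := by ring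
        _ ≤ 1 := h10
    calc s ^ (1/4 : ℝ) ≤ ((1 / (10 * (J:ℝ) ^ 2)) ^ (4:ℝ)) ^ (1/4 : ℝ) :=
          Real.rpow_le_rpow hs0.le h1 (by norm_num)
      _ = 1 / (10 * (J:ℝ) ^ 2) := by
          rw [← Real.rpow_mul (by positivity)]
          norm_num
  have n1 : (J:ℝ) ^ 2 * (5 * E * s ^ (1/4 : ℝ)) ≤ E / 2 := by
    have h1 : (J:ℝ) ^ 2 * s ^ (1/4 : ℝ) ≤ 1 / 10 := by
      calc (J:ℝ) ^ 2 * s ^ (1/4 : ℝ) ≤ (J:ℝ) ^ 2 * (1 / (10 * (J:ℝ) ^ 2)) :=
            mul_le_mul_of_nonneg_left hquarter (by positivity)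
        _ = 1 / 10 := by field_simp
    nlinarith
  have hJ28 : (J:ℝ) ^ 2 ≤ (J:ℝ) ^ 8 := pow_le_pow_right₀ hJr (by norm_num)
  have n2 : (J:ℝ) ^ 2 * (A * s / 2) ≤ J * (A / (16 * C ^ 2)) := by
    have h1 : C ^ 2 * ((J:ℝ) * s) ≤ 1 / 8 := by
      have hJ18 : (J:ℝ) ≤ (J:ℝ) ^ 8 := by
        calc (J:ℝ) = (J:ℝ) ^ 1 := (pow_one _).symm
          _ ≤ (J:ℝ) ^ 8 := pow_le_pow_right₀ hJr (by norm_num)
      have h2 : (J:ℝ) * s ≤ (J:ℝ) ^ 8 * s := mul_le_mul_of_nonneg_right hJ18 hs0.le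
      nlinarith
    have h2 : (J:ℝ) ^ 2 * (A * s / 2) = J * (A * (J * s) / 2) := by ring
    rw [h2]
    refine mul_le_mul_of_nonneg_left ?_ (by positivity)
    rw [le_div_iff₀ (by positivity)]
    nlinarith
  have n3 : (J:ℝ) ^ 2 * (E * (3 * s / 2) / 4) ≤ E / 100 := by
    have h1 : (J:ℝ) ^ 2 * s ≤ 1 / 10 ^ 4 := by
      have : (J:ℝ) ^ 2 * s ≤ (J:ℝ) ^ 8 * s := mul_le_mul_of_nonneg_right hJ28 hs0.le
      linarith
    nlinarith
  have hfin : (J:ℝ) * ((1 / (4 * C ^ 2)) * A) - (E / 2 + J * (A / (16 * C ^ 2)) + E / 100) ≤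
      3 * E := by
    have h1 : (J:ℝ) * (J * T) = (J:ℝ) ^ 2 * (5 * E * s ^ (1/4 : ℝ)) + (J:ℝ) ^ 2 * (A * s / 2) +
        (J:ℝ) ^ 2 * (E * (3 * s / 2) / 4) := by
      rw [hT]; ring
    linarith
  have h3 : (J:ℝ) * ((1 / (4 * C ^ 2)) * A) = 8 * ((1 / (32 * C ^ 2)) * J * A) := by ring
  have h4 : J * (A / (16 * C ^ 2)) = 2 * ((1 / (32 * C ^ 2)) * J * A) := by ring
  rw [h3, h4] at hfin
  linarith

end

end Pool.Agent.H729R2.CB
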