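import Mathlib
import Pool.Agent.H729R2.CB.Stubs

set_option autoImplicit false

/-! The cross terms (task CRO). -/

namespace Pool.Agent.H729R2.CB

open MeasureTheory

noncomputable section

lemma cro_int {g : G × G → ℝ} (hg : Continuous g) : Integrable g hm2 :=
  hg.integrable_of_hasCompactSupport (HasCompactSupport.of_compactSpace g)

lemma cro_int1 {g : G → ℝ} (hg : Continuous g) : Integrable g hm :=
  hg.integrable_of_hasCompactSupport (HasCompactSupport.of_compactSpace g)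

lemma cro_i1 : Continuous i1 := by unfold i1; fun_prop

lemma cro_i2 : Continuous i2 := by unfold i2; fun_prop

lemma cro_lin (ι : G → G × G) (M : G → ℝ) (g : G × G → ℝ) (c : ℝ) (x : G × G) :
    Cv ι M (fun y => c * g y) x = c * Cv ι M g x := by
  unfold Cv
  rw [← integral_const_mul]
  refine integral_congr_ae (Filter.Eventually.of_forall fun t => ?_)
  show M t * (c * g (x - ι t)) = c * (M t * g (x - ι t))
  ring

lemma cro_geo {s : ℝ} (h0 : 0 < s) (h1 : s ≤ 1 / 2) (n : ℕ) :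
    ∑ k ∈ Finset.range (n + 1), 1 / s ^ k ≤ 2 / s ^ n := by
  induction n with
  | zero => simp
  | succ n ih =>
    rw [Finset.sum_range_succ]
    have h2 : 2 / s ^ n = 2 * s / s ^ (n + 1) := by
      rw [pow_succ]
      field_simp
    rw [h2] at ih
    have h3 : 0 < s ^ (n + 1) := by positivity
    have h4 : 2 * s / s ^ (n + 1) + 1 / s ^ (n + 1) ≤ 2 / s ^ (n + 1) := by
      rw [← add_div]
      exact div_le_div_of_nonneg_right (by linarith) h3.le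
    linarith

lemma cro_sum1 {s : ℝ} (h0 : 0 < s) (h1 : s ≤ 1 / 2) (i j : ℕ) :
    ∑ k ∈ Finset.Ioo i j, 1 / sa s k ≤ 1 / (s ^ j / 2) := by
  unfold sa
  have e : (1 : ℝ) / (s ^ j / 2) = 2 / s ^ j := by field_simp
  rw [e]
  refine le_trans ?_ (cro_geo h0 h1 j)
  have h2 : ∑ k ∈ Finset.Ioo i j, 1 / s ^ (k + 1) =
      ∑ n ∈ (Finset.Ioo i j).image (fun k => k + 1), 1 / s ^ n := by
    rw [Finset.sum_image]
    intro a _ b _ hab
    simpa using hab
  rw [h2]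
  refine Finset.sum_le_sum_of_subset_of_nonneg ?_ (fun n _ _ => by positivity)
  intro n hn
  simp only [Finset.mem_image, Finset.mem_Ioo] at hn
  obtain ⟨k, hk, rfl⟩ := hn
  simp only [Finset.mem_range]
  omega

lemma cro_sum2 {s : ℝ} (h0 : 0 < s) (h1 : s ≤ 1 / 2) (J i j : ℕ) (hj : j < J) :
    ∑ k ∈ Finset.Ioo i j, 1 / sb s J k ≤ 1 / (s ^ (J - 2 - i) / 2) := by
  unfold sb
  have e : (1 : ℝ) / (s ^ (J - 2 - i) / 2) = 2 / s ^ (J - 2 - i) := by field_simp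
  rw [e]
  refine le_trans ?_ (cro_geo h0 h1 (J - 2 - i))
  have h2 : ∑ k ∈ Finset.Ioo i j, 1 / s ^ (J - 1 - k) =
      ∑ n ∈ (Finset.Ioo i j).image (fun k => J - 1 - k), 1 / s ^ n := by
    rw [Finset.sum_image]
    intro a ha b hb hab
    have ha' := Finset.mem_Ioo.mp ha
    have hb' := Finset.mem_Ioo.mp hb
    simp only at hab
    omega
  rw [h2]
  refine Finset.sum_le_sum_of_subset_of_nonneg ?_ (fun n _ _ => by positivity)
  intro n hn
  simp only [Finset.mem_image, Finset.mem_Ioo] at hn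
  obtain ⟨k, hk, rfl⟩ := hn
  simp only [Finset.mem_range]
  omega

/-- the error integral -/
lemma cro_err {M : G → ℝ} (hM : Continuous M) (inner : G → ℝ) (hi0 : ∀ t, 0 ≤ inner t) {K σ W : ℝ}
    (hK : 0 ≤ K) (hi : ∀ t, inner t ≤ K * min 1 (‖t‖ / σ))
    (hW : ∫ t, min 1 (‖t‖ / σ) * |M t| ∂hm ≤ W) :
    ∫ t, |M t| * inner t ∂hm ≤ K * W := by
  have hc : Continuous (fun t : G => K * (min 1 (‖t‖ / σ) * |M t|)) := by fun_prop
  have h1 : ∫ t, |M t| * inner t ∂hm ≤ ∫ t, K * (min 1 (‖t‖ / σ) * |M t|) ∂hm := by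
    refine integral_mono_of_nonneg (Filter.Eventually.of_forall fun t => ?_) (cro_int1 hc)
      (Filter.Eventually.of_forall fun t => ?_)
    · exact mul_nonneg (abs_nonneg _) (hi0 t)
    · show |M t| * inner t ≤ K * (min 1 (‖t‖ / σ) * |M t|)
      have := mul_le_mul_of_nonneg_left (hi t) (abs_nonneg (M t))
      calc |M t| * inner t ≤ |M t| * (K * min 1 (‖t‖ / σ)) := this
        _ = _ := by ring
  refine h1.trans ?_
  rw [integral_const_mul]
  exact mul_le_mul_of_nonneg_left hW hK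

lemma cro_RP_cont {q : ℕ → G × G → ℝ} {S : Finset ℕ} (h : ∀ k ∈ S, Continuous (q k)) :
    Continuous (RP q S) := by
  unfold RP
  exact continuous_finsetProd _ fun k hk => continuous_const.add (h k hk)

lemma cro_RP_nonneg {q : ℕ → G × G → ℝ} {S : Finset ℕ} (h : ∀ k ∈ S, ∀ x, |q k x| ≤ 1 / 2)
    (x : G × G) : 0 ≤ RP q S x := by
  unfold RP
  refine Finset.prod_nonneg fun k hk => ?_
  have := (abs_le.mp (h k hk x)).1
  linarith

lemma cro_RP_le {q : ℕ → G × G → ℝ} {i j : ℕ} (h : ∀ k ∈ Finset.Ioo i j, ∀ x, |q k x| ≤ 1 / 2)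
    (x : G × G) : RP q (Finset.Ioo i j) x ≤ (3 / 2) ^ (j - i) := by
  unfold RP
  have h1 : ∏ k ∈ Finset.Ioo i j, (1 + q k x) ≤ ∏ k ∈ Finset.Ioo i j, (3 / 2 : ℝ) := by
    refine Finset.prod_le_prod (fun k hk => ?_) fun k hk => ?_
    · have := (abs_le.mp (h k hk x)).1
      linarith
    · have := (abs_le.mp (h k hk x)).2
      linarith
  refine h1.trans ?_
  rw [Finset.prod_const, Nat.card_Ioo]
  exact pow_le_pow_right₀ (by norm_num) (by omega)

/-- basic facts on the setup -/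
lemma cro_basic {r C E : ℝ} {M : ℝ → G → ℝ} {m : ℕ} {ξ : Fin m → G × G} {f : G × G → ℝ} {J : ℕ}
    {s : ℝ} {χ : ℕ → G × G → ℝ} (H : Setup r C E M m ξ f J s χ) :
    s ≤ 1 / 2 ∧ (∀ k, 0 < sa s k ∧ sa s k ≤ 1) ∧ (∀ k, 0 < sb s J k ∧ sb s J k ≤ 1) := by
  have h1 : s ≤ 1 / 2 := by
    have h2 := H.sJ
    have h3 : (1:ℝ) ≤ (J : ℝ) ^ 8 := one_le_pow₀ (by exact_mod_cast H.J1)
    have h4 : (10 ^ 4 : ℝ) ≤ (10 ^ 4 + 8 * C ^ 2) * (J : ℝ) ^ 8 := by nlinarith [sq_nonneg C]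
    have h5 : (10 ^ 4 : ℝ) * s ≤ (10 ^ 4 + 8 * C ^ 2) * (J : ℝ) ^ 8 * s :=
      mul_le_mul_of_nonneg_right h4 H.s0.le
    linarith [H.s0]
  have hs1 : s ≤ 1 := by linarith
  refine ⟨h1, fun k => ?_, fun k => ?_⟩
  · unfold sa
    exact ⟨pow_pos H.s0 _, pow_le_one₀ H.s0.le hs1⟩
  · unfold sb
    exact ⟨pow_pos H.s0 _, pow_le_one₀ H.s0.le hs1⟩

/-- step 1 -/
lemma cro_step1 (h1 : S_CV1) (h2 : S_CV2) (hC : S_COM) (hH : S_HAR) (hQ : S_QF) (hI : S_INT)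
    {r C E : ℝ} {M : ℝ → G → ℝ} {m : ℕ} {ξ : Fin m → G × G} {f : G × G → ℝ} {J : ℕ}
    {s : ℝ} {χ : ℕ → G × G → ℝ} (H : Setup r C E M m ξ f J s χ) {i j : ℕ} (hij : i < j) (hj : j < J) :
    |∫ x, f x * (qf C M s J χ i x * RP (qf C M s J χ) (Finset.Ioo i j) x) * qf C M s J χ j x ∂hm2 -
      ∫ x, Dv i1 (M (sa s j)) f x * (qf C M s J χ i x * RP (qf C M s J χ) (Finset.Ioo i j) x) *
        (-(1 / (2 * C ^ 2)) * Cv i2 (M (sb s J j)) (χ j) x) ∂hm2| ≤
      2 * E * (2 * s) ^ (1 / 4 : ℝ) := by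
  obtain ⟨hs2, hsa, hsb⟩ := cro_basic H
  have hCpos : 0 < C := lt_of_lt_of_le one_pos H.hC
  have hE0 : 0 ≤ E := (abs_nonneg _).trans (H.fE 0)
  have hMa : Continuous (M (sa s j)) := H.ker.cont _ (hsa j).1 (hsa j).2
  have hMb : Continuous (M (sb s J j)) := H.ker.cont _ (hsb j).1 (hsb j).2
  have hχ := H.cut j hj
  have hS : ∀ k ∈ Finset.Ioo i j, k < J := by
    intro k hk
    have := (Finset.mem_Ioo.mp hk).2
    omega
  have hqc : ∀ k ∈ Finset.Ioo i j, Continuous (qf C M s J χ k) := fun k hk =>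
    (hQ r C E M m ξ f J s χ H k (hS k hk)).1
  have hPc := cro_RP_cont hqc
  have hqi := hQ r C E M m ξ f J s χ H i (by omega)
  have hk1c : Continuous (fun x => -(1 / (2 * C ^ 2)) * Cv i2 (M (sb s J j)) (χ j) x) :=
    continuous_const.mul (h1 i2 _ _ cro_i2 hMb hχ.cont).1
  have hk1b : ∀ x, |-(1 / (2 * C ^ 2)) * Cv i2 (M (sb s J j)) (χ j) x| ≤ 1 / (2 * C) := by
    intro x
    have h3 := (h2 i2 (M (sb s J j)) (χ j) 1 C cro_i2 hMb hχ.cont (fun y => by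
      rw [abs_of_nonneg (hχ.nonneg y)]; exact hχ.le_one y) (H.ker.l1 _ (hsb j).1 (hsb j).2)).1 x
    rw [abs_mul, abs_neg, abs_of_pos (by positivity : 0 < 1 / (2 * C ^ 2))]
    calc 1 / (2 * C ^ 2) * |Cv i2 (M (sb s J j)) (χ j) x| ≤ 1 / (2 * C ^ 2) * (C * 1) :=
          mul_le_mul_of_nonneg_left h3 (by positivity)
      _ = 1 / (2 * C) := by field_simp
  have hq : ∀ x, qf C M s J χ j x = Cv i1 (M (sa s j))
      (fun x => -(1 / (2 * C ^ 2)) * Cv i2 (M (sb s J j)) (χ j) x) x := by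
    intro x
    rw [cro_lin]
    rfl
  have hcom := hC i1 (M (sa s j)) f
    (fun x => qf C M s J χ i x * RP (qf C M s J χ) (Finset.Ioo i j) x)
    (fun x => -(1 / (2 * C ^ 2)) * Cv i2 (M (sb s J j)) (χ j) x) E (1 / (2 * C)) cro_i1 hMa H.fc
    (hqi.1.mul hPc) hk1c H.fE hk1b
  simp only [← hq] at hcom
  refine hcom.trans ?_
  have hP2 : ∫ x, RP (qf C M s J χ) (Finset.Ioo i j) x ∂hm2 ≤ 2 := by
    have h3 := hI r C E M m ξ f J s χ H (i + 1) j hj.le
    have h4 : Finset.Ico (i + 1) j = Finset.Ioo i j := by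
      ext k
      simp only [Finset.mem_Ico, Finset.mem_Ioo]
      omega
    rwa [h4] at h3
  have hσ : 0 < s ^ j / 2 := by
    have := H.s0
    positivity
  have hinner : ∀ t, ∫ x, |qf C M s J χ i (x + i1 t) *
      RP (qf C M s J χ) (Finset.Ioo i j) (x + i1 t) -
      qf C M s J χ i x * RP (qf C M s J χ) (Finset.Ioo i j) x| ∂hm2 ≤
      4 * min 1 (‖t‖ / (s ^ j / 2)) := by
    intro t
    have h3 := hH i1 (qf C M s J χ) (fun k => sa s k) (Finset.Ioo i j) (s ^ j / 2) hσ cro_i1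
      (fun k _ => (hsa k).1) hqc (fun k hk => (hQ r C E M m ξ f J s χ H k (hS k hk)).2.1)
      (fun k hk => (hQ r C E M m ξ f J s χ H k (hS k hk)).2.2.1) (cro_sum1 H.s0 hs2 i j)
      (qf C M s J χ i) (1 / 2) (sa s i) (s ^ j / 2) hqi.1 hqi.2.1
      (fun x t => by
        have := hqi.2.2.1 x t
        linarith) hσ (le_refl _) (by
        unfold sa
        have h4 : s ^ j ≤ s ^ (i + 1) := pow_le_pow_of_le_one H.s0.le (by linarith) (by omega)
        have h5 : 0 < s ^ j := pow_pos H.s0 _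
        linarith) t
    refine h3.trans ?_
    have h6 : 0 ≤ min 1 (‖t‖ / (s ^ j / 2)) := le_min zero_le_one (by positivity)
    have h7 := mul_le_mul_of_nonneg_left hP2 (by positivity : 0 ≤ 4 * (1 / 2) * min 1 (‖t‖ / (s ^ j / 2)))
    linarith
  have herr := cro_err hMa (fun t => ∫ x, |qf C M s J χ i (x + i1 t) *
      RP (qf C M s J χ) (Finset.Ioo i j) (x + i1 t) -
      qf C M s J χ i x * RP (qf C M s J χ) (Finset.Ioo i j) x| ∂hm2)
    (fun t => integral_nonneg fun x => abs_nonneg _) (by norm_num : (0:ℝ) ≤ 4) hinner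
    (H.ker.wt _ (hsa j).1 (hsa j).2 _ hσ)
  have h8 : sa s j / (s ^ j / 2) = 2 * s := by
    unfold sa
    have : s ^ j ≠ 0 := (pow_pos H.s0 _).ne'
    rw [pow_succ]
    field_simp
  rw [h8] at herr
  have h9 := mul_le_mul_of_nonneg_left herr (by positivity : 0 ≤ E * (1 / (2 * C)))
  refine h9.trans (le_of_eq ?_)
  field_simp
  ring

/-- step 2 -/
lemma cro_step2 (h1 : S_CV1) (h2 : S_CV2) (h3' : S_CV3) (h5 : S_CV5) (hC : S_COM) (hH : S_HAR)
    (hQ : S_QF) (hI : S_INT)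
    {r C E : ℝ} {M : ℝ → G → ℝ} {m : ℕ} {ξ : Fin m → G × G} {f : G × G → ℝ} {J : ℕ}
    {s : ℝ} {χ : ℕ → G × G → ℝ} (H : Setup r C E M m ξ f J s χ) {i j : ℕ} (hij : i < j) (hj : j < J) :
    |∫ x, Dv i1 (M (sa s j)) f x * (qf C M s J χ i x * RP (qf C M s J χ) (Finset.Ioo i j) x) *
        (-(1 / (2 * C ^ 2)) * Cv i2 (M (sb s J j)) (χ j) x) ∂hm2 -
      ∫ x, Dv i2 (M (sb s J i)) (Dv i1 (M (sa s j)) f) x *
        ((-(1 / (2 * C ^ 2)) * Cv i2 (M (sb s J j)) (χ j) x) *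
          RP (qf C M s J χ) (Finset.Ioo i j) x) *
        (-(1 / (2 * C ^ 2)) * Cv i1 (M (sa s i)) (χ i) x) ∂hm2| ≤
      2 * E * (2 * s) ^ (1 / 4 : ℝ) := by
  obtain ⟨hs2, hsa, hsb⟩ := cro_basic H
  have hCpos : 0 < C := lt_of_lt_of_le one_pos H.hC
  have hE0 : 0 ≤ E := (abs_nonneg _).trans (H.fE 0)
  have hMa : Continuous (M (sa s j)) := H.ker.cont _ (hsa j).1 (hsa j).2
  have hMb : Continuous (M (sb s J j)) := H.ker.cont _ (hsb j).1 (hsb j).2
  have hMai : Continuous (M (sa s i)) := H.ker.cont _ (hsa i).1 (hsa i).2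
  have hMbi : Continuous (M (sb s J i)) := H.ker.cont _ (hsb i).1 (hsb i).2
  have hχ := H.cut j hj
  have hχi := H.cut i (by omega)
  have hS : ∀ k ∈ Finset.Ioo i j, k < J := by
    intro k hk
    have := (Finset.mem_Ioo.mp hk).2
    omega
  have hqc : ∀ k ∈ Finset.Ioo i j, Continuous (qf C M s J χ k) := fun k hk =>
    (hQ r C E M m ξ f J s χ H k (hS k hk)).1
  have hPc := cro_RP_cont hqc
  have hk1c : Continuous (fun x => -(1 / (2 * C ^ 2)) * Cv i2 (M (sb s J j)) (χ j) x) :=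
    continuous_const.mul (h1 i2 _ _ cro_i2 hMb hχ.cont).1
  have hk1b : ∀ x, |-(1 / (2 * C ^ 2)) * Cv i2 (M (sb s J j)) (χ j) x| ≤ 1 / (2 * C) := by
    intro x
    have h3 := (h2 i2 (M (sb s J j)) (χ j) 1 C cro_i2 hMb hχ.cont (fun y => by
      rw [abs_of_nonneg (hχ.nonneg y)]; exact hχ.le_one y) (H.ker.l1 _ (hsb j).1 (hsb j).2)).1 x
    rw [abs_mul, abs_neg, abs_of_pos (by positivity : 0 < 1 / (2 * C ^ 2))]
    calc 1 / (2 * C ^ 2) * |Cv i2 (M (sb s J j)) (χ j) x| ≤ 1 / (2 * C ^ 2) * (C * 1) :=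
          mul_le_mul_of_nonneg_left h3 (by positivity)
      _ = 1 / (2 * C) := by field_simp
  have hk1l : ∀ x t, |-(1 / (2 * C ^ 2)) * Cv i2 (M (sb s J j)) (χ j) (x + i2 t) -
      -(1 / (2 * C ^ 2)) * Cv i2 (M (sb s J j)) (χ j) x| ≤ 1 / (2 * C) * (‖t‖ / sb s J j) := by
    intro x t
    have h3 := h3' i2 (M (sb s J j)) (χ j) (i2 t) (‖t‖ / sb s J j) C cro_i2 hMb hχ.cont
      (fun y => hχ.lip2 y t) (H.ker.l1 _ (hsb j).1 (hsb j).2) x
    rw [← mul_sub, abs_mul, abs_neg, abs_of_pos (by positivity : 0 < 1 / (2 * C ^ 2))]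
    calc 1 / (2 * C ^ 2) * |Cv i2 (M (sb s J j)) (χ j) (x + i2 t) - Cv i2 (M (sb s J j)) (χ j) x| ≤
          1 / (2 * C ^ 2) * (C * (‖t‖ / sb s J j)) :=
          mul_le_mul_of_nonneg_left h3 (by positivity)
      _ = 1 / (2 * C) * (‖t‖ / sb s J j) := by field_simp
  have hk2c : Continuous (fun x => -(1 / (2 * C ^ 2)) * Cv i1 (M (sa s i)) (χ i) x) :=
    continuous_const.mul (h1 i1 _ _ cro_i1 hMai hχi.cont).1
  have hk2b : ∀ x, |-(1 / (2 * C ^ 2)) * Cv i1 (M (sa s i)) (χ i) x| ≤ 1 / (2 * C) := by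
    intro x
    have h3 := (h2 i1 (M (sa s i)) (χ i) 1 C cro_i1 hMai hχi.cont (fun y => by
      rw [abs_of_nonneg (hχi.nonneg y)]; exact hχi.le_one y) (H.ker.l1 _ (hsa i).1 (hsa i).2)).1 x
    rw [abs_mul, abs_neg, abs_of_pos (by positivity : 0 < 1 / (2 * C ^ 2))]
    calc 1 / (2 * C ^ 2) * |Cv i1 (M (sa s i)) (χ i) x| ≤ 1 / (2 * C ^ 2) * (C * 1) :=
          mul_le_mul_of_nonneg_left h3 (by positivity)
      _ = 1 / (2 * C) := by field_simp
  have hq : ∀ x, qf C M s J χ i x = Cv i2 (M (sb s J i))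
      (fun x => -(1 / (2 * C ^ 2)) * Cv i1 (M (sa s i)) (χ i) x) x := by
    intro x
    rw [cro_lin, ← (h5 i1 i2 (M (sa s i)) (M (sb s J i)) (χ i) cro_i1 cro_i2 hMai hMbi hχi.cont).1]
    rfl
  have hgc : Continuous (Dv i1 (M (sa s j)) f) := (h1 i1 _ _ cro_i1 hMa H.fc).2
  have hgb : ∀ x, |Dv i1 (M (sa s j)) f x| ≤ C * E :=
    (h2 i1 (M (sa s j)) f E C cro_i1 hMa H.fc H.fE (H.ker.l1 _ (hsa j).1 (hsa j).2)).2
  have hcom := hC i2 (M (sb s J i)) (Dv i1 (M (sa s j)) f)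
    (fun x => (-(1 / (2 * C ^ 2)) * Cv i2 (M (sb s J j)) (χ j) x) *
      RP (qf C M s J χ) (Finset.Ioo i j) x)
    (fun x => -(1 / (2 * C ^ 2)) * Cv i1 (M (sa s i)) (χ i) x) (C * E) (1 / (2 * C)) cro_i2 hMbi hgc
    (hk1c.mul hPc) hk2c hgb hk2b
  simp only [← hq] at hcom
  have hre : ∀ x, Dv i1 (M (sa s j)) f x * ((-(1 / (2 * C ^ 2)) * Cv i2 (M (sb s J j)) (χ j) x) *
      RP (qf C M s J χ) (Finset.Ioo i j) x) * qf C M s J χ i x =
      Dv i1 (M (sa s j)) f x * (qf C M s J χ i x * RP (qf C M s J χ) (Finset.Ioo i j) x) *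
        (-(1 / (2 * C ^ 2)) * Cv i2 (M (sb s J j)) (χ j) x) := by
    intro x; ring
  simp only [hre] at hcom
  refine hcom.trans ?_
  have hP2 : ∫ x, RP (qf C M s J χ) (Finset.Ioo i j) x ∂hm2 ≤ 2 := by
    have h3 := hI r C E M m ξ f J s χ H (i + 1) j hj.le
    have h4 : Finset.Ico (i + 1) j = Finset.Ioo i j := by
      ext k
      simp only [Finset.mem_Ico, Finset.mem_Ioo]
      omega
    rwa [h4] at h3
  have hσ : 0 < s ^ (J - 2 - i) / 2 := by
    have := H.s0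
    positivity
  have hinner : ∀ t, ∫ x, |(-(1 / (2 * C ^ 2)) * Cv i2 (M (sb s J j)) (χ j) (x + i2 t)) *
      RP (qf C M s J χ) (Finset.Ioo i j) (x + i2 t) -
      (-(1 / (2 * C ^ 2)) * Cv i2 (M (sb s J j)) (χ j) x) *
      RP (qf C M s J χ) (Finset.Ioo i j) x| ∂hm2 ≤
      4 / C * min 1 (‖t‖ / (s ^ (J - 2 - i) / 2)) := by
    intro t
    have h3 := hH i2 (qf C M s J χ) (fun k => sb s J k) (Finset.Ioo i j) (s ^ (J - 2 - i) / 2) hσ cro_i2
      (fun k _ => (hsb k).1) hqc (fun k hk => (hQ r C E M m ξ f J s χ H k (hS k hk)).2.1)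
      (fun k hk => (hQ r C E M m ξ f J s χ H k (hS k hk)).2.2.2) (cro_sum2 H.s0 hs2 J i j hj)
      (fun x => -(1 / (2 * C ^ 2)) * Cv i2 (M (sb s J j)) (χ j) x) (1 / (2 * C)) (sb s J j)
      (s ^ (J - 2 - i) / 2) hk1c hk1b
      (fun x t => hk1l x t) hσ (le_refl _) (by
        unfold sb
        have h4 : s ^ (J - 2 - i) ≤ s ^ (J - 1 - j) :=
          pow_le_pow_of_le_one H.s0.le (by linarith) (by omega)
        have h5 : 0 < s ^ (J - 2 - i) := pow_pos H.s0 _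
        linarith) t
    refine h3.trans ?_
    have h6 : 0 ≤ min 1 (‖t‖ / (s ^ (J - 2 - i) / 2)) := le_min zero_le_one (by positivity)
    have h7 := mul_le_mul_of_nonneg_left hP2
      (by positivity : 0 ≤ 4 * (1 / (2 * C)) * min 1 (‖t‖ / (s ^ (J - 2 - i) / 2)))
    refine h7.trans (le_of_eq ?_)
    field_simp
  have herr := cro_err hMbi (fun t => ∫ x, |(-(1 / (2 * C ^ 2)) *
      Cv i2 (M (sb s J j)) (χ j) (x + i2 t)) *
      RP (qf C M s J χ) (Finset.Ioo i j) (x + i2 t) -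
      (-(1 / (2 * C ^ 2)) * Cv i2 (M (sb s J j)) (χ j) x) *
      RP (qf C M s J χ) (Finset.Ioo i j) x| ∂hm2)
    (fun t => integral_nonneg fun x => abs_nonneg _) (by positivity : (0:ℝ) ≤ 4 / C) hinner
    (H.ker.wt _ (hsb i).1 (hsb i).2 _ hσ)
  have h8 : sb s J i / (s ^ (J - 2 - i) / 2) = 2 * s := by
    unfold sb
    have h10 : J - 1 - i = (J - 2 - i) + 1 := by omega
    have : s ^ (J - 2 - i) ≠ 0 := (pow_pos H.s0 _).ne'
    rw [h10, pow_succ]
    field_simp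
  rw [h8] at herr
  have h9 := mul_le_mul_of_nonneg_left herr (by positivity : 0 ≤ C * E * (1 / (2 * C)))
  refine h9.trans (le_of_eq ?_)
  field_simp
  ring

lemma cro_Nmeas {m : ℕ} (ξ : Fin m → G × G) (a b : ℝ) :
    MeasurableSet {x : G × G | ∃ μ, ‖(ξ μ).1 - x.1‖ < a ∧ ‖(ξ μ).2 - x.2‖ < b} := by
  have h : {x : G × G | ∃ μ, ‖(ξ μ).1 - x.1‖ < a ∧ ‖(ξ μ).2 - x.2‖ < b} =
      ⋃ μ, ({x : G × G | ‖(ξ μ).1 - x.1‖ < a} ∩ {x : G × G | ‖(ξ μ).2 - x.2‖ < b}) := by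
    ext x
    simp
  rw [h]
  refine MeasurableSet.iUnion fun μ => IsOpen.measurableSet ?_
  refine IsOpen.inter ?_ ?_
  · exact isOpen_lt (by fun_prop) continuous_const
  · exact isOpen_lt (by fun_prop) continuous_const

/-- step 3 -/
lemma cro_step3 (h1 : S_CV1) (h2 : S_CV2) (h5 : S_CV5) (hN : S_NM)
    (hQ : S_QF) (hI : S_INT)
    {r C E : ℝ} {M : ℝ → G → ℝ} {m : ℕ} {ξ : Fin m → G × G} {f : G × G → ℝ} {J : ℕ}
    {s : ℝ} {χ : ℕ → G × G → ℝ} (H : Setup r C E M m ξ f J s χ) {i j : ℕ} (hij : i < j) (hj : j < J) :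
    |∫ x, Dv i2 (M (sb s J i)) (Dv i1 (M (sa s j)) f) x *
        ((-(1 / (2 * C ^ 2)) * Cv i2 (M (sb s J j)) (χ j) x) *
          RP (qf C M s J χ) (Finset.Ioo i j) x) *
        (-(1 / (2 * C ^ 2)) * Cv i1 (M (sa s i)) (χ i) x) ∂hm2| ≤
      (s ^ (J + (j - i))) ^ r / 2 + E * (3 * s / 2) ^ (j - i) / 4 := by
  obtain ⟨hs2, hsa, hsb⟩ := cro_basic H
  have hCpos : 0 < C := lt_of_lt_of_le one_pos H.hC
  have hs0 := H.s0
  have hE0 : 0 ≤ E := (abs_nonneg _).trans (H.fE 0)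
  have hMa : Continuous (M (sa s j)) := H.ker.cont _ (hsa j).1 (hsa j).2
  have hMb : Continuous (M (sb s J j)) := H.ker.cont _ (hsb j).1 (hsb j).2
  have hMai : Continuous (M (sa s i)) := H.ker.cont _ (hsa i).1 (hsa i).2
  have hMbi : Continuous (M (sb s J i)) := H.ker.cont _ (hsb i).1 (hsb i).2
  have hχ := H.cut j hj
  have hχi := H.cut i (by omega)
  have hS : ∀ k ∈ Finset.Ioo i j, k < J := by
    intro k hk
    have := (Finset.mem_Ioo.mp hk).2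
    omega
  have hqc : ∀ k ∈ Finset.Ioo i j, Continuous (qf C M s J χ k) := fun k hk =>
    (hQ r C E M m ξ f J s χ H k (hS k hk)).1
  have hqb : ∀ k ∈ Finset.Ioo i j, ∀ x, |qf C M s J χ k x| ≤ 1 / 2 := fun k hk =>
    (hQ r C E M m ξ f J s χ H k (hS k hk)).2.1
  have hPc := cro_RP_cont hqc
  have hP2 : ∫ x, RP (qf C M s J χ) (Finset.Ioo i j) x ∂hm2 ≤ 2 := by
    have h3 := hI r C E M m ξ f J s χ H (i + 1) j hj.le
    have h4 : Finset.Ico (i + 1) j = Finset.Ioo i j := by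
      ext k
      simp only [Finset.mem_Ico, Finset.mem_Ioo]
      omega
    rwa [h4] at h3
  have hk1b : ∀ x, |-(1 / (2 * C ^ 2)) * Cv i2 (M (sb s J j)) (χ j) x| ≤ 1 / (2 * C) := by
    intro x
    have h3 := (h2 i2 (M (sb s J j)) (χ j) 1 C cro_i2 hMb hχ.cont (fun y => by
      rw [abs_of_nonneg (hχ.nonneg y)]; exact hχ.le_one y) (H.ker.l1 _ (hsb j).1 (hsb j).2)).1 x
    rw [abs_mul, abs_neg, abs_of_pos (by positivity : 0 < 1 / (2 * C ^ 2))]
    calc 1 / (2 * C ^ 2) * |Cv i2 (M (sb s J j)) (χ j) x| ≤ 1 / (2 * C ^ 2) * (C * 1) :=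
          mul_le_mul_of_nonneg_left h3 (by positivity)
      _ = 1 / (2 * C) := by field_simp
  have hk2b : ∀ x, |-(1 / (2 * C ^ 2)) * Cv i1 (M (sa s i)) (χ i) x| ≤ 1 / (2 * C) := by
    intro x
    have h3 := (h2 i1 (M (sa s i)) (χ i) 1 C cro_i1 hMai hχi.cont (fun y => by
      rw [abs_of_nonneg (hχi.nonneg y)]; exact hχi.le_one y) (H.ker.l1 _ (hsa i).1 (hsa i).2)).1 x
    rw [abs_mul, abs_neg, abs_of_pos (by positivity : 0 < 1 / (2 * C ^ 2))]
    calc 1 / (2 * C ^ 2) * |Cv i1 (M (sa s i)) (χ i) x| ≤ 1 / (2 * C ^ 2) * (C * 1) :=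
          mul_le_mul_of_nonneg_left h3 (by positivity)
      _ = 1 / (2 * C) := by field_simp
  have hgc : Continuous (Dv i1 (M (sa s j)) f) := (h1 i1 _ _ cro_i1 hMa H.fc).2
  have hgb : ∀ x, |Dv i1 (M (sa s j)) f x| ≤ C * E :=
    (h2 i1 (M (sa s j)) f E C cro_i1 hMa H.fc H.fE (H.ker.l1 _ (hsa j).1 (hsa j).2)).2
  have hDb : ∀ x, |Dv i2 (M (sb s J i)) (Dv i1 (M (sa s j)) f) x| ≤ C * (C * E) :=
    (h2 i2 (M (sb s J i)) _ (C * E) C cro_i2 hMbi hgc hgb (H.ker.l1 _ (hsb i).1 (hsb i).2)).2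
  have hDcomm : Dv i2 (M (sb s J i)) (Dv i1 (M (sa s j)) f) =
      Dv i1 (M (sa s j)) (Dv i2 (M (sb s J i)) f) :=
    (h5 i2 i1 (M (sb s J i)) (M (sa s j)) f cro_i2 cro_i1 hMbi hMa H.fc).2
  set N : Set (G × G) := {x : G × G | ∃ μ, ‖(ξ μ).1 - x.1‖ < sa s j ∧ ‖(ξ μ).2 - x.2‖ < sb s J i}
    with hNdef
  have hNm : MeasurableSet N := cro_Nmeas ξ _ _
  have hoff : ∀ x, x ∉ N → Dv i2 (M (sb s J i)) (Dv i1 (M (sa s j)) f) x =
      -((sa s j) ^ r * (sb s J i) ^ r) := by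
    intro x hx
    rw [hDcomm]
    refine H.star (sa s j) (sb s J i) (hsa j).1 (hsa j).2 (hsb i).1 (hsb i).2 x fun μ => ?_
    by_contra hcon
    push Not at hcon
    exact hx ⟨μ, hcon.1, hcon.2⟩
  have hab : sa s j * sb s J i = s ^ (J + (j - i)) := by
    unfold sa sb
    rw [← pow_add]
    congr 1
    omega
  have hab' : (sa s j) ^ r * (sb s J i) ^ r = (s ^ (J + (j - i))) ^ r := by
    rw [← Real.mul_rpow (hsa j).1.le (hsb i).1.le, hab]
  set V : ℝ := (s ^ (J + (j - i))) ^ r with hV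
  have hV0 : 0 ≤ V := by positivity
  have hpt : ∀ x, |Dv i2 (M (sb s J i)) (Dv i1 (M (sa s j)) f) x *
        ((-(1 / (2 * C ^ 2)) * Cv i2 (M (sb s J j)) (χ j) x) *
          RP (qf C M s J χ) (Finset.Ioo i j) x) *
        (-(1 / (2 * C ^ 2)) * Cv i1 (M (sa s i)) (χ i) x)| ≤
      V / (4 * C ^ 2) * RP (qf C M s J χ) (Finset.Ioo i j) x +
        E / 4 * (3 / 2) ^ (j - i) * N.indicator (fun _ => (1:ℝ)) x := by
    intro x
    have hP0 := cro_RP_nonneg hqb x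
    have hP1 := cro_RP_le hqb x
    set P := RP (qf C M s J χ) (Finset.Ioo i j) x
    have e1 := hk1b x
    have e2 := hk2b x
    rw [abs_mul, abs_mul, abs_mul, abs_of_nonneg hP0]
    set K1 := |-(1 / (2 * C ^ 2)) * Cv i2 (M (sb s J j)) (χ j) x|
    set K2 := |-(1 / (2 * C ^ 2)) * Cv i1 (M (sa s i)) (χ i) x|
    have hK10 : 0 ≤ K1 := abs_nonneg _
    have hK20 : 0 ≤ K2 := abs_nonneg _
    have hKK : K1 * K2 ≤ 1 / (4 * C ^ 2) := by
      calc K1 * K2 ≤ 1 / (2 * C) * (1 / (2 * C)) := mul_le_mul e1 e2 hK20 (by positivity)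
        _ = 1 / (4 * C ^ 2) := by field_simp; norm_num
    by_cases hx : x ∈ N
    · rw [Set.indicator_of_mem hx, mul_one]
      have e3 := hDb x
      calc |Dv i2 (M (sb s J i)) (Dv i1 (M (sa s j)) f) x| * (K1 * P) * K2
          = |Dv i2 (M (sb s J i)) (Dv i1 (M (sa s j)) f) x| * P * (K1 * K2) := by ring
        _ ≤ (C * (C * E)) * (3 / 2) ^ (j - i) * (1 / (4 * C ^ 2)) := by
            refine mul_le_mul (mul_le_mul e3 hP1 hP0 (by positivity)) hKK (by positivity)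
              (by positivity)
        _ = E / 4 * (3 / 2) ^ (j - i) := by field_simp
        _ ≤ V / (4 * C ^ 2) * P + E / 4 * (3 / 2) ^ (j - i) := by
            have : 0 ≤ V / (4 * C ^ 2) * P := by positivity
            linarith
    · rw [Set.indicator_of_notMem hx, mul_zero, add_zero, hoff x hx, hab', abs_neg,
        abs_of_nonneg hV0]
      calc V * (K1 * P) * K2 = V * P * (K1 * K2) := by ring
        _ ≤ V * P * (1 / (4 * C ^ 2)) := mul_le_mul_of_nonneg_left hKK (by positivity)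
        _ = _ := by ring
  have hint1 : Integrable (fun x => V / (4 * C ^ 2) * RP (qf C M s J χ) (Finset.Ioo i j) x) hm2 :=
    (cro_int hPc).const_mul _
  have hint2 : Integrable (fun x => E / 4 * (3 / 2) ^ (j - i) *
      N.indicator (fun _ => (1:ℝ)) x) hm2 :=
    ((integrable_const (1:ℝ)).indicator hNm).const_mul _
  have hint3 : Integrable (fun x => V / (4 * C ^ 2) * RP (qf C M s J χ) (Finset.Ioo i j) x +
      E / 4 * (3 / 2) ^ (j - i) * N.indicator (fun _ => (1:ℝ)) x) hm2 := hint1.add hint2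
  have hfin := norm_integral_le_of_norm_le hint3 (Filter.Eventually.of_forall fun x => by
    rw [Real.norm_eq_abs]
    exact hpt x)
  rw [Real.norm_eq_abs] at hfin
  refine hfin.trans ?_
  rw [integral_add hint1 hint2, integral_const_mul, integral_const_mul,
    integral_indicator_const _ hNm]
  have hNle := hN m ξ (sa s j) (sb s J i) (hsa j).1 (hsb i).1
  rw [← hNdef] at hNle
  have hNle2 : hm2.real N ≤ s ^ (j - i) := by
    refine hNle.trans ?_
    rw [mul_assoc, hab, pow_add, ← mul_assoc]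
    exact mul_le_of_le_one_left (by positivity) H.ms
  have f1 : V / (4 * C ^ 2) * ∫ x, RP (qf C M s J χ) (Finset.Ioo i j) x ∂hm2 ≤ V / 2 := by
    calc V / (4 * C ^ 2) * ∫ x, RP (qf C M s J χ) (Finset.Ioo i j) x ∂hm2 ≤
          V / (4 * C ^ 2) * 2 := mul_le_mul_of_nonneg_left hP2 (by positivity)
      _ ≤ V / 4 * 2 := by
          have : V / (4 * C ^ 2) ≤ V / 4 := by
            refine div_le_div_of_nonneg_left hV0 (by norm_num) ?_
            nlinarith [H.hC]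
          linarith
      _ = V / 2 := by ring
  have f2 : E / 4 * (3 / 2) ^ (j - i) * (hm2.real N • (1:ℝ)) ≤ E * (3 * s / 2) ^ (j - i) / 4 := by
    rw [smul_eq_mul, mul_one]
    calc E / 4 * (3 / 2) ^ (j - i) * hm2.real N ≤ E / 4 * (3 / 2) ^ (j - i) * s ^ (j - i) :=
          mul_le_mul_of_nonneg_left hNle2 (by positivity)
      _ = E * (3 * s / 2) ^ (j - i) / 4 := by
          rw [show 3 * s / 2 = 3 / 2 * s by ring, mul_pow]
          ring
  exact add_le_add f1 f2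

theorem t_CRO (h1 : S_CV1) (h2 : S_CV2) (h3 : S_CV3) (h5 : S_CV5) (hC : S_COM) (hH : S_HAR)
    (hN : S_NM) (hQ : S_QF) (hI : S_INT) : S_CRO := by
  intro r C E M m ξ f J s χ H i j hij hj
  have hs0 := H.s0
  have hE0 : 0 ≤ E := (abs_nonneg _).trans (H.fE 0)
  have a1 := cro_step1 h1 h2 hC hH hQ hI H hij hj
  have a2 := cro_step2 h1 h2 h3 h5 hC hH hQ hI H hij hj
  have a3 := cro_step3 h1 h2 h5 hN hQ hI H hij hj
  have e0 : ∫ x, f x * (qf C M s J χ i x * RP (qf C M s J χ) (Finset.Ioo i j) x *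
      qf C M s J χ j x) ∂hm2 =
      ∫ x, f x * (qf C M s J χ i x * RP (qf C M s J χ) (Finset.Ioo i j) x) *
        qf C M s J χ j x ∂hm2 := by
    refine integral_congr_ae (Filter.Eventually.of_forall fun x => ?_)
    show f x * (qf C M s J χ i x * RP (qf C M s J χ) (Finset.Ioo i j) x * qf C M s J χ j x) =
      f x * (qf C M s J χ i x * RP (qf C M s J χ) (Finset.Ioo i j) x) * qf C M s J χ j x
    ring
  rw [e0]
  set I1 := ∫ x, f x * (qf C M s J χ i x * RP (qf C M s J χ) (Finset.Ioo i j) x) *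
        qf C M s J χ j x ∂hm2
  set I2 := ∫ x, Dv i1 (M (sa s j)) f x *
        (qf C M s J χ i x * RP (qf C M s J χ) (Finset.Ioo i j) x) *
        (-(1 / (2 * C ^ 2)) * Cv i2 (M (sb s J j)) (χ j) x) ∂hm2
  set I3 := ∫ x, Dv i2 (M (sb s J i)) (Dv i1 (M (sa s j)) f) x *
        ((-(1 / (2 * C ^ 2)) * Cv i2 (M (sb s J j)) (χ j) x) *
          RP (qf C M s J χ) (Finset.Ioo i j) x) *
        (-(1 / (2 * C ^ 2)) * Cv i1 (M (sa s i)) (χ i) x) ∂hm2
  have e1 : |I1| ≤ |I1 - I2| + |I2 - I3| + |I3| := by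
    have b1 := abs_add_le (I1 - I2 + (I2 - I3)) I3
    have b2 := abs_add_le (I1 - I2) (I2 - I3)
    have b3 : I1 - I2 + (I2 - I3) + I3 = I1 := by ring
    rw [b3] at b1
    linarith
  have e2 : (2:ℝ) ^ (1 / 4 : ℝ) ≤ 5 / 4 := by
    have g1 : (2:ℝ) ^ (1 / 4 : ℝ) ≤ ((5 / 4 : ℝ) ^ 4) ^ (1 / 4 : ℝ) :=
      Real.rpow_le_rpow (by norm_num) (by norm_num) (by norm_num)
    have g2 : ((5 / 4 : ℝ) ^ 4) ^ (1 / 4 : ℝ) = 5 / 4 := by
      rw [← Real.rpow_natCast, ← Real.rpow_mul (by norm_num)]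
      norm_num
    rwa [g2] at g1
  have e3 : (2 * s) ^ (1 / 4 : ℝ) ≤ 5 / 4 * s ^ (1 / 4 : ℝ) := by
    rw [Real.mul_rpow (by norm_num) hs0.le]
    exact mul_le_mul_of_nonneg_right e2 (by positivity)
  have e4 : 2 * E * (2 * s) ^ (1 / 4 : ℝ) ≤ 2 * E * (5 / 4 * s ^ (1 / 4 : ℝ)) :=
    mul_le_mul_of_nonneg_left e3 (by positivity)
  linarith

end

end Pool.Agent.H729R2.CB
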