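import Mathlib
import Pool.Agent.H729R2.CB.Stubs

set_option autoImplicit false

namespace Pool.Agent.H729R2.CB

open MeasureTheory

noncomputable section

namespace CUT

/-- clipping -/
def clip (u : ℝ) : ℝ := max 0 (min 1 (2 - u))

theorem clip_lip (u v : ℝ) : |clip u - clip v| ≤ |u - v| := by
  unfold clip
  calc |max 0 (min 1 (2 - u)) - max 0 (min 1 (2 - v))|
      ≤ max |(0 : ℝ) - 0| |min 1 (2 - u) - min 1 (2 - v)| := abs_max_sub_max_le_max _ _ _ _
    _ ≤ |min 1 (2 - u) - min 1 (2 - v)| := by simp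
    _ ≤ max |(1 : ℝ) - 1| |(2 - u) - (2 - v)| := abs_min_sub_min_le_max _ _ _ _
    _ ≤ |u - v| := by
        have : (2 - u) - (2 - v) = -(u - v) := by ring
        rw [this, abs_neg]
        simp

theorem clip_nonneg (u : ℝ) : 0 ≤ clip u := le_max_left _ _

theorem clip_le_one (u : ℝ) : clip u ≤ 1 := max_le zero_le_one (min_le_left _ _)

theorem clip_one {u : ℝ} (h : u ≤ 1) : clip u = 1 := by
  unfold clip
  rw [min_eq_left (by linarith), max_eq_right zero_le_one]

theorem clip_zero {u : ℝ} (h : 2 ≤ u) : clip u = 0 := by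
  unfold clip
  apply max_eq_left
  exact (min_le_right _ _).trans (by linarith)

/-- the bump around the point `ζ` -/
def bump (ζ : G × G) (a b : ℝ) (x : G × G) : ℝ := clip (max (‖ζ.1 - x.1‖ / a) (‖ζ.2 - x.2‖ / b))

theorem bump_cont (ζ : G × G) (a b : ℝ) : Continuous (bump ζ a b) := by
  unfold bump clip
  fun_prop

theorem bump_nonneg (ζ : G × G) (a b : ℝ) (x : G × G) : 0 ≤ bump ζ a b x := clip_nonneg _

theorem bump_le_one (ζ : G × G) (a b : ℝ) (x : G × G) : bump ζ a b x ≤ 1 := clip_le_one _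

theorem norm_sub_add (α t : G) : |‖α - t‖ - ‖α‖| ≤ ‖t‖ := by
  have h := abs_norm_sub_norm_le (α - t) α
  have h2 : α - t - α = -t := by abel
  rwa [h2, norm_neg] at h

theorem quot_lip (α t : G) {a : ℝ} (ha : 0 < a) : |‖α - t‖ / a - ‖α‖ / a| ≤ ‖t‖ / a := by
  rw [← sub_div, abs_div, abs_of_pos ha]
  exact div_le_div_of_nonneg_right (norm_sub_add α t) ha.le

theorem bump_lip1 (ζ : G × G) {a : ℝ} (b : ℝ) (ha : 0 < a) (x : G × G) (t : G) :
    |bump ζ a b (x + i1 t) - bump ζ a b x| ≤ ‖t‖ / a := by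
  refine (clip_lip _ _).trans ((abs_max_sub_max_le_max _ _ _ _).trans ?_)
  apply max_le
  · have h1 : ζ.1 - (x + i1 t).1 = (ζ.1 - x.1) - t := by
      simp only [i1, Prod.fst_add]; abel
    rw [h1]
    exact quot_lip _ _ ha
  · have h1 : (x + i1 t).2 = x.2 := by simp [i1]
    rw [h1, sub_self, abs_zero]
    positivity

theorem bump_lip2 (ζ : G × G) (a : ℝ) {b : ℝ} (hb : 0 < b) (x : G × G) (t : G) :
    |bump ζ a b (x + i2 t) - bump ζ a b x| ≤ ‖t‖ / b := by
  refine (clip_lip _ _).trans ((abs_max_sub_max_le_max _ _ _ _).trans ?_)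
  apply max_le
  · have h1 : (x + i2 t).1 = x.1 := by simp [i2]
    rw [h1, sub_self, abs_zero]
    positivity
  · have h1 : ζ.2 - (x + i2 t).2 = (ζ.2 - x.2) - t := by
      simp only [i2, Prod.snd_add]; abel
    rw [h1]
    exact quot_lip _ _ hb

theorem hm_ball (x : G) (ε : ℝ) :
    hm (Metric.closedBall x ε) ≤ ENNReal.ofReal (ε / Real.pi) := by
  have hpi := Real.pi_pos
  have h1 := AddCircle.volume_closedBall (2 * Real.pi) (x := x) ε
  have h2 := AddCircle.volume_eq_smul_haarAddCircle (T := 2 * Real.pi)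
  rw [h2, Measure.smul_apply, smul_eq_mul] at h1
  have h3 : hm (Metric.closedBall x ε) =
      ENNReal.ofReal (2 * Real.pi)⁻¹ * (ENNReal.ofReal (2 * Real.pi) * hm (Metric.closedBall x ε)) := by
    rw [← mul_assoc, ← ENNReal.ofReal_mul (by positivity), inv_mul_cancel₀ (by positivity)]
    simp
  rw [h3, h1, ← ENNReal.ofReal_mul (by positivity)]
  apply ENNReal.ofReal_le_ofReal
  calc (2 * Real.pi)⁻¹ * min (2 * Real.pi) (2 * ε) ≤ (2 * Real.pi)⁻¹ * (2 * ε) := by
        gcongr
        exact min_le_right _ _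
    _ = ε / Real.pi := by field_simp

theorem bump_integrable (ζ : G × G) (a b : ℝ) : Integrable (bump ζ a b) hm2 := by
  apply Integrable.of_bound (bump_cont ζ a b).aestronglyMeasurable 1
  filter_upwards with x
  rw [Real.norm_eq_abs, abs_of_nonneg (bump_nonneg ζ a b x)]
  exact bump_le_one _ _ _ _

theorem bump_int (ζ : G × G) {a b : ℝ} (ha : 0 < a) (hb : 0 < b) :
    ∫ x, bump ζ a b x ∂hm2 ≤ a * b / 2 := by
  have hpi := Real.pi_pos
  set A := Metric.closedBall ζ.1 (2 * a) with hA
  set B := Metric.closedBall ζ.2 (2 * b) with hB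
  have hm1 : MeasurableSet (A ×ˢ B) :=
    Metric.isClosed_closedBall.measurableSet.prod Metric.isClosed_closedBall.measurableSet
  have h1 : ∀ x, bump ζ a b x ≤ (A ×ˢ B).indicator (fun _ => (1 : ℝ)) x := by
    intro x
    by_cases hx : x ∈ A ×ˢ B
    · rw [Set.indicator_of_mem hx]; exact clip_le_one _
    · rw [Set.indicator_of_notMem hx]
      apply le_of_eq
      apply clip_zero
      rw [Set.mem_prod, not_and_or] at hx
      rcases hx with hx | hx
      · apply le_max_of_le_left
        rw [le_div_iff₀ ha]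
        rw [hA, Metric.mem_closedBall, dist_comm, dist_eq_norm, not_le] at hx
        exact hx.le
      · apply le_max_of_le_right
        rw [le_div_iff₀ hb]
        rw [hB, Metric.mem_closedBall, dist_comm, dist_eq_norm, not_le] at hx
        exact hx.le
  have h2 : ∫ x, bump ζ a b x ∂hm2 ≤ ∫ x, (A ×ˢ B).indicator (fun _ => (1 : ℝ)) x ∂hm2 := by
    apply integral_mono (bump_integrable ζ a b) _ h1
    exact (integrable_const (1 : ℝ)).indicator hm1
  refine h2.trans ?_
  rw [integral_indicator hm1, setIntegral_const, smul_eq_mul, mul_one]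
  have h3 : hm2 (A ×ˢ B) ≤ ENNReal.ofReal (2 * a / Real.pi * (2 * b / Real.pi)) := by
    rw [Measure.prod_prod, ENNReal.ofReal_mul (by positivity)]
    exact mul_le_mul' (hm_ball _ _) (hm_ball _ _)
  have h4 : (hm2).real (A ×ˢ B) ≤ 2 * a / Real.pi * (2 * b / Real.pi) := by
    rw [Measure.real]
    exact ENNReal.toReal_le_of_le_ofReal (by positivity) h3
  refine h4.trans ?_
  have h5 : 2 * a / Real.pi * (2 * b / Real.pi) = (a * b) * (4 / Real.pi ^ 2) := by
    field_simp
    ring
  rw [h5]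
  have h6 : 4 / Real.pi ^ 2 ≤ 1 / 2 := by
    rw [div_le_div_iff₀ (by positivity) (by norm_num)]
    nlinarith [Real.pi_gt_three]
  calc a * b * (4 / Real.pi ^ 2) ≤ a * b * (1 / 2) := by gcongr
    _ = a * b / 2 := by ring

/-- the cut off function for a finite set of nodes -/
theorem exists_cut {m : ℕ} (ξ : Fin m → G × G) {a b : ℝ} (ha : 0 < a) (hb : 0 < b)
    (S : Finset (Fin m)) : ∃ χ : G × G → ℝ, Continuous χ ∧ (∀ x, 0 ≤ χ x) ∧ (∀ x, χ x ≤ 1) ∧
      (∀ x t, |χ (x + i1 t) - χ x| ≤ ‖t‖ / a) ∧ (∀ x t, |χ (x + i2 t) - χ x| ≤ ‖t‖ / b) ∧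
      (∀ x, (∃ μ ∈ S, ‖(ξ μ).1 - x.1‖ < a ∧ ‖(ξ μ).2 - x.2‖ < b) → χ x = 0) ∧
      1 - (S.card : ℝ) * a * b / 2 ≤ ∫ x, χ x ∂hm2 := by
  classical
  induction S using Finset.induction_on with
  | empty =>
    refine ⟨fun _ => 1, continuous_const, fun _ => zero_le_one, fun _ => le_rfl, ?_, ?_, ?_, ?_⟩
    · intro x t; simp only [sub_self, abs_zero]; positivity
    · intro x t; simp only [sub_self, abs_zero]; positivity
    · rintro x ⟨μ, hμ, -⟩
      simp at hμ
    · simp
  | insert μ S hμ ih =>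
    obtain ⟨χ, hc, h0, h1, hl1, hl2, hz, hi⟩ := ih
    refine ⟨fun x => min (χ x) (1 - bump (ξ μ) a b x), ?_, ?_, ?_, ?_, ?_, ?_, ?_⟩
    · exact hc.min (continuous_const.sub (bump_cont _ _ _))
    · intro x
      exact le_min (h0 x) (sub_nonneg.mpr (bump_le_one _ _ _ _))
    · intro x
      exact (min_le_left _ _).trans (h1 x)
    · intro x t
      refine (abs_min_sub_min_le_max _ _ _ _).trans (max_le (hl1 x t) ?_)
      have e : 1 - bump (ξ μ) a b (x + i1 t) - (1 - bump (ξ μ) a b x) =
          -(bump (ξ μ) a b (x + i1 t) - bump (ξ μ) a b x) := by ring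
      rw [e, abs_neg]
      exact bump_lip1 _ _ ha x t
    · intro x t
      refine (abs_min_sub_min_le_max _ _ _ _).trans (max_le (hl2 x t) ?_)
      have e : 1 - bump (ξ μ) a b (x + i2 t) - (1 - bump (ξ μ) a b x) =
          -(bump (ξ μ) a b (x + i2 t) - bump (ξ μ) a b x) := by ring
      rw [e, abs_neg]
      exact bump_lip2 _ _ hb x t
    · rintro x ⟨ν, hν, hν1, hν2⟩
      have hge : 0 ≤ 1 - bump (ξ μ) a b x := sub_nonneg.mpr (bump_le_one _ _ _ _)
      rcases Finset.mem_insert.mp hν with rfl | hν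
      · have e : bump (ξ ν) a b x = 1 := by
          apply clip_one
          apply max_le
          · rw [div_le_one ha]; exact hν1.le
          · rw [div_le_one hb]; exact hν2.le
        show min (χ x) (1 - bump (ξ ν) a b x) = 0
        rw [e, sub_self]
        exact min_eq_right (h0 x)
      · show min (χ x) (1 - bump (ξ μ) a b x) = 0
        rw [hz x ⟨ν, hν, hν1, hν2⟩]
        exact min_eq_left hge
    · have hχi : Integrable χ hm2 := by
        apply Integrable.of_bound hc.aestronglyMeasurable 1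
        filter_upwards with x
        rw [Real.norm_eq_abs, abs_of_nonneg (h0 x)]
        exact h1 x
      have hbi := bump_integrable (ξ μ) a b
      have hmi : Integrable (fun x => min (χ x) (1 - bump (ξ μ) a b x)) hm2 := by
        apply Integrable.of_bound
          (hc.min (continuous_const.sub (bump_cont _ _ _))).aestronglyMeasurable 1
        filter_upwards with x
        have e1 : 0 ≤ 1 - bump (ξ μ) a b x := sub_nonneg.mpr (bump_le_one _ _ _ _)
        show |min (χ x) (1 - bump (ξ μ) a b x)| ≤ 1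
        rw [abs_of_nonneg (le_min (h0 x) e1)]
        exact (min_le_left _ _).trans (h1 x)
      have h3 : ∫ x, (χ x - bump (ξ μ) a b x) ∂hm2 ≤
          ∫ x, min (χ x) (1 - bump (ξ μ) a b x) ∂hm2 := by
        apply integral_mono (hχi.sub hbi) hmi
        intro x
        have e0 := bump_nonneg (ξ μ) a b x
        have e1 := h1 x
        apply le_min
        · show χ x - bump (ξ μ) a b x ≤ χ x
          linarith
        · show χ x - bump (ξ μ) a b x ≤ 1 - bump (ξ μ) a b x
          linarith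
      rw [integral_sub hχi hbi] at h3
      have h4 := bump_int (ξ μ) ha hb
      rw [Finset.card_insert_of_notMem hμ]
      push_cast
      have e : 1 - ((S.card : ℝ) + 1) * a * b / 2 = (1 - (S.card : ℝ) * a * b / 2) - a * b / 2 := by
        ring
      rw [e]
      linarith

end CUT

theorem t_CUT : S_CUT := by
  intro m ξ a b ha _ hb _
  obtain ⟨χ, hc, h0, h1, hl1, hl2, hz, hi⟩ := CUT.exists_cut ξ ha hb Finset.univ
  refine ⟨χ, hc, h0, h1, hl1, hl2, ?_, ?_⟩
  · rintro x ⟨μ, hμ⟩
    exact hz x ⟨μ, Finset.mem_univ μ, hμ⟩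
  · simpa using hi

end

end Pool.Agent.H729R2.CB
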