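import Mathlib
import Pool.Agent.H729R2.CB.Stubs

set_option autoImplicit false

namespace Pool.Agent.H729R2.CB

open MeasureTheory

theorem cva_int {h : G → ℝ} (hh : Continuous h) : Integrable h hm :=
  hh.integrable_of_hasCompactSupport (HasCompactSupport.of_compactSpace h)

theorem cva_cont {f : G × G → G → ℝ} (hf : Continuous f.uncurry) :
    Continuous (fun x => ∫ t, f x t ∂hm) := by
  have h := continuous_parametric_integral_of_continuous (μ := hm) hf isCompact_univ
  simpa using h

theorem cva_bd {M k : G → ℝ} {w C : ℝ} (hM : Continuous M) (hk : Continuous k)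
    (hw : ∀ t, |k t| ≤ w) (hC : ∫ t, |M t| ∂hm ≤ C) : |∫ t, M t * k t ∂hm| ≤ C * w := by
  have hw0 : 0 ≤ w := (abs_nonneg _).trans (hw 0)
  have h1 : |∫ t, M t * k t ∂hm| ≤ ∫ t, |M t * k t| ∂hm := by
    have := norm_integral_le_integral_norm (μ := hm) (fun t => M t * k t)
    simpa only [Real.norm_eq_abs] using this
  have h2 : ∫ t, |M t * k t| ∂hm ≤ ∫ t, |M t| * w ∂hm := by
    refine integral_mono (cva_int (hM.mul hk).abs) (cva_int (hM.abs.mul continuous_const)) ?_
    intro t
    simp only
    rw [abs_mul]
    exact mul_le_mul_of_nonneg_left (hw t) (abs_nonneg _)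
  rw [integral_mul_const] at h2
  exact h1.trans (h2.trans (mul_le_mul_of_nonneg_right hC hw0))

theorem t_CV1 : S_CV1 := by
  intro ι M g hι hM hg
  constructor
  · refine cva_cont (f := fun x t => M t * g (x - ι t)) ?_
    unfold Function.uncurry
    fun_prop
  · refine cva_cont (f := fun x t => M t * g (x + ι t)) ?_
    unfold Function.uncurry
    fun_prop

theorem t_CV2 : S_CV2 := by
  intro ι M g B C hι hM hg hB hC
  constructor
  · intro x
    exact cva_bd hM (hg.comp (continuous_const.sub hι)) (fun t => hB _) hC
  · intro x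
    exact cva_bd hM (hg.comp (continuous_const.add hι)) (fun t => hB _) hC

theorem t_CV3 : S_CV3 := by
  intro ι M g e w C hι hM hg hw hC x
  have h1 : Continuous fun t => g (x - ι t) := hg.comp (continuous_const.sub hι)
  have h2 : Continuous fun t => g (x + e - ι t) := hg.comp (continuous_const.sub hι)
  have h3 : Cv ι M g (x + e) - Cv ι M g x = ∫ t, M t * (g (x - ι t + e) - g (x - ι t)) ∂hm := by
    unfold Cv
    rw [← integral_sub (cva_int (h := fun t => M t * g (x + e - ι t)) (hM.mul h2))
      (cva_int (h := fun t => M t * g (x - ι t)) (hM.mul h1))]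
    refine integral_congr_ae (Filter.Eventually.of_forall fun t => ?_)
    simp only
    rw [show x - ι t + e = x + e - ι t by abel, mul_sub]
  rw [h3]
  have h4 : Continuous fun t => g (x - ι t + e) - g (x - ι t) := by
    have : (fun t => g (x - ι t + e)) = fun t => g (x + e - ι t) := by
      funext t
      rw [show x - ι t + e = x + e - ι t by abel]
    have h5 : Continuous fun t => g (x - ι t + e) := by rw [this]; exact h2
    exact h5.sub h1
  exact cva_bd hM h4 (fun t => hw _) hC

end Pool.Agent.H729R2.CB
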