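import Mathlib
import Pool.Agent.H729R2.CB.Stubs

set_option autoImplicit false

namespace Pool.Agent.H729R2.CB

open MeasureTheory

noncomputable section

theorem cvb_swap (F : (G × G) → G → ℝ) (hF : Continuous (fun q : (G × G) × G => F q.1 q.2)) :
    ∫ x, ∫ t, F x t ∂hm ∂hm2 = ∫ t, ∫ x, F x t ∂hm2 ∂hm := by
  apply integral_integral_swap
  exact Continuous.integrable_of_hasCompactSupport hF (HasCompactSupport.of_compactSpace _)

theorem cvb_swap' (F : G → G → ℝ) (hF : Continuous (fun q : G × G => F q.1 q.2)) :
    ∫ x, ∫ t, F x t ∂hm ∂hm = ∫ t, ∫ x, F x t ∂hm ∂hm := by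
  apply integral_integral_swap
  exact Continuous.integrable_of_hasCompactSupport hF (HasCompactSupport.of_compactSpace _)

theorem t_CV4 : S_CV4 := by
  intro ι M g k hι hM hg hk
  have h1 : ∀ x, g x * Cv ι M k x = ∫ t, g x * (M t * k (x - ι t)) ∂hm := by
    intro x
    unfold Cv
    rw [integral_const_mul]
  have h2 : ∀ x, Dv ι M g x * k x = ∫ t, M t * g (x + ι t) * k x ∂hm := by
    intro x
    unfold Dv
    rw [integral_mul_const]
  simp_rw [h1, h2]
  rw [cvb_swap _ (by fun_prop), cvb_swap _ (by fun_prop)]
  refine integral_congr_ae (Filter.Eventually.of_forall fun t => ?_)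
  show ∫ x, g x * (M t * k (x - ι t)) ∂hm2 = ∫ x, M t * g (x + ι t) * k x ∂hm2
  rw [← integral_add_right_eq_self (μ := hm2) (fun x => g x * (M t * k (x - ι t))) (ι t)]
  refine integral_congr_ae (Filter.Eventually.of_forall fun x => ?_)
  show g (x + ι t) * (M t * k (x + ι t - ι t)) = _
  rw [add_sub_cancel_right]
  ring

theorem t_CV5 : S_CV5 := by
  intro ι κ M M' g hι hκ hM hM' hg
  constructor
  · funext x
    unfold Cv
    simp_rw [← integral_const_mul]
    rw [cvb_swap' _ (by fun_prop)]
    refine integral_congr_ae (Filter.Eventually.of_forall fun t => ?_)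
    refine integral_congr_ae (Filter.Eventually.of_forall fun s => ?_)
    show M s * (M' t * g (x - ι s - κ t)) = M' t * (M s * g (x - κ t - ι s))
    rw [sub_right_comm]; ring
  · funext x
    unfold Dv
    simp_rw [← integral_const_mul]
    rw [cvb_swap' _ (by fun_prop)]
    refine integral_congr_ae (Filter.Eventually.of_forall fun t => ?_)
    refine integral_congr_ae (Filter.Eventually.of_forall fun s => ?_)
    show M s * (M' t * g (x + ι s + κ t)) = M' t * (M s * g (x + κ t + ι s))
    rw [add_right_comm]; ring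

end

end Pool.Agent.H729R2.CB
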