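import Mathlib
import Pool.Agent.H729R2.CB.Stubs

/-!
# Expansion of the product (helper640)
-/

namespace Pool.Agent.H729R2.CB

open MeasureTheory

theorem exp_one (q : ℕ → ℝ) (J : ℕ) : ∏ k ∈ Finset.range J, (1 + q k)
    = 1 + ∑ i ∈ Finset.range J, q i * ∏ k ∈ Finset.Ioo i J, (1 + q k) := by
  induction J with
  | zero => simp
  | succ J ih =>
    rw [Finset.prod_range_succ, Finset.sum_range_succ]
    have h1 : Finset.Ioo J (J + 1) = ∅ := by
      ext k
      simp only [Finset.mem_Ioo, Finset.notMem_empty, iff_false]
      omega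
    have h2 : ∑ i ∈ Finset.range J, q i * ∏ k ∈ Finset.Ioo i (J + 1), (1 + q k) =
        (∑ i ∈ Finset.range J, q i * ∏ k ∈ Finset.Ioo i J, (1 + q k)) * (1 + q J) := by
      rw [Finset.sum_mul]
      refine Finset.sum_congr rfl fun i hi => ?_
      have hi' := Finset.mem_range.1 hi
      have h3 : Finset.Ioo i (J + 1) = insert J (Finset.Ioo i J) := by
        ext k
        simp only [Finset.mem_Ioo, Finset.mem_insert]
        omega
      rw [h3, Finset.prod_insert (by simp)]
      ring
    rw [h2, h1, Finset.prod_empty, mul_one, ih]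
    ring

theorem t_EXP : S_EXP := by
  intro q J
  induction J with
  | zero => simp
  | succ J ih =>
    rw [Finset.prod_range_succ, Finset.sum_range_succ, Finset.sum_range_succ, mul_add, mul_one,
      ← Finset.sum_mul]
    have h := exp_one q J
    nth_rw 1 [ih]
    rw [h]
    ring

end Pool.Agent.H729R2.CB
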