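import Mathlib
import Pool.Agent.H729R2.CB.Stubs

set_option autoImplicit false

namespace Pool.Agent.H729R2.CB

open MeasureTheory Pool.Agent.Helper150.Cub

noncomputable section

theorem fcf_FG_coe (r α x : ℝ) : FG r α (x : G) = F1 r α x := rfl

theorem fcf_cont {r : ℝ} (α : ℝ) (hr : 1 < r) : Continuous (FG r α) :=
  continuous_coinduced_dom.mpr (F1_continuous hr α)

theorem fcf_norm_ph (α : ℝ) (k : ℤ) : ‖ph α k‖ = 1 := by
  unfold ph
  exact Complex.norm_exp_ofReal_mul_I _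

theorem fcf_four (k : ℤ) (x : ℝ) :
    (fourier k (x : G) : ℂ) = Complex.exp (((k * x : ℝ) : ℂ) * Complex.I) := by
  rw [fourier_coe_apply]
  congr 1
  have : (Real.pi : ℂ) ≠ 0 := by exact_mod_cast Real.pi_ne_zero
  push_cast
  field_simp

theorem fcf_norm_four (k : ℤ) (x : ℝ) : ‖(fourier k (x : G) : ℂ)‖ = 1 := by
  rw [fcf_four]
  exact Complex.norm_exp_ofReal_mul_I _

theorem fcf_pos (r α : ℝ) (n : ℕ) : fc r α ((n : ℤ) + 1) =
    ((((n : ℝ) + 1) ^ (-r) : ℝ) : ℂ) * Complex.exp (((-(α * Real.pi / 2) : ℝ) : ℂ) * Complex.I) := by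
  have h0 : ((n : ℤ) + 1) ≠ 0 := by omega
  have h1 : Int.sign ((n : ℤ) + 1) = 1 := Int.sign_eq_one_of_pos (by omega)
  unfold fc ph
  rw [if_neg h0, h1]
  congr 2
  · push_cast
    rw [abs_of_nonneg (by positivity)]
  · push_cast
    ring

theorem fcf_neg (r α : ℝ) (n : ℕ) : fc r α (-((n : ℤ) + 1)) =
    ((((n : ℝ) + 1) ^ (-r) : ℝ) : ℂ) * Complex.exp ((((α * Real.pi / 2) : ℝ) : ℂ) * Complex.I) := by
  have h0 : -((n : ℤ) + 1) ≠ 0 := by omega
  have h1 : Int.sign (-((n : ℤ) + 1)) = -1 := Int.sign_eq_neg_one_of_neg (by omega)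
  unfold fc ph
  rw [if_neg h0, h1]
  congr 2
  · push_cast
    rw [abs_neg, abs_of_nonneg (by positivity)]
  · push_cast
    ring

theorem fcf_norm (r α : ℝ) (n : ℕ) : ‖fc r α ((n : ℤ) + 1)‖ = ((n : ℝ) + 1) ^ (-r) ∧
    ‖fc r α (-((n : ℤ) + 1))‖ = ((n : ℝ) + 1) ^ (-r) := by
  have h : 0 ≤ ((n : ℝ) + 1) ^ (-r) := by positivity
  rw [fcf_pos, fcf_neg, norm_mul, norm_mul, Complex.norm_exp_ofReal_mul_I,
    Complex.norm_exp_ofReal_mul_I, Complex.norm_real, Real.norm_eq_abs, abs_of_nonneg h, mul_one]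
  exact ⟨rfl, rfl⟩

theorem fcf_summable {r : ℝ} (hr : 1 < r) (α : ℝ) : Summable (fun k => ‖fc r α k‖) := by
  have h1 : Summable (fun n : ℕ => ‖fc r α ((n : ℤ) + 1)‖) :=
    (summable_base hr).congr fun n => ((fcf_norm r α n).1).symm
  have h2 : Summable (fun n : ℕ => ‖fc r α (-((n : ℤ) + 1))‖) :=
    (summable_base hr).congr fun n => ((fcf_norm r α n).2).symm
  have h3 : Summable (fun n : ℕ => ‖fc r α (n : ℤ)‖) := by
    refine (summable_nat_add_iff 1).1 ?_
    refine h1.congr fun n => ?_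
    push_cast
    rfl
  exact Summable.of_nat_of_neg_add_one h3 h2

theorem fcf_cos (c θ : ℝ) : ((2 * (c * Real.cos θ) : ℝ) : ℂ) =
    (c : ℂ) * (Complex.exp ((θ : ℂ) * Complex.I) + Complex.exp (-(θ : ℂ) * Complex.I)) := by
  push_cast
  rw [Complex.cos]
  ring

theorem fcf_pair (r α x : ℝ) (n : ℕ) :
    fc r α ((n : ℤ) + 1) * fourier ((n : ℤ) + 1) (x : G) +
      fc r α (-((n : ℤ) + 1)) * fourier (-((n : ℤ) + 1)) (x : G) =
    ((2 * kt r α n x : ℝ) : ℂ) := by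
  have h1 : ((2 * kt r α n x : ℝ) : ℂ) = _ :=
    fcf_cos (((n:ℝ) + 1) ^ (-r)) (((n:ℝ) + 1) * x - α * Real.pi / 2)
  rw [h1, fcf_pos, fcf_neg, fcf_four, fcf_four, mul_assoc, mul_assoc, ← Complex.exp_add,
    ← Complex.exp_add, ← mul_add]
  congr 2
  · congr 1
    push_cast
    ring
  · congr 1
    push_cast
    ring

theorem t_FCF : S_FCF := by
  intro r α hr
  refine ⟨fcf_cont α hr, fcf_summable hr α, ?_⟩
  intro x
  induction x using QuotientAddGroup.induction_on with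
  | H x =>
  show ((FG r α (x : G) : ℝ) : ℂ) = ∑' k, fc r α k * fourier k (x : G)
  rw [fcf_FG_coe]
  have hs : Summable (fun k => fc r α k * fourier k (x : G)) := by
    refine Summable.of_norm ?_
    refine (fcf_summable hr α).congr fun k => ?_
    rw [norm_mul, fcf_norm_four, mul_one]
  have hp : Summable (fun n : ℕ => fc r α ((n : ℤ) + 1) * fourier ((n : ℤ) + 1) (x : G)) := by
    have hi : Function.Injective (fun n : ℕ => (n : ℤ) + 1) := fun a b h => by
      have h' : (a : ℤ) + 1 = (b : ℤ) + 1 := h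
      omega
    exact hs.comp_injective hi
  have hn : Summable (fun n : ℕ => fc r α (-((n : ℤ) + 1)) * fourier (-((n : ℤ) + 1)) (x : G)) := by
    have hi : Function.Injective (fun n : ℕ => -((n : ℤ) + 1)) := fun a b h => by
      have h' : -((a : ℤ) + 1) = -((b : ℤ) + 1) := h
      omega
    exact hs.comp_injective hi
  have h1 : HasSum (fun n : ℕ => fc r α (n : ℤ) * fourier (n : ℤ) (x : G))
      (∑' n : ℕ, fc r α ((n : ℤ) + 1) * fourier ((n : ℤ) + 1) (x : G) + 1) := by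
    have h2 := (hasSum_nat_add_iff (f := fun n : ℕ => fc r α (n : ℤ) * fourier (n : ℤ) (x : G))
      (g := ∑' n : ℕ, fc r α ((n : ℤ) + 1) * fourier ((n : ℤ) + 1) (x : G)) 1).1 (by
        refine hp.hasSum.congr_fun fun n => ?_
        push_cast
        rfl)
    have e : ∑ i ∈ Finset.range 1, fc r α (i : ℤ) * fourier (i : ℤ) (x : G) = 1 := by
      simp [fc]
    rw [e] at h2
    exact h2
  have h3 := HasSum.of_nat_of_neg_add_one (f := fun k : ℤ => fc r α k * fourier k (x : G)) h1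
    hn.hasSum
  rw [h3.tsum_eq]
  have h4 : ∑' n : ℕ, fc r α ((n : ℤ) + 1) * fourier ((n : ℤ) + 1) (x : G) + 1 +
      ∑' n : ℕ, fc r α (-((n : ℤ) + 1)) * fourier (-((n : ℤ) + 1)) (x : G) =
      1 + ∑' n : ℕ, (fc r α ((n : ℤ) + 1) * fourier ((n : ℤ) + 1) (x : G) +
        fc r α (-((n : ℤ) + 1)) * fourier (-((n : ℤ) + 1)) (x : G)) := by
    rw [hp.tsum_add hn]
    ring
  rw [h4]
  simp only [fcf_pair]
  rw [← Complex.ofReal_tsum, tsum_mul_left, F1_eq]
  push_cast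
  rfl

end

end Pool.Agent.H729R2.CB
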