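import Mathlib
import Pool.Agent.H729R2.CB.Stubs

set_option autoImplicit false

namespace Pool.Agent.H729R2.CB

open MeasureTheory Pool.Agent.Helper150.Cub

/-- choice of the number of scales -/
theorem fin_num (K0 : ℝ) (hK0 : 1 ≤ K0) : ∃ m₀ : ℕ, ∀ m : ℕ, m₀ ≤ m → ∃ (J : ℕ) (s : ℝ),
    1 ≤ J ∧ 0 < s ∧ K0 * (J : ℝ) ^ 8 * s ≤ 1 ∧ 0 < (m : ℝ) ∧ s ^ J = (m : ℝ)⁻¹ ∧
      0 < Real.log (Real.log m) ∧ Real.log m / (18 * Real.log (Real.log m)) ≤ J := by
  have t : Filter.Tendsto (fun m : ℕ => Real.log m) Filter.atTop Filter.atTop :=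
    Real.tendsto_log_atTop.comp tendsto_natCast_atTop_atTop
  have h1 := t.eventually (Filter.eventually_ge_atTop (max 3 K0))
  have h2 := t.eventually (Real.isLittleO_log_id_atTop.def (c := 1 / 18) (by norm_num))
  obtain ⟨m₀, hm₀⟩ := Filter.eventually_atTop.mp (h1.and h2)
  refine ⟨m₀, fun m hm => ?_⟩
  obtain ⟨h3, h4⟩ := hm₀ m hm
  set x : ℝ := Real.log m with hx
  have hx3 : 3 ≤ x := (le_max_left _ _).trans h3
  have hxK : K0 ≤ x := (le_max_right _ _).trans h3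
  have hxp : 0 < x := by linarith
  have hm0 : (0:ℝ) < m := by
    rcases Nat.eq_zero_or_pos m with h | h
    · exfalso
      rw [h] at hx
      simp at hx
      linarith
    · exact_mod_cast h
  have hex : Real.exp x = m := by rw [hx]; exact Real.exp_log hm0
  have hK0p : 0 < K0 := by linarith
  have hL0 : 0 ≤ Real.log K0 := Real.log_nonneg hK0
  set l : ℝ := Real.log x with hl
  have hlK : Real.log K0 ≤ l := Real.log_le_log hK0p hxK
  have hl1 : 1 ≤ l := by
    have h5 : Real.log (Real.exp 1) ≤ Real.log x := by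
      apply Real.log_le_log (Real.exp_pos 1)
      have := Real.exp_one_lt_d9
      linarith
    rwa [Real.log_exp] at h5
  have hlx : 18 * l ≤ x := by
    simp only [id, Real.norm_eq_abs] at h4
    rw [abs_of_pos (by linarith : 0 < l), abs_of_pos hxp] at h4
    linarith
  set D : ℝ := Real.log K0 + 8 * l with hD
  have hD1 : 1 ≤ D := by linarith
  have hDp : 0 < D := by linarith
  have hD9 : D ≤ 9 * l := by linarith
  set J : ℕ := ⌊x / D⌋₊ with hJ
  have hJle : (J : ℝ) ≤ x / D := Nat.floor_le (by positivity)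
  have hJgt : x / D < J + 1 := Nat.lt_floor_add_one _
  have hy : x / (9 * l) ≤ x / D := div_le_div_of_nonneg_left hxp.le hDp hD9
  have hy2 : 2 ≤ x / (9 * l) := by
    rw [le_div_iff₀ (by positivity)]; linarith
  have hy3 : x / (18 * l) = x / (9 * l) / 2 := by
    rw [div_div]; congr 1; ring
  have hJ18 : x / (18 * l) ≤ J := by rw [hy3]; linarith
  have hJ1r : (1:ℝ) ≤ J := by
    have : 1 ≤ x / (18 * l) := by rw [hy3]; linarith
    linarith
  have hJ1 : 1 ≤ J := by exact_mod_cast hJ1r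
  have hJp : (0:ℝ) < J := by linarith
  have hJx : (J : ℝ) ≤ x := by
    refine hJle.trans ?_
    rw [div_le_iff₀ hDp]
    nlinarith
  refine ⟨J, Real.exp (-(x / J)), hJ1, Real.exp_pos _, ?_, hm0, ?_, by linarith, hJ18⟩
  · have h6 : D ≤ x / J := by
      rw [le_div_iff₀ hJp]
      rw [le_div_iff₀ hDp] at hJle
      linarith
    have h7 : Real.exp (-(x / J)) ≤ Real.exp (-D) := Real.exp_le_exp.mpr (by linarith)
    have h8 : Real.exp D = K0 * x ^ 8 := by
      rw [hD, Real.exp_add, Real.exp_log hK0p, show (8:ℝ) * l = l * 8 by ring, Real.exp_mul, hl,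
        Real.exp_log hxp]
      norm_cast
    calc K0 * (J : ℝ) ^ 8 * Real.exp (-(x / J)) ≤ K0 * x ^ 8 * Real.exp (-D) := by
          refine mul_le_mul ?_ h7 (Real.exp_pos _).le (by positivity)
          exact mul_le_mul_of_nonneg_left (pow_le_pow_left₀ hJp.le hJx 8) hK0p.le
      _ = 1 := by
          rw [Real.exp_neg, h8]
          field_simp
  · rw [← Real.exp_nat_mul, show (J:ℝ) * -(x / J) = -x by field_simp, Real.exp_neg, hex]

/-- the result -/
theorem t_FIN (hCORE : S_CORE) (hKER : S_KER) (hSTAR : S_STAR) (hSUP : S_SUP) : S_FIN := by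
  intro 𝕜 _ r α hr
  obtain ⟨C, M, hC, hKer, hM⟩ := hKER r α hr
  have hCp : 0 < C := by linarith
  obtain ⟨m₀, hm₀⟩ := fin_num (10 ^ 4 + 8 * C ^ 2) (by nlinarith)
  refine ⟨1 / (32 * 18 * C ^ 2), by positivity, m₀, fun m hm => ?_⟩
  obtain ⟨J, s, hJ1, hs0, hsJ, hmp, hsm, hll, hJ18⟩ := hm₀ m hm
  unfold kappa
  refine le_iInf fun w => le_iInf fun ξ => ?_
  by_cases htop : cubErr (W 𝕜 r α) w ξ = ⊤
  · rw [htop]; exact le_top
  set E : ℝ := (cubErr (W 𝕜 r α) w ξ).toReal with hE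
  have hE0 : 0 ≤ E := ENNReal.toReal_nonneg
  have hEe : ENNReal.ofReal E = cubErr (W 𝕜 r α) w ξ := ENNReal.ofReal_toReal htop
  have hsup := hSUP 𝕜 r α hr m w ξ E hE0 hEe.ge
  obtain ⟨hcont, hstar⟩ := hSTAR r α C M hr hKer hM m (fun μ => RCLike.re (w μ))
    (fun μ => (((ξ μ).1 : G), ((ξ μ).2 : G)))
  have hcore := hCORE r C E M m (fun μ => (((ξ μ).1 : G), ((ξ μ).2 : G)))
    (errF r α (fun μ => RCLike.re (w μ)) (fun μ => (((ξ μ).1 : G), ((ξ μ).2 : G)))) J s hr.le hC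
    hKer hcont hsup hstar hJ1 hs0 hsJ (by rw [hsm, mul_inv_cancel₀ hmp.ne'])
  rw [← hEe]
  apply ENNReal.ofReal_le_ofReal
  refine le_trans ?_ hcore
  have e1 : (s ^ J) ^ r = (m : ℝ) ^ (-r) := by
    rw [hsm, Real.inv_rpow hmp.le, Real.rpow_neg hmp.le]
  rw [e1]
  have hmr : 0 < (m : ℝ) ^ (-r) := Real.rpow_pos_of_pos hmp _
  calc 1 / (32 * 18 * C ^ 2) * ((m:ℝ) ^ (-r) * Real.log m / Real.log (Real.log m))
      = 1 / (32 * C ^ 2) * (Real.log m / (18 * Real.log (Real.log m))) * (m:ℝ) ^ (-r) := by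
        field_simp
    _ ≤ 1 / (32 * C ^ 2) * J * (m:ℝ) ^ (-r) := by
        refine mul_le_mul_of_nonneg_right ?_ hmr.le
        exact mul_le_mul_of_nonneg_left hJ18 (by positivity)

end Pool.Agent.H729R2.CB
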