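import Mathlib
import Pool.Agent.H729R2.CB.Stubs

set_option autoImplicit false

namespace Pool.Agent.H729R2.CB

open MeasureTheory

theorem har_integrable {f : G × G → ℝ} (hf : Continuous f) : Integrable f hm2 :=
  hf.integrable_of_hasCompactSupport (HasCompactSupport.of_compactSpace f)

theorem har_translate (f : G × G → ℝ) (e : G × G) : ∫ x, f (x + e) ∂hm2 = ∫ x, f x ∂hm2 :=
  integral_add_right_eq_self f e

theorem t_HAR : S_HAR := by
  intro ι q τ S σ hσ hι hτ hqc hqb hqL hsum h b τ' σ' hhc hhb hhL hσ'0 hσ'σ hσ'τ t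
  set P : G × G → ℝ := RP q S with hP
  have hPc : Continuous P := by
    rw [hP]; unfold RP
    exact continuous_finsetProd S (fun k hk => continuous_const.add (hqc k hk))
  have hfac : ∀ k ∈ S, ∀ x, 1 / 2 ≤ 1 + q k x := by
    intro k hk x
    have := (abs_le.mp (hqb k hk x)).1
    linarith
  have hP0 : ∀ x, 0 ≤ P x := by
    intro x
    rw [hP]; unfold RP
    exact Finset.prod_nonneg (fun k hk => by linarith [hfac k hk x])
  have ht0 : 0 ≤ ‖t‖ := norm_nonneg t
  set u : ℝ := ‖t‖ / σ with hu
  have hu0 : 0 ≤ u := by positivity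
  have hexp : ∏ k ∈ S, Real.exp (‖t‖ / τ k) ≤ Real.exp u := by
    rw [← Real.exp_sum, Real.exp_le_exp]
    have h1 : ∑ k ∈ S, ‖t‖ / τ k = ‖t‖ * ∑ k ∈ S, 1 / τ k := by
      rw [Finset.mul_sum]
      apply Finset.sum_congr rfl
      intro k _
      ring
    rw [h1, hu]
    calc ‖t‖ * ∑ k ∈ S, 1 / τ k ≤ ‖t‖ * (1 / σ) := mul_le_mul_of_nonneg_left hsum ht0
      _ = ‖t‖ / σ := by ring
  have hone : ∀ (a c d : ℝ), 1 / 2 ≤ a → 0 ≤ d → c ≤ a + d / 2 → c ≤ a * Real.exp d := by
    intro a c d ha hd hc
    have h1 := Real.add_one_le_exp d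
    nlinarith
  have hup : ∀ x, P (x + ι t) ≤ P x * Real.exp u := by
    intro x
    have h1 : P (x + ι t) ≤ ∏ k ∈ S, ((1 + q k x) * Real.exp (‖t‖ / τ k)) := by
      rw [hP]; unfold RP
      apply Finset.prod_le_prod
      · intro k hk
        linarith [hfac k hk (x + ι t)]
      · intro k hk
        have h2 := (abs_le.mp (hqL k hk x t)).2
        exact hone _ _ _ (hfac k hk x) (div_nonneg ht0 (hτ k hk).le) (by linarith)
    rw [Finset.prod_mul_distrib] at h1
    exact h1.trans (mul_le_mul_of_nonneg_left hexp (hP0 x))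
  have hlo : ∀ x, P x ≤ P (x + ι t) * Real.exp u := by
    intro x
    have h1 : P x ≤ ∏ k ∈ S, ((1 + q k (x + ι t)) * Real.exp (‖t‖ / τ k)) := by
      rw [hP]; unfold RP
      apply Finset.prod_le_prod
      · intro k hk
        linarith [hfac k hk x]
      · intro k hk
        have h2 := (abs_le.mp (hqL k hk x t)).1
        exact hone _ _ _ (hfac k hk (x + ι t)) (div_nonneg ht0 (hτ k hk).le) (by linarith)
    rw [Finset.prod_mul_distrib] at h1
    exact h1.trans (mul_le_mul_of_nonneg_left hexp (hP0 (x + ι t)))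
  have hPc' : Continuous (fun x => P (x + ι t)) := hPc.comp (continuous_id.add continuous_const)
  have hIP : 0 ≤ ∫ x, P x ∂hm2 := integral_nonneg hP0
  have hΔ : ∫ x, |P (x + ι t) - P x| ∂hm2 ≤ 2 * min 1 u * ∫ x, P x ∂hm2 := by
    rcases le_total u 1 with h1 | h1
    · rw [min_eq_right h1, ← integral_const_mul]
      apply integral_mono (har_integrable (hPc'.sub hPc).abs)
        (har_integrable (continuous_const.mul hPc))
      intro x
      simp only [Pi.sub_apply, Pi.mul_apply, Pi.add_apply]
      have h2 := Real.abs_exp_sub_one_le (x := u) (by rw [abs_of_nonneg hu0]; exact h1)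
      rw [abs_of_nonneg hu0] at h2
      have h3 := (abs_le.mp h2).2
      have h4 := hup x
      have h5 := hlo x
      have h6 := hP0 x
      have h7 := hP0 (x + ι t)
      rw [abs_le]
      constructor
      · -- P x ≤ P (x + ι t) exp u ≤ ...
        have h8 : P x * (1 - u) ≤ P (x + ι t) := by
          have h9 : (1 - u) * Real.exp u ≤ 1 := by
            have h10 := Real.add_one_le_exp (-u)
            have h11 : Real.exp (-u) * Real.exp u = 1 := by rw [← Real.exp_add]; simp
            calc (1 - u) * Real.exp u ≤ Real.exp (-u) * Real.exp u := by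
                  apply mul_le_mul_of_nonneg_right _ (Real.exp_pos u).le
                  linarith
              _ = 1 := h11
          calc P x * (1 - u) ≤ (P (x + ι t) * Real.exp u) * (1 - u) :=
                mul_le_mul_of_nonneg_right h5 (by linarith)
            _ = P (x + ι t) * ((1 - u) * Real.exp u) := by ring
            _ ≤ P (x + ι t) * 1 := mul_le_mul_of_nonneg_left h9 h7
            _ = P (x + ι t) := mul_one _
        nlinarith
      · nlinarith
    · rw [min_eq_left h1, mul_one]
      calc ∫ x, |P (x + ι t) - P x| ∂hm2 ≤ ∫ x, (P (x + ι t) + P x) ∂hm2 := by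
            apply integral_mono (har_integrable (hPc'.sub hPc).abs)
              (har_integrable (hPc'.add hPc))
            intro x
            simp only [Pi.sub_apply, Pi.mul_apply, Pi.add_apply]
            have h6 := hP0 x
            have h7 := hP0 (x + ι t)
            rw [abs_le]
            constructor <;> linarith
        _ = 2 * ∫ x, P x ∂hm2 := by
            rw [integral_add (har_integrable hPc') (har_integrable hPc), har_translate]
            ring
  have hb0 : 0 ≤ b := (abs_nonneg _).trans (hhb 0)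
  have hτ'0 : 0 < τ' := lt_of_lt_of_le hσ'0 hσ'τ
  have hmin : min 1 u ≤ min 1 (‖t‖ / σ') := by
    apply min_le_min le_rfl
    rw [hu]
    exact div_le_div_of_nonneg_left ht0 hσ'0 hσ'σ
  have hhΔ : ∀ x, |h (x + ι t) - h x| ≤ 2 * b * min 1 (‖t‖ / σ') := by
    intro x
    rcases le_total 1 (‖t‖ / σ') with h1 | h1
    · rw [min_eq_left h1, mul_one]
      have h2 := abs_sub (h (x + ι t)) (h x)
      have h3 := hhb (x + ι t)
      have h4 := hhb x
      linarith
    · rw [min_eq_right h1]
      have h2 := hhL x t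
      have h3 : ‖t‖ / τ' ≤ ‖t‖ / σ' := div_le_div_of_nonneg_left ht0 hσ'0 hσ'τ
      have h4 : 0 ≤ ‖t‖ / σ' := by positivity
      nlinarith
  have hhc' : Continuous (fun x => h (x + ι t)) := hhc.comp (continuous_id.add continuous_const)
  calc ∫ x, |h (x + ι t) * P (x + ι t) - h x * P x| ∂hm2
      ≤ ∫ x, (b * |P (x + ι t) - P x| + 2 * b * min 1 (‖t‖ / σ') * P x) ∂hm2 := by
        apply integral_mono (har_integrable ((hhc'.mul hPc').sub (hhc.mul hPc)).abs)
          (har_integrable ((continuous_const.mul (hPc'.sub hPc).abs).add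
            (continuous_const.mul hPc)))
        intro x
        simp only [Pi.sub_apply, Pi.mul_apply, Pi.add_apply]
        have h1 : h (x + ι t) * P (x + ι t) - h x * P x =
            h (x + ι t) * (P (x + ι t) - P x) + (h (x + ι t) - h x) * P x := by ring
        rw [h1]
        refine (abs_add_le _ _).trans ?_
        rw [abs_mul, abs_mul, abs_of_nonneg (hP0 x)]
        exact add_le_add (mul_le_mul_of_nonneg_right (hhb _) (abs_nonneg _))
          (mul_le_mul_of_nonneg_right (hhΔ x) (hP0 x))
    _ = b * ∫ x, |P (x + ι t) - P x| ∂hm2 +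
          2 * b * min 1 (‖t‖ / σ') * ∫ x, P x ∂hm2 := by
        have i1 : Integrable (fun x => b * |P (x + ι t) - P x|) hm2 :=
          har_integrable (continuous_const.mul (hPc'.sub hPc).abs)
        have i2 : Integrable (fun x => 2 * b * min 1 (‖t‖ / σ') * P x) hm2 :=
          har_integrable (continuous_const.mul hPc)
        rw [integral_add i1 i2, integral_const_mul, integral_const_mul]
    _ ≤ b * (2 * min 1 (‖t‖ / σ') * ∫ x, P x ∂hm2) +
          2 * b * min 1 (‖t‖ / σ') * ∫ x, P x ∂hm2 := by
        have h1 : 2 * min 1 u * ∫ x, P x ∂hm2 ≤ 2 * min 1 (‖t‖ / σ') * ∫ x, P x ∂hm2 :=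
          mul_le_mul_of_nonneg_right (by linarith) hIP
        have h2 := mul_le_mul_of_nonneg_left (hΔ.trans h1) hb0
        linarith
    _ = 4 * b * min 1 (‖t‖ / σ') * ∫ x, P x ∂hm2 := by ring

end Pool.Agent.H729R2.CB
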