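import Mathlib
import Pool.Agent.H729R2.CB.Stubs

set_option autoImplicit false

namespace Pool.Agent.H729R2.CB

open MeasureTheory

theorem int_int2 {φ : G × G → ℝ} (h : Continuous φ) : Integrable φ hm2 :=
  h.integrable_of_hasCompactSupport (HasCompactSupport.of_compactSpace _)

theorem int_int1 {φ : G → ℝ} (h : Continuous φ) : Integrable φ hm :=
  h.integrable_of_hasCompactSupport (HasCompactSupport.of_compactSpace _)

theorem int_cont (Φ : G × G → G → ℝ) (hΦ : Continuous (Function.uncurry Φ)) :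
    Continuous fun t => ∫ x, Φ x t ∂hm2 := by
  have h : Continuous (Function.uncurry fun (t : G) (x : G × G) => Φ x t) :=
    hΦ.comp (continuous_snd.prodMk continuous_fst)
  have := continuous_parametric_integral_of_continuous (μ := hm2) h (isCompact_univ)
  simpa using this

theorem int_i1 : Continuous i1 := by
  unfold i1
  fun_prop

theorem int_i2 : Continuous i2 := by
  unfold i2
  fun_prop

theorem int_RP_cont {q : ℕ → G × G → ℝ} {S : Finset ℕ} (h : ∀ k ∈ S, Continuous (q k)) :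
    Continuous (RP q S) := by
  show Continuous fun x => ∏ k ∈ S, (1 + q k x)
  exact continuous_finsetProd _ fun k hk => continuous_const.add (h k hk)

theorem int_RP_nonneg {q : ℕ → G × G → ℝ} {S : Finset ℕ} (h : ∀ k ∈ S, ∀ x, |q k x| ≤ 1/2)
    (x : G × G) : 0 ≤ RP q S x := by
  show 0 ≤ ∏ k ∈ S, (1 + q k x)
  refine Finset.prod_nonneg fun k hk => ?_
  have := (abs_le.1 (h k hk x)).1
  linarith

theorem int_geo {s : ℝ} (hs : 0 < s) (hs2 : s ≤ 1/2) (i j : ℕ) (hij : i ≤ j) :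
    ∑ k ∈ Finset.Ico i j, 1 / sa s k ≤ 1 / (s ^ j / 2) := by
  induction j, hij using Nat.le_induction with
  | base =>
    rw [Finset.Ico_self, Finset.sum_empty]
    positivity
  | succ j hj ih =>
    rw [Finset.sum_Ico_succ_top hj]
    unfold sa at ih ⊢
    have hp : 0 < s ^ j := by positivity
    have h1 : 1 / (s ^ j / 2) ≤ 1 / s ^ (j + 1) := by
      apply one_div_le_one_div_of_le (by positivity)
      rw [pow_succ]
      nlinarith
    have h2 : 1 / (s ^ (j + 1) / 2) = 1 / s ^ (j + 1) + 1 / s ^ (j + 1) := by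
      field_simp
      norm_num
    rw [h2]
    linarith

theorem int_step (h1 : S_CV1) (h2 : S_CV2) (hC : S_COM) (hH : S_HAR) (hQ : S_QF)
    (r C E : ℝ) (M : ℝ → G → ℝ) (m : ℕ) (ξ : Fin m → G × G) (f : G × G → ℝ) (J : ℕ) (s : ℝ)
    (χ : ℕ → G × G → ℝ) (hS : Setup r C E M m ξ f J s χ) (hs2 : s ≤ 1/2) (i j : ℕ)
    (hij : i ≤ j) (hj : j < J) :
    ∫ x, RP (qf C M s J χ) (Finset.Ico i (j+1)) x ∂hm2 ≤
      (1 + 3 * s ^ (1/4 : ℝ)) * ∫ x, RP (qf C M s J χ) (Finset.Ico i j) x ∂hm2 := by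
  have hs := hS.s0
  have hC1 := hS.hC
  have hC0 : 0 < C := by linarith
  have hs1 : s ≤ 1 := by linarith
  set q := qf C M s J χ with hq
  set P := RP q (Finset.Ico i j) with hP
  have hQk : ∀ k ∈ Finset.Ico i j, Continuous (q k) ∧ (∀ x, |q k x| ≤ 1/2) ∧
      (∀ x t, |q k (x + i1 t) - q k x| ≤ ‖t‖ / sa s k / 2) := by
    intro k hk
    rw [Finset.mem_Ico] at hk
    obtain ⟨a, b, c, -⟩ := hQ r C E M m ξ f J s χ hS k (by omega)
    exact ⟨a, b, c⟩
  obtain ⟨hqj, hqj2, -, -⟩ := hQ r C E M m ξ f J s χ hS j hj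
  have hPc : Continuous P := int_RP_cont fun k hk => (hQk k hk).1
  have hP0 : ∀ x, 0 ≤ P x := int_RP_nonneg fun k hk => (hQk k hk).2.1
  have hPI : 0 ≤ ∫ x, P x ∂hm2 := integral_nonneg hP0
  -- scales
  set a := sa s j with ha
  set b := sb s J j with hb
  have ha0 : 0 < a := by rw [ha]; unfold sa; positivity
  have ha1 : a ≤ 1 := by rw [ha]; unfold sa; exact pow_le_one₀ hs.le hs1
  have hb0 : 0 < b := by rw [hb]; unfold sb; positivity
  have hb1 : b ≤ 1 := by rw [hb]; unfold sb; exact pow_le_one₀ hs.le hs1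
  have has : a ≤ s := by
    rw [ha]; unfold sa
    rw [pow_succ]
    have : s ^ j ≤ 1 := pow_le_one₀ hs.le hs1
    nlinarith
  set σ := s ^ j / 2 with hσ
  have hσ0 : 0 < σ := by positivity
  have hcut := hS.cut j hj
  have hMa := hS.ker.cont a ha0 ha1
  have hMb := hS.ker.cont b hb0 hb1
  set B := Cv i2 (M b) (χ j) with hB
  have hBc : Continuous B := (h1 i2 (M b) (χ j) int_i2 hMb hcut.cont).1
  have hBC : ∀ x, |B x| ≤ C := by
    intro x
    have := (h2 i2 (M b) (χ j) 1 C int_i2 hMb hcut.cont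
      (fun x => by rw [abs_of_nonneg (hcut.nonneg x)]; exact hcut.le_one x)
      (hS.ker.l1 b hb0 hb1)).1 x
    simpa using this
  -- the product formula
  have hprod : ∫ x, RP q (Finset.Ico i (j+1)) x ∂hm2 =
      ∫ x, P x ∂hm2 + ∫ x, P x * q j x ∂hm2 := by
    have hi2 : Integrable (fun x => P x * q j x) hm2 := int_int2 (hPc.mul hqj)
    rw [← integral_add (int_int2 hPc) hi2]
    congr 1
    funext x
    show ∏ k ∈ Finset.Ico i (j+1), (1 + q k x) = P x + P x * q j x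
    rw [Finset.prod_Ico_succ_top hij]
    show P x * (1 + q j x) = _
    ring
  -- commutator
  have hcom := hC i1 (M a) (fun _ => 1) P B 1 C int_i1 hMa continuous_const hPc hBc
    (fun _ => by simp) hBC
  have hD : ∀ x, Dv i1 (M a) (fun _ => 1) x = a ^ r := by
    intro x
    unfold Dv
    simp only [mul_one]
    exact hS.ker.mean a ha0 ha1
  simp only [hD, one_mul] at hcom
  -- the difference term
  have hhar : ∀ t, ∫ x, |P (x + i1 t) - P x| ∂hm2 ≤
      4 * min 1 (‖t‖ / σ) * ∫ x, P x ∂hm2 := by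
    intro t
    have := hH i1 q (sa s) (Finset.Ico i j) σ hσ0 int_i1 (fun k _ => by unfold sa; positivity)
      (fun k hk => (hQk k hk).1) (fun k hk => (hQk k hk).2.1) (fun k hk => (hQk k hk).2.2)
      (int_geo hs hs2 i j hij) (fun _ => 1) 1 σ σ continuous_const (fun _ => by simp)
      (fun x t => by simp; positivity) hσ0 le_rfl le_rfl t
    simpa using this
  have c4 : Continuous (Function.uncurry fun (x : G × G) (t : G) => |P (x + i1 t) - P x|) := by
    have := int_i1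
    unfold Function.uncurry
    fun_prop
  have hdiff : ∫ t, |M a t| * (∫ x, |P (x + i1 t) - P x| ∂hm2) ∂hm ≤
      4 * (∫ x, P x ∂hm2) * (C * (a / σ) ^ (1/4 : ℝ)) := by
    calc ∫ t, |M a t| * (∫ x, |P (x + i1 t) - P x| ∂hm2) ∂hm
        ≤ ∫ t, (4 * ∫ x, P x ∂hm2) * (min 1 (‖t‖ / σ) * |M a t|) ∂hm := by
          refine integral_mono (int_int1 (hMa.abs.mul (int_cont _ c4))) (int_int1 ?_) fun t => ?_
          · exact continuous_const.mul ((continuous_const.min (continuous_norm.div_const _)).mul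
              hMa.abs)
          · show |M a t| * (∫ x, |P (x + i1 t) - P x| ∂hm2) ≤
              (4 * ∫ x, P x ∂hm2) * (min 1 (‖t‖ / σ) * |M a t|)
            calc |M a t| * (∫ x, |P (x + i1 t) - P x| ∂hm2)
                ≤ |M a t| * (4 * min 1 (‖t‖ / σ) * ∫ x, P x ∂hm2) := by
                  gcongr
                  exact hhar t
              _ = _ := by ring
      _ = (4 * ∫ x, P x ∂hm2) * ∫ t, min 1 (‖t‖ / σ) * |M a t| ∂hm := integral_const_mul _ _
      _ ≤ (4 * ∫ x, P x ∂hm2) * (C * (a / σ) ^ (1/4 : ℝ)) := by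
          gcongr
          exact hS.ker.wt a ha0 ha1 σ hσ0
  -- the size of the power
  have hpow : (a / σ) ^ (1/4 : ℝ) ≤ 1.2 * s ^ (1/4 : ℝ) := by
    have e : a / σ = 2 * s := by
      rw [ha, hσ]; unfold sa
      rw [pow_succ]
      field_simp
    rw [e, Real.mul_rpow (by norm_num) hs.le]
    have : (2:ℝ) ^ (1/4 : ℝ) ≤ 1.2 := by
      rw [show (1.2 : ℝ) = (1.2 ^ (4:ℝ)) ^ (1/4 : ℝ) by
        rw [← Real.rpow_mul (by norm_num)]; norm_num]
      apply Real.rpow_le_rpow (by norm_num) _ (by norm_num)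
      rw [show (4:ℝ) = ((4:ℕ):ℝ) by norm_num, Real.rpow_natCast]
      norm_num
    gcongr
  have hsη : s ≤ s ^ (1/4 : ℝ) := by
    calc s = s ^ (1:ℝ) := (Real.rpow_one s).symm
      _ ≤ s ^ (1/4 : ℝ) := Real.rpow_le_rpow_of_exponent_ge hs hs1 (by norm_num)
  have hη0 : 0 < s ^ (1/4 : ℝ) := Real.rpow_pos_of_pos hs _
  have har : a ^ r ≤ s ^ (1/4 : ℝ) := by
    have hr := hS.hr
    calc a ^ r ≤ a ^ (1:ℝ) := Real.rpow_le_rpow_of_exponent_ge ha0 ha1 hr
      _ = a := Real.rpow_one a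
      _ ≤ s := has
      _ ≤ _ := hsη
  have har0 : 0 ≤ a ^ r := Real.rpow_nonneg ha0.le _
  -- bound of the second term
  have hsec : |∫ x, a ^ r * P x * B x ∂hm2| ≤ a ^ r * C * ∫ x, P x ∂hm2 := by
    rw [← integral_const_mul]
    refine (abs_integral_le_integral_abs).trans (integral_mono ?_ ?_ fun x => ?_)
    · exact (int_int2 ((continuous_const.mul hPc).mul hBc)).abs
    · exact int_int2 (continuous_const.mul hPc)
    · show |a ^ r * P x * B x| ≤ a ^ r * C * P x
      rw [abs_mul, abs_mul, abs_of_nonneg har0, abs_of_nonneg (hP0 x)]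
      have := hBC x
      have h3 := hP0 x
      calc a ^ r * P x * |B x| ≤ a ^ r * P x * C := by gcongr
        _ = _ := by ring
  have hPq : ∫ x, P x * q j x ∂hm2 = -(1 / (2 * C ^ 2)) * ∫ x, P x * Cv i1 (M a) B x ∂hm2 := by
    rw [← integral_const_mul]
    congr 1
    funext x
    show P x * (- (1 / (2 * C ^ 2)) * Cv i1 (M (sa s j)) (Cv i2 (M (sb s J j)) (χ j)) x) = _
    ring
  set X := ∫ x, P x * Cv i1 (M a) B x ∂hm2 with hX
  set I := ∫ x, P x ∂hm2 with hI
  have hXb : |X| ≤ (5.8 * C ^ 2 * s ^ (1/4 : ℝ)) * I := by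
    have h5 : |X| ≤ |∫ x, a ^ r * P x * B x ∂hm2| +
        C * ∫ t, |M a t| * (∫ x, |P (x + i1 t) - P x| ∂hm2) ∂hm := by
      have := abs_sub_abs_le_abs_sub X (∫ x, a ^ r * P x * B x ∂hm2)
      linarith
    have h6 : C * ∫ t, |M a t| * (∫ x, |P (x + i1 t) - P x| ∂hm2) ∂hm ≤
        C * (4 * I * (C * (1.2 * s ^ (1/4 : ℝ)))) := by
      refine mul_le_mul_of_nonneg_left (hdiff.trans ?_) hC0.le
      gcongr
    have h7 : a ^ r * C * I ≤ s ^ (1/4 : ℝ) * C ^ 2 * I := by
      have : C ≤ C ^ 2 := by nlinarith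
      gcongr
    nlinarith
  rw [hprod, hPq]
  have h8 : -(1 / (2 * C ^ 2)) * X ≤ 2.9 * s ^ (1/4 : ℝ) * I := by
    have h9 : -X ≤ (5.8 * C ^ 2 * s ^ (1/4 : ℝ)) * I := (neg_le_abs X).trans hXb
    calc -(1 / (2 * C ^ 2)) * X = (1 / (2 * C ^ 2)) * (-X) := by ring
      _ ≤ (1 / (2 * C ^ 2)) * ((5.8 * C ^ 2 * s ^ (1/4 : ℝ)) * I) := by gcongr
      _ = 2.9 * s ^ (1/4 : ℝ) * I := by field_simp; ring
  nlinarith

theorem t_INT (h1 : S_CV1) (h2 : S_CV2) (h3 : S_CV3) (hC : S_COM) (hH : S_HAR) (hQ : S_QF) :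
    S_INT := by
  intro r C E M m ξ f J s χ hS i j hj
  have hs := hS.s0
  have hC1 := hS.hC
  have hJ1 : (1:ℝ) ≤ J := by exact_mod_cast hS.J1
  have hsJ : 10 ^ 4 * (J:ℝ) ^ 8 * s ≤ 1 := by
    refine le_trans ?_ hS.sJ
    have : 0 ≤ 8 * C ^ 2 := by positivity
    gcongr
    linarith
  have hJ8 : (1:ℝ) ≤ (J:ℝ) ^ 8 := one_le_pow₀ hJ1
  have hs4 : 10 ^ 4 * s ≤ 1 := by
    refine le_trans ?_ hsJ
    gcongr
    nlinarith
  have hs2 : s ≤ 1/2 := by norm_num at hs4; linarith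
  set η := s ^ (1/4 : ℝ) with hη
  have hη0 : 0 < η := Real.rpow_pos_of_pos hs _
  have hη4 : η ^ 4 = s := by
    rw [hη, ← Real.rpow_natCast, ← Real.rpow_mul hs.le]
    norm_num
  have hηJ : 10 * (J:ℝ) ^ 2 * η ≤ 1 := by
    have : (10 * (J:ℝ) ^ 2 * η) ^ 4 ≤ 1 ^ 4 := by
      rw [mul_pow, mul_pow, hη4, one_pow]
      calc (10:ℝ) ^ 4 * ((J:ℝ) ^ 2) ^ 4 * s = 10 ^ 4 * (J:ℝ) ^ 8 * s := by ring
        _ ≤ 1 := hsJ
    exact le_of_pow_le_pow_left₀ (by norm_num) (by norm_num) this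
  have key : ∀ j, j ≤ J → ∫ x, RP (qf C M s J χ) (Finset.Ico i j) x ∂hm2 ≤ (1 + 3 * η) ^ j := by
    intro j
    induction j with
    | zero =>
      intro _
      have : ∀ x, RP (qf C M s J χ) (Finset.Ico i 0) x = 1 := by
        intro x
        unfold RP
        rw [Finset.Ico_eq_empty (by omega), Finset.prod_empty]
      simp only [this]
      simp
    | succ j ih =>
      intro hj
      have ihj := ih (by omega)
      by_cases hij : i ≤ j
      · refine (int_step h1 h2 hC hH hQ r C E M m ξ f J s χ hS hs2 i j hij (by omega)).trans ?_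
        rw [pow_succ, mul_comm]
        gcongr
      · have : ∀ x, RP (qf C M s J χ) (Finset.Ico i (j+1)) x = 1 := by
          intro x
          unfold RP
          rw [Finset.Ico_eq_empty (by omega), Finset.prod_empty]
        simp only [this]
        have h9 : (1:ℝ) ≤ (1 + 3 * η) ^ (j+1) := one_le_pow₀ (by linarith)
        simpa using h9
  have hfin : (1 + 3 * η) ^ j ≤ 2 := by
    have a1 : (1 + 3 * η) ^ j ≤ (1 + 3 * η) ^ J := pow_le_pow_right₀ (by linarith) hj
    have a2 : 1 + 3 * η ≤ Real.exp (3 * η) := by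
      have := Real.add_one_le_exp (3 * η)
      linarith
    have a3 : (1 + 3 * η) ^ J ≤ Real.exp (3 * η) ^ J := pow_le_pow_left₀ (by linarith) a2 J
    have a4 : Real.exp (3 * η) ^ J = Real.exp (J * (3 * η)) := by
      rw [← Real.exp_nat_mul]
    have a5 : (J:ℝ) * (3 * η) ≤ 0.3 := by
      have : (J:ℝ) ≤ (J:ℝ) ^ 2 := by nlinarith
      nlinarith
    have a6 : Real.exp (J * (3 * η)) ≤ Real.exp 0.3 := Real.exp_le_exp.2 a5
    have a7 : Real.exp (0.3 : ℝ) ≤ 2 := by
      have h1 : (-0.3 : ℝ) + 1 ≤ Real.exp (-0.3) := Real.add_one_le_exp _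
      rw [Real.exp_neg] at h1
      have h2 : 0 < Real.exp (0.3 : ℝ) := Real.exp_pos _
      have h3 : (0.7 : ℝ) * Real.exp 0.3 ≤ 1 := by
        calc (0.7 : ℝ) * Real.exp 0.3 ≤ (Real.exp 0.3)⁻¹ * Real.exp 0.3 := by
              gcongr
              linarith
          _ = 1 := inv_mul_cancel₀ h2.ne'
      linarith
    linarith
  exact (key j hj).trans hfin

end Pool.Agent.H729R2.CB
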