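import Mathlib
import Pool.Agent.H729R2.CB.Stubs

set_option autoImplicit false

namespace Pool.Agent.H729R2.CB

open MeasureTheory Pool.Agent.Helper150.Cub

noncomputable section

private theorem ker_conj_mc (r α κ : ℝ) (q : ℕ) (δ : ℝ) (k : ℤ) :
    (starRingEnd ℂ) (mc r α κ q δ k) = mc r α κ q δ (-k) := by
  unfold mc
  by_cases hk : k = 0
  · subst hk
    simp
  · rw [if_neg hk, if_neg (neg_ne_zero.2 hk), map_mul, Complex.conj_ofReal]
    congr 1
    · rw [Int.cast_neg, abs_neg]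
    · unfold ph
      rw [← Complex.exp_conj, map_mul, Complex.conj_ofReal, Complex.conj_I]
      congr 1
      rw [Int.sign_neg]
      push_cast
      ring

/-- the kernel -/
private def kerM (r α κ : ℝ) (q : ℕ) (δ : ℝ) (x : G) : ℝ :=
  (∑' k : ℤ, mc r α κ q δ k * fourier k x).re

private theorem kerM_eq (r α κ : ℝ) (q : ℕ) (δ : ℝ) (x : G) :
    ((kerM r α κ q δ x : ℝ) : ℂ) = ∑' k : ℤ, mc r α κ q δ k * fourier k x := by
  unfold kerM
  rw [← Complex.conj_eq_iff_re, Complex.conj_tsum]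
  have e : (fun k : ℤ => (starRingEnd ℂ) (mc r α κ q δ k * fourier k x)) =
      fun k : ℤ => (fun j : ℤ => mc r α κ q δ j * fourier j x) ((Equiv.neg ℤ) k) := by
    funext k
    simp only [Equiv.neg_apply]
    rw [map_mul, ker_conj_mc, fourier_neg]
  rw [e]
  exact (Equiv.neg ℤ).tsum_eq (fun j : ℤ => mc r α κ q δ j * fourier j x)

private theorem ker_shift (c : ℤ → ℂ) (hc : Summable (fun k => ‖c k‖)) (x : G) :
    ∑' k : ℤ, (c (k - 1) - c k) * fourier k x =
      ((fourier 1 x : ℂ) - 1) * ∑' k : ℤ, c k * fourier k x := by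
  have hs : ∀ d : ℤ → ℂ, Summable (fun k => ‖d k‖) → Summable (fun k : ℤ => d k * fourier k x) := by
    intro d hd
    apply Summable.of_norm
    have : (fun k : ℤ => ‖d k * fourier k x‖) = fun k => ‖d k‖ := by
      funext k
      rw [norm_mul, fourier_apply, Circle.norm_coe, mul_one]
    rw [this]; exact hd
  have h1 : Summable (fun k : ℤ => c (k - 1) * fourier k x) :=
    hs (fun k => c (k - 1)) ((Equiv.subRight (1 : ℤ)).summable_iff.2 hc)
  have h2 := hs c hc
  have e1 : ∑' k : ℤ, (c (k - 1) - c k) * fourier k x =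
      ∑' k : ℤ, c (k - 1) * fourier k x - ∑' k : ℤ, c k * fourier k x := by
    rw [← h1.tsum_sub h2]
    exact tsum_congr fun k => by ring
  have e2 : ∑' k : ℤ, c (k - 1) * fourier k x = (fourier 1 x : ℂ) * ∑' k : ℤ, c k * fourier k x := by
    rw [← tsum_mul_left, ← (Equiv.subRight (1 : ℤ)).tsum_eq
      (fun k : ℤ => (fourier 1 x : ℂ) * (c k * fourier k x))]
    refine tsum_congr fun k => ?_
    simp only [Equiv.subRight_apply]
    have : (fourier k x : ℂ) = fourier 1 x * fourier (k - 1) x := by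
      rw [← fourier_add]; congr 2; ring
    rw [this]; ring
  rw [e1, e2]; ring

private theorem ker_mul (r α κ : ℝ) (q : ℕ) (δ : ℝ) (hδ : 0 < δ) (k : ℤ) :
    mc r α κ q δ k * fc r α k = ((δ ^ r : ℝ) : ℂ) * ((Real.sinc (k * (κ * δ)) ^ q : ℝ) : ℂ) := by
  unfold mc fc
  by_cases hk : k = 0
  · subst hk
    simp
  · rw [if_neg hk, if_neg hk]
    have hk0 : (0 : ℝ) < |(k : ℝ)| := abs_pos.2 (by exact_mod_cast hk)
    have hph : ph (-α) k * ph α k = 1 := by
      unfold ph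
      rw [← Complex.exp_add, ← Complex.exp_zero]
      congr 1
      push_cast
      ring
    have hmu : mu r κ q (|(k : ℝ)| * δ) * |(k : ℝ)| ^ (-r) =
        δ ^ r * Real.sinc (k * (κ * δ)) ^ q := by
      unfold mu
      rw [Real.mul_rpow hk0.le hδ.le, Real.rpow_neg hk0.le]
      have hs : Real.sinc (κ * (|(k : ℝ)| * δ)) = Real.sinc (k * (κ * δ)) := by
        rcases abs_choice (k : ℝ) with h | h
        · rw [h]; congr 1; ring
        · rw [h, ← Real.sinc_neg]; congr 1; ring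
      rw [hs]
      have : (|(k : ℝ)|) ^ r ≠ 0 := (Real.rpow_pos_of_pos hk0 r).ne'
      field_simp
    calc ((mu r κ q (|(k : ℝ)| * δ) : ℝ) : ℂ) * ph (-α) k * ((((|(k : ℝ)|) ^ (-r) : ℝ) : ℂ) * ph α k)
        = ((mu r κ q (|(k : ℝ)| * δ) * |(k : ℝ)| ^ (-r) : ℝ) : ℂ) * (ph (-α) k * ph α k) := by
          push_cast; ring
      _ = _ := by rw [hph, hmu, mul_one]; push_cast; ring

theorem t_KER (hSPL : S_SPL) (hPAR : S_PAR) (hFCF : S_FCF) (hCON : S_CON) (hL2 : S_L2)
    (hWL : S_WL1) (hNRM : S_NRM) : S_KER := by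
  intro r α hr
  set q : ℕ := ⌈r⌉₊ + 2 with hq
  have hq2 : 2 ≤ q := by omega
  have hrq : r + 2 ≤ q := by
    have := Nat.le_ceil r
    rw [hq]; push_cast; linarith
  have hq0 : (0 : ℝ) < q := by linarith
  set κ : ℝ := 1 / (2 * q) with hκ
  have hκ0 : 0 < κ := by positivity
  have hκ1 : κ ≤ 1 := by
    rw [hκ, div_le_one (by positivity)]; linarith
  obtain ⟨B, hB1, hB⟩ := hL2 r α κ q hr hκ0 hκ1 hrq
  obtain ⟨K, hK1, hK⟩ := hWL
  have hB0 : 0 ≤ 4 * B := by linarith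
  -- basic facts for a fixed δ
  have basic : ∀ δ, 0 < δ → δ ≤ 1 → Continuous (kerM r α κ q δ) ∧
      ∫ x, kerM r α κ q δ x ^ 2 ∂hm ≤ 4 * B / δ ∧
      ∫ x, ‖x‖ ^ 2 * kerM r α κ q δ x ^ 2 ∂hm ≤ 4 * B * δ ∧ ∫ x, kerM r α κ q δ x ∂hm = δ ^ r := by
    intro δ h0 h1
    obtain ⟨hs, hs2, hs3⟩ := hB δ h0 h1
    obtain ⟨p1, p2, p3⟩ := hPAR _ hs
    have hcont : Continuous (kerM r α κ q δ) := Complex.continuous_re.comp p1
    have hsq : ∀ x : G, kerM r α κ q δ x ^ 2 = ‖∑' k : ℤ, mc r α κ q δ k * fourier k x‖ ^ 2 := by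
      intro x
      rw [← kerM_eq, Complex.norm_real, Real.norm_eq_abs, sq_abs]
    have hd : Summable (fun k : ℤ => ‖mc r α κ q δ (k - 1) - mc r α κ q δ k‖) := by
      refine Summable.of_nonneg_of_le (fun _ => norm_nonneg _) (fun k => norm_sub_le _ _)
        (((Equiv.subRight (1 : ℤ)).summable_iff.2 hs).add hs)
    obtain ⟨d1, d2, d3⟩ := hPAR _ hd
    refine ⟨hcont, ?_, ?_, ?_⟩
    · simp_rw [hsq]
      rw [p3]
      refine hs2.trans ?_
      apply div_le_div_of_nonneg_right _ h0.le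
      linarith
    · have hle : ∀ x : G, ‖x‖ ^ 2 * kerM r α κ q δ x ^ 2 ≤
          4 * ‖∑' k : ℤ, (mc r α κ q δ (k - 1) - mc r α κ q δ k) * fourier k x‖ ^ 2 := by
        intro x
        rw [ker_shift _ hs, norm_mul, mul_pow, ← hsq x, ← mul_assoc]
        apply mul_le_mul_of_nonneg_right _ (sq_nonneg _)
        have h := hNRM x
        have hx : 0 ≤ ‖x‖ := norm_nonneg x
        nlinarith [norm_nonneg ((fourier 1 x : ℂ) - 1)]
      have hcn : Continuous (fun x : G => ‖x‖ ^ 2 * kerM r α κ q δ x ^ 2) :=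
        (continuous_norm.pow 2).mul (hcont.pow 2)
      have hcd : Continuous (fun x : G => 4 *
          ‖∑' k : ℤ, (mc r α κ q δ (k - 1) - mc r α κ q δ k) * fourier k x‖ ^ 2) :=
        continuous_const.mul (d1.norm.pow 2)
      calc ∫ x, ‖x‖ ^ 2 * kerM r α κ q δ x ^ 2 ∂hm
          ≤ ∫ x, 4 * ‖∑' k : ℤ, (mc r α κ q δ (k - 1) - mc r α κ q δ k) * fourier k x‖ ^ 2 ∂hm :=
            integral_mono (hcn.integrable_of_hasCompactSupport (HasCompactSupport.of_compactSpace _))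
              (hcd.integrable_of_hasCompactSupport (HasCompactSupport.of_compactSpace _)) hle
        _ = 4 * ∑' k : ℤ, ‖mc r α κ q δ (k - 1) - mc r α κ q δ k‖ ^ 2 := by
            rw [integral_const_mul, d3]
        _ = 4 * ∑' k : ℤ, ‖mc r α κ q δ k - mc r α κ q δ (k - 1)‖ ^ 2 := by
            simp_rw [norm_sub_rev (mc r α κ q δ (_ - 1))]
        _ ≤ 4 * (B * δ) := by linarith
        _ = 4 * B * δ := by ring
    · have h := p2 0
      rw [fourierCoeff] at h
      simp only [neg_zero, fourier_zero, one_smul] at h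
      have e : ∫ x : G, ((kerM r α κ q δ x : ℝ) : ℂ) ∂hm = ((δ ^ r : ℝ) : ℂ) := by
        simp_rw [kerM_eq]
        rw [h]
        unfold mc
        rw [if_pos rfl]
      rw [integral_complex_ofReal] at e
      exact_mod_cast e
  refine ⟨K * Real.sqrt (4 * B), kerM r α κ q, ?_, ⟨fun δ h0 h1 => (basic δ h0 h1).1,
    fun δ h0 h1 => ?_, fun δ h0 h1 ρ hρ => ?_, fun δ h0 h1 => (basic δ h0 h1).2.2.2⟩, ?_⟩
  · have : 1 ≤ Real.sqrt (4 * B) := by
      rw [Real.one_le_sqrt]; linarith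
    nlinarith
  · obtain ⟨b1, b2, b3, -⟩ := basic δ h0 h1
    exact (hK (4 * B) δ _ hB0 h0 h1 b1 b2 b3).1
  · obtain ⟨b1, b2, b3, -⟩ := basic δ h0 h1
    exact (hK (4 * B) δ _ hB0 h0 h1 b1 b2 b3).2 ρ hρ
  · intro δ h0 h1 x hx
    obtain ⟨hs, -, -⟩ := hB δ h0 h1
    obtain ⟨hF1, hF2, hF3⟩ := hFCF r α hr
    have hc := hCON _ _ (kerM r α κ q δ) (FG r α) hs hF2 (fun x => kerM_eq r α κ q δ x) hF3 x
    have hqh : (q : ℝ) * (κ * δ) = δ / 2 := by
      rw [hκ]; field_simp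
    obtain ⟨N, hN1, hN2, hN3⟩ := hSPL q (κ * δ) hq2 (by positivity) (by rw [hqh]; linarith)
    have hδr : (0 : ℝ) < δ ^ r := Real.rpow_pos_of_pos h0 r
    -- summability
    have hsum : Summable (fun k : ℤ => ‖mc r α κ q δ k * fc r α k‖) := by
      refine Summable.of_nonneg_of_le (fun _ => norm_nonneg _) (fun k => ?_)
        (hs.mul_right (∑' k, ‖fc r α k‖))
      rw [norm_mul]
      exact mul_le_mul_of_nonneg_left (hF2.le_tsum k (fun _ _ => norm_nonneg _)) (norm_nonneg _)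
    have hsum2 : Summable (fun k : ℤ => ((Real.sinc (k * (κ * δ)) ^ q : ℝ) : ℂ)) := by
      have h := hsum.of_norm.mul_left (((δ ^ r : ℝ) : ℂ))⁻¹
      refine h.congr fun k => ?_
      rw [ker_mul r α κ q δ h0 k, ← mul_assoc, inv_mul_cancel₀ (by exact_mod_cast hδr.ne'), one_mul]
    let NC : C(G, ℂ) := ⟨fun x => (N x : ℂ), Complex.continuous_ofReal.comp hN1⟩
    have hNC : ∀ k : ℤ, fourierCoeff NC k = ((Real.sinc (k * (κ * δ)) ^ q : ℝ) : ℂ) := hN2
    have hser : HasSum (fun i : ℤ => fourierCoeff NC i • fourier i x) (NC x) :=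
      has_pointwise_sum_fourier_series_of_summable (by
        have : (fourierCoeff NC : ℤ → ℂ) = fun k : ℤ => ((Real.sinc (k * (κ * δ)) ^ q : ℝ) : ℂ) :=
          funext hNC
        rw [this]; exact hsum2) x
    have hval : ∑' k : ℤ, mc r α κ q δ k * fc r α k * fourier k x = ((δ ^ r : ℝ) : ℂ) * (N x : ℂ) := by
      have h2 := hser.mul_left (((δ ^ r : ℝ) : ℂ))
      have e : (fun k : ℤ => mc r α κ q δ k * fc r α k * fourier k x) =
          fun i : ℤ => ((δ ^ r : ℝ) : ℂ) * (fourierCoeff NC i • fourier i x) := by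
        funext k
        rw [ker_mul r α κ q δ h0 k, hNC, smul_eq_mul, mul_assoc]
      rw [e]
      exact h2.tsum_eq
    rw [hval, hN3 x (by rw [hqh]; linarith)] at hc
    simp only [Complex.ofReal_zero, mul_zero] at hc
    exact_mod_cast hc

end

end Pool.Agent.H729R2.CB
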