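import Mathlib
import Pool.Agent.H729R2.CB.Stubs

set_option autoImplicit false

namespace Pool.Agent.H729R2.CB

open MeasureTheory

noncomputable section

/-- the majorant on the integers -/
def l2_s (δ : ℝ) (k : ℤ) : ℝ := 1 / (1 + ((k.natAbs : ℝ) * δ) ^ 2)

theorem l2_s_nonneg (δ : ℝ) (k : ℤ) : 0 ≤ l2_s δ k := by
  unfold l2_s
  positivity

theorem l2_s_le_one (δ : ℝ) (k : ℤ) : l2_s δ k ≤ 1 := by
  unfold l2_s
  rw [div_le_one (by positivity)]
  nlinarith [sq_nonneg ((k.natAbs : ℝ) * δ)]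

theorem l2_s_zero (δ : ℝ) : l2_s δ 0 = 1 := by
  unfold l2_s
  simp

theorem l2_sum (hSUM : S_SUM) (δ : ℝ) (h0 : 0 < δ) (h1 : δ ≤ 1) :
    Summable (l2_s δ) ∧ ∑' k, l2_s δ k ≤ 6 / δ := by
  obtain ⟨hs, ht⟩ := hSUM δ h0 h1
  have e1 : (fun n : ℕ => l2_s δ (n : ℤ)) = fun k : ℕ => 1 / (1 + ((k : ℝ) * δ) ^ 2) := by
    funext n
    unfold l2_s
    simp
  have e2 : (fun n : ℕ => l2_s δ (-(n : ℤ))) = fun k : ℕ => 1 / (1 + ((k : ℝ) * δ) ^ 2) := by
    funext n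
    unfold l2_s
    simp
  have a1 : HasSum (fun n : ℕ => l2_s δ (n : ℤ)) (∑' k : ℕ, 1 / (1 + ((k : ℝ) * δ) ^ 2)) := by
    rw [e1]
    exact hs.hasSum
  have a2 : HasSum (fun n : ℕ => l2_s δ (-(n : ℤ))) (∑' k : ℕ, 1 / (1 + ((k : ℝ) * δ) ^ 2)) := by
    rw [e2]
    exact hs.hasSum
  have a3 := HasSum.of_nat_of_neg a1 a2
  refine ⟨a3.summable, ?_⟩
  rw [a3.tsum_eq, l2_s_zero]
  have : 6 / δ = 3 / δ + 3 / δ := by ring
  linarith

theorem l2_ph (α : ℝ) (k : ℤ) : ‖ph α k‖ = 1 := by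
  unfold ph
  rw [Complex.norm_exp_ofReal_mul_I]

theorem l2_ph_eq (α : ℝ) (k k' : ℤ) (h : Int.sign k = Int.sign k') : ph α k = ph α k' := by
  unfold ph
  rw [h]

theorem l2_abs (k : ℤ) : |(k : ℝ)| = (k.natAbs : ℝ) := by
  rw [Nat.cast_natAbs]
  push_cast
  rfl

theorem l2_rpow {r δ : ℝ} (hr : 1 < r) (h0 : 0 < δ) (h1 : δ ≤ 1) : δ ^ r ≤ δ := by
  calc δ ^ r ≤ δ ^ (1 : ℝ) := Real.rpow_le_rpow_of_exponent_ge h0 h1 hr.le
    _ = δ := Real.rpow_one δ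

theorem l2_norm_mc (r α κ : ℝ) (q : ℕ) (δ : ℝ) (k : ℤ) (hk : k ≠ 0) :
    ‖mc r α κ q δ k‖ = |mu r κ q ((k.natAbs : ℝ) * δ)| := by
  unfold mc
  rw [if_neg hk, norm_mul, l2_ph, mul_one, Complex.norm_real, Real.norm_eq_abs, l2_abs]

theorem l2_diff (r α κ : ℝ) (q : ℕ) (δ : ℝ) (k k' : ℤ) (hk : k ≠ 0) (hk' : k' ≠ 0)
    (h : Int.sign k = Int.sign k') :
    ‖mc r α κ q δ k - mc r α κ q δ k'‖ =
      |mu r κ q ((k.natAbs : ℝ) * δ) - mu r κ q ((k'.natAbs : ℝ) * δ)| := by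
  unfold mc
  rw [if_neg hk, if_neg hk', l2_ph_eq (-α) k k' h, ← sub_mul, norm_mul, l2_ph, mul_one,
    ← Complex.ofReal_sub, Complex.norm_real, Real.norm_eq_abs, l2_abs, l2_abs]

theorem t_L2 (hMU : S_MU) (hSUM : S_SUM) : S_L2 := by
  intro r α κ q hr hκ hκ1 hq
  obtain ⟨B, hB, m1, m2, m3⟩ := hMU r κ q hr hκ hκ1 hq
  have hB0 : 0 < B := by linarith
  refine ⟨96 * B ^ 2, by nlinarith, fun δ h0 h1 => ?_⟩
  obtain ⟨hs, ht⟩ := l2_sum hSUM δ h0 h1
  have hδr : δ ^ r ≤ δ := l2_rpow hr h0 h1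
  have hδr0 : 0 < δ ^ r := Real.rpow_pos_of_pos h0 r
  have hmc0 : ‖mc r α κ q δ 0‖ = δ ^ r := by
    unfold mc
    rw [if_pos rfl, Complex.norm_real, Real.norm_eq_abs, abs_of_pos hδr0]
  -- the size of the coefficients
  have hb : ∀ k : ℤ, ‖mc r α κ q δ k‖ ≤ B * l2_s δ k := by
    intro k
    by_cases hk : k = 0
    · subst hk
      rw [hmc0, l2_s_zero]
      linarith
    · rw [l2_norm_mc r α κ q δ k hk]
      have := m1 ((k.natAbs : ℝ) * δ) (by positivity)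
      unfold l2_s
      rw [mul_one_div]
      exact this
  -- the differences
  have hd : ∀ k : ℤ, ‖mc r α κ q δ k - mc r α κ q δ (k - 1)‖ ≤
      2 * B * δ * (l2_s δ k + l2_s δ (k - 1)) := by
    intro k
    have n1 := l2_s_nonneg δ k
    have n2 := l2_s_nonneg δ (k - 1)
    have hBd : 0 < B * δ := mul_pos hB0 h0
    have hsmall : |mu r κ q δ| ≤ δ := m3 δ h0.le h1
    rcases lt_trichotomy k 0 with hk | hk | hk
    · have e1 : (k - 1).natAbs = k.natAbs + 1 := by omega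
      rw [l2_diff r α κ q δ k (k - 1) (by omega) (by omega)
        (by rw [Int.sign_eq_neg_one_of_neg hk, Int.sign_eq_neg_one_of_neg (by omega)]), e1,
        abs_sub_comm]
      have h := m2 ((k.natAbs : ℝ) * δ) δ (by positivity) h0.le h1
      have e2 : ((k.natAbs + 1 : ℕ) : ℝ) * δ = (k.natAbs : ℝ) * δ + δ := by push_cast; ring
      rw [e2]
      refine h.trans ?_
      have e3 : B * δ / (1 + ((k.natAbs : ℝ) * δ) ^ 2) = B * δ * l2_s δ k := by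
        unfold l2_s; ring
      rw [e3]
      nlinarith [mul_nonneg hBd.le n1, mul_nonneg hBd.le n2]
    · subst hk
      have h := norm_sub_le (mc r α κ q δ 0) (mc r α κ q δ (0 - 1))
      rw [hmc0, l2_norm_mc r α κ q δ (0 - 1) (by omega)] at h
      have e1 : (((0 : ℤ) - 1).natAbs : ℝ) * δ = δ := by simp
      rw [e1] at h
      rw [l2_s_zero]
      nlinarith [mul_nonneg hBd.le n2, mul_le_mul_of_nonneg_right hB h0.le]
    · rcases eq_or_lt_of_le (Int.add_one_le_of_lt hk) with hk1 | hk1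
      · have hk2 : k = 1 := by omega
        subst hk2
        have h := norm_sub_le (mc r α κ q δ 1) (mc r α κ q δ (1 - 1))
        rw [sub_self, hmc0, l2_norm_mc r α κ q δ 1 (by omega)] at h
        have e1 : ((1 : ℤ).natAbs : ℝ) * δ = δ := by simp
        rw [e1] at h
        rw [sub_self, l2_s_zero]
        nlinarith [mul_nonneg hBd.le n1, mul_le_mul_of_nonneg_right hB h0.le]
      · have e1 : k.natAbs = (k - 1).natAbs + 1 := by omega
        rw [l2_diff r α κ q δ k (k - 1) (by omega) (by omega)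
          (by rw [Int.sign_eq_one_of_pos hk, Int.sign_eq_one_of_pos (by omega)]), e1]
        have h := m2 (((k - 1).natAbs : ℝ) * δ) δ (by positivity) h0.le h1
        have e2 : (((k - 1).natAbs + 1 : ℕ) : ℝ) * δ = ((k - 1).natAbs : ℝ) * δ + δ := by
          push_cast; ring
        rw [e2]
        refine h.trans ?_
        have e3 : B * δ / (1 + (((k - 1).natAbs : ℝ) * δ) ^ 2) = B * δ * l2_s δ (k - 1) := by
          unfold l2_s; ring
        rw [e3]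
        nlinarith [mul_nonneg hBd.le n1, mul_nonneg hBd.le n2]
  -- shifted sum
  have hs' : Summable (fun k : ℤ => l2_s δ (k - 1)) :=
    (Equiv.subRight (1 : ℤ)).summable_iff.2 hs
  have ht' : ∑' k : ℤ, l2_s δ (k - 1) = ∑' k : ℤ, l2_s δ k :=
    (Equiv.subRight (1 : ℤ)).tsum_eq (l2_s δ)
  have q1 : ∀ k : ℤ, ‖mc r α κ q δ k‖ ^ 2 ≤ B ^ 2 * l2_s δ k := by
    intro k
    have n1 := l2_s_nonneg δ k
    have n2 := l2_s_le_one δ k
    calc ‖mc r α κ q δ k‖ ^ 2 ≤ (B * l2_s δ k) ^ 2 :=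
          pow_le_pow_left₀ (norm_nonneg _) (hb k) 2
      _ = B ^ 2 * (l2_s δ k * l2_s δ k) := by ring
      _ ≤ B ^ 2 * (l2_s δ k * 1) := by gcongr
      _ = B ^ 2 * l2_s δ k := by ring
  have q2 : ∀ k : ℤ, ‖mc r α κ q δ k - mc r α κ q δ (k - 1)‖ ^ 2 ≤
      8 * B ^ 2 * δ ^ 2 * (l2_s δ k + l2_s δ (k - 1)) := by
    intro k
    have n1 := l2_s_nonneg δ k
    have n2 := l2_s_le_one δ k
    have n3 := l2_s_nonneg δ (k - 1)
    have n4 := l2_s_le_one δ (k - 1)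
    calc ‖mc r α κ q δ k - mc r α κ q δ (k - 1)‖ ^ 2
        ≤ (2 * B * δ * (l2_s δ k + l2_s δ (k - 1))) ^ 2 :=
          pow_le_pow_left₀ (norm_nonneg _) (hd k) 2
      _ = 4 * B ^ 2 * δ ^ 2 * ((l2_s δ k + l2_s δ (k - 1)) * (l2_s δ k + l2_s δ (k - 1))) := by
          ring
      _ ≤ 4 * B ^ 2 * δ ^ 2 * ((l2_s δ k + l2_s δ (k - 1)) * 2) := by
          gcongr
          linarith
      _ = 8 * B ^ 2 * δ ^ 2 * (l2_s δ k + l2_s δ (k - 1)) := by ring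
  have su1 : Summable (fun k : ℤ => B ^ 2 * l2_s δ k) := hs.mul_left _
  have su2 : Summable (fun k : ℤ => 8 * B ^ 2 * δ ^ 2 * (l2_s δ k + l2_s δ (k - 1))) :=
    (hs.add hs').mul_left _
  refine ⟨?_, ?_, ?_⟩
  · exact Summable.of_nonneg_of_le (fun k => norm_nonneg _) hb (hs.mul_left B)
  · have su3 : Summable (fun k : ℤ => ‖mc r α κ q δ k‖ ^ 2) :=
      Summable.of_nonneg_of_le (fun k => by positivity) q1 su1
    calc ∑' k, ‖mc r α κ q δ k‖ ^ 2 ≤ ∑' k, B ^ 2 * l2_s δ k :=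
          Summable.tsum_le_tsum q1 su3 su1
      _ = B ^ 2 * ∑' k, l2_s δ k := tsum_mul_left
      _ ≤ B ^ 2 * (6 / δ) := by gcongr
      _ ≤ 96 * B ^ 2 / δ := by
          rw [mul_div_assoc', div_le_div_iff_of_pos_right h0]
          nlinarith [sq_nonneg B]
  · have su3 : Summable (fun k : ℤ => ‖mc r α κ q δ k - mc r α κ q δ (k - 1)‖ ^ 2) :=
      Summable.of_nonneg_of_le (fun k => by positivity) q2 su2
    calc ∑' k, ‖mc r α κ q δ k - mc r α κ q δ (k - 1)‖ ^ 2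
        ≤ ∑' k : ℤ, 8 * B ^ 2 * δ ^ 2 * (l2_s δ k + l2_s δ (k - 1)) :=
          Summable.tsum_le_tsum q2 su3 su2
      _ = 8 * B ^ 2 * δ ^ 2 * (∑' k, l2_s δ k + ∑' k, l2_s δ k) := by
          rw [tsum_mul_left, Summable.tsum_add hs hs', ht']
      _ ≤ 8 * B ^ 2 * δ ^ 2 * (6 / δ + 6 / δ) := by gcongr
      _ = 96 * B ^ 2 * δ := by
          field_simp
          ring

end

end Pool.Agent.H729R2.CB
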