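import Mathlib
import Pool.Agent.H729R2.CB.Stubs

set_option autoImplicit false

namespace Pool.Agent.H729R2.CB

open MeasureTheory

noncomputable section

theorem mai_s_le_one {r C E : ℝ} {M : ℝ → G → ℝ} {m : ℕ} {ξ : Fin m → G × G} {f : G × G → ℝ}
    {J : ℕ} {s : ℝ} {χ : ℕ → G × G → ℝ} (h : Setup r C E M m ξ f J s χ) : s ≤ 1 := by
  have hJ : (1 : ℝ) ≤ (J : ℝ) ^ 8 := by
    have : (1 : ℝ) ≤ J := by exact_mod_cast h.J1
    exact one_le_pow₀ this
  have hs := h.s0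
  have h1 := h.sJ
  have h2 : (1 : ℝ) ≤ 10 ^ 4 + 8 * C ^ 2 := by nlinarith [sq_nonneg C]
  have h3 : 1 ≤ (10 ^ 4 + 8 * C ^ 2) * (J : ℝ) ^ 8 := one_le_mul_of_one_le_of_one_le h2 hJ
  nlinarith

theorem mai_cont_i1 : Continuous i1 := by
  unfold i1
  fun_prop

theorem mai_cont_i2 : Continuous i2 := by
  unfold i2
  fun_prop

theorem t_MAI (h1 : S_CV1) (h4 : S_CV4) (h5 : S_CV5) : S_MAI := by
  intro r C E M m ξ f J s χ h j hj
  have hs := h.s0
  have hs1 := mai_s_le_one h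
  have ha : 0 < sa s j := by unfold sa; positivity
  have hb : 0 < sb s J j := by unfold sb; positivity
  have ha1 : sa s j ≤ 1 := by unfold sa; exact pow_le_one₀ hs.le hs1
  have hb1 : sb s J j ≤ 1 := by unfold sb; exact pow_le_one₀ hs.le hs1
  have hab : sa s j * sb s J j = s ^ J := by
    unfold sa sb
    rw [← pow_add]
    congr 1
    omega
  have hC := h.hC
  have hcut := h.cut j hj
  have cMa := h.ker.cont _ ha ha1
  have cMb := h.ker.cont _ hb hb1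
  have cf := h.fc
  have cχ := hcut.cont
  have cC2 : Continuous (Cv i2 (M (sb s J j)) (χ j)) := (h1 _ _ _ mai_cont_i2 cMb cχ).1
  have cD1 : Continuous (Dv i1 (M (sa s j)) f) := (h1 _ _ _ mai_cont_i1 cMa cf).2
  have e1 : ∫ x, f x * qf C M s J χ j x ∂hm2 =
      -(1 / (2 * C ^ 2)) * ∫ x, f x * Cv i1 (M (sa s j)) (Cv i2 (M (sb s J j)) (χ j)) x ∂hm2 := by
    rw [← integral_const_mul]
    congr 1
    funext x
    unfold qf
    ring
  have e2 : ∫ x, f x * Cv i1 (M (sa s j)) (Cv i2 (M (sb s J j)) (χ j)) x ∂hm2 =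
      ∫ x, Dv i1 (M (sa s j)) (Dv i2 (M (sb s J j)) f) x * χ j x ∂hm2 := by
    rw [h4 i1 (M (sa s j)) f (Cv i2 (M (sb s J j)) (χ j)) mai_cont_i1 cMa cf cC2,
      h4 i2 (M (sb s J j)) (Dv i1 (M (sa s j)) f) (χ j) mai_cont_i2 cMb cD1 cχ,
      (h5 i1 i2 (M (sa s j)) (M (sb s J j)) f mai_cont_i1 mai_cont_i2 cMa cMb cf).2]
  have e3 : ∀ x, Dv i1 (M (sa s j)) (Dv i2 (M (sb s J j)) f) x * χ j x =
      -((s ^ J) ^ r) * χ j x := by
    intro x
    by_cases hx : χ j x = 0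
    · rw [hx]
      simp
    · have hno : ∀ μ, sa s j ≤ ‖(ξ μ).1 - x.1‖ ∨ sb s J j ≤ ‖(ξ μ).2 - x.2‖ := by
        intro μ
        by_contra hcon
        push Not at hcon
        exact hx (hcut.zero x ⟨μ, hcon.1, hcon.2⟩)
      rw [h.star _ _ ha ha1 hb hb1 x hno, ← Real.mul_rpow ha.le hb.le, hab]
  have e4 : ∫ x, f x * qf C M s J χ j x ∂hm2 =
      1 / (2 * C ^ 2) * ((s ^ J) ^ r * ∫ x, χ j x ∂hm2) := by
    rw [e1, e2]
    simp only [e3]
    rw [integral_const_mul]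
    ring
  have hχ : 1 / 2 ≤ ∫ x, χ j x ∂hm2 := by
    have h6 := hcut.int
    have h7 : (m : ℝ) * sa s j * sb s J j = m * s ^ J := by
      rw [mul_assoc, hab]
    rw [h7] at h6
    have h8 := h.ms
    linarith
  rw [e4]
  have hp : 0 ≤ (s ^ J) ^ r := by positivity
  have hC0 : 0 < C := by linarith
  have hc2 : 0 < 1 / (2 * C ^ 2) := by positivity
  calc 1 / (4 * C ^ 2) * (s ^ J) ^ r = 1 / (2 * C ^ 2) * ((s ^ J) ^ r * (1 / 2)) := by
        field_simp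
        ring
    _ ≤ 1 / (2 * C ^ 2) * ((s ^ J) ^ r * ∫ x, χ j x ∂hm2) := by
        gcongr

end

end Pool.Agent.H729R2.CB
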