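import Mathlib
import Pool.Agent.H729R2.CB.Stubs

set_option autoImplicit false

namespace Pool.Agent.H729R2.CB

open MeasureTheory

/-- derivative of `sinc` off zero -/
theorem mu_hasDerivAt_sinc {v : ℝ} (hv : v ≠ 0) :
    HasDerivAt Real.sinc ((Real.cos v * v - Real.sin v) / v ^ 2) v := by
  have h1 : HasDerivAt (fun x => Real.sin x / x) ((Real.cos v * v - Real.sin v * 1) / v ^ 2) v :=
    (Real.hasDerivAt_sin v).div (hasDerivAt_id v) hv
  rw [mul_one] at h1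
  apply h1.congr_of_eventuallyEq
  filter_upwards [isOpen_ne.mem_nhds hv] with x hx
  exact Real.sinc_of_ne_zero hx

theorem mu_sinc_deriv_le {v : ℝ} (hv : 0 < v) :
    |(Real.cos v * v - Real.sin v) / v ^ 2| ≤ 2 / v := by
  rw [abs_div, abs_of_pos (by positivity : (0 : ℝ) < v ^ 2), div_le_div_iff₀ (by positivity) hv]
  have h1 : |Real.cos v * v - Real.sin v| ≤ 2 * v := by
    have h2 : |Real.cos v * v| ≤ v := by
      rw [abs_mul, abs_of_pos hv]
      have := Real.abs_cos_le_one v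
      nlinarith
    have h3 : |Real.sin v| ≤ v := by
      have := Real.abs_sin_le_abs (x := v)
      rwa [abs_of_pos hv] at this
    calc |Real.cos v * v - Real.sin v| ≤ |Real.cos v * v| + |Real.sin v| := abs_sub _ _
      _ ≤ 2 * v := by linarith
  nlinarith

theorem mu_sinc_le {v : ℝ} (hv : 0 < v) : |Real.sinc v| ≤ v⁻¹ := by
  rw [Real.sinc_of_ne_zero hv.ne', abs_div, abs_of_pos hv, div_eq_mul_inv]
  exact mul_le_of_le_one_left (by positivity) (Real.abs_sin_le_one v)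

theorem mu_pow_le {r κ : ℝ} {q : ℕ} (hr : 1 < r) (hκ : 0 < κ) (hκ1 : κ ≤ 1) (hq : r + 2 ≤ q)
    {u : ℝ} (hu : 0 < u) (s : ℝ) (n : ℕ) (hs0 : 0 ≤ s) (hsn : s + 2 ≤ n) (hnq : n ≤ q) :
    u ^ s * |Real.sinc (κ * u)| ^ n ≤ 2 * (κ⁻¹) ^ q / (1 + u ^ 2) := by
  have hκi : 1 ≤ κ⁻¹ := (one_le_inv₀ hκ).mpr hκ1
  have hκq : (1 : ℝ) ≤ (κ⁻¹) ^ q := one_le_pow₀ hκi
  have hS1 : |Real.sinc (κ * u)| ^ n ≤ 1 := pow_le_one₀ (abs_nonneg _) (Real.abs_sinc_le_one _)
  rw [le_div_iff₀ (by positivity)]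
  rcases le_total u 1 with h | h
  · have h1 : u ^ s ≤ 1 := Real.rpow_le_one hu.le h hs0
    have h2 : u ^ s * |Real.sinc (κ * u)| ^ n ≤ 1 :=
      mul_le_one₀ h1 (by positivity) hS1
    have h3 : 1 + u ^ 2 ≤ 2 := by nlinarith
    calc u ^ s * |Real.sinc (κ * u)| ^ n * (1 + u ^ 2) ≤ 1 * 2 :=
          mul_le_mul h2 h3 (by positivity) zero_le_one
      _ ≤ 2 * (κ⁻¹) ^ q := by linarith
  · have h1 : |Real.sinc (κ * u)| ^ n ≤ (κ⁻¹) ^ q * u ^ (-(n : ℝ)) := by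
      calc |Real.sinc (κ * u)| ^ n ≤ ((κ * u)⁻¹) ^ n :=
            pow_le_pow_left₀ (abs_nonneg _) (mu_sinc_le (by positivity)) n
        _ = (κ⁻¹) ^ n * u ^ (-(n : ℝ)) := by
            rw [mul_inv, mul_pow, Real.rpow_neg hu.le, Real.rpow_natCast, inv_pow u]
        _ ≤ (κ⁻¹) ^ q * u ^ (-(n : ℝ)) := by
            apply mul_le_mul_of_nonneg_right _ (by positivity)
            exact pow_le_pow_right₀ hκi hnq
    have h2 : u ^ s * u ^ (-(n : ℝ)) ≤ (u ^ 2)⁻¹ := by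
      rw [← Real.rpow_add hu]
      have h3 : u ^ (s + -(n : ℝ)) ≤ u ^ (-2 : ℝ) :=
        Real.rpow_le_rpow_of_exponent_le h (by linarith)
      refine h3.trans (le_of_eq ?_)
      rw [Real.rpow_neg hu.le]
      norm_cast
    have h4 : u ^ s * |Real.sinc (κ * u)| ^ n ≤ (κ⁻¹) ^ q * (u ^ 2)⁻¹ := by
      calc u ^ s * |Real.sinc (κ * u)| ^ n ≤ u ^ s * ((κ⁻¹) ^ q * u ^ (-(n : ℝ))) :=
            mul_le_mul_of_nonneg_left h1 (by positivity)
        _ = (κ⁻¹) ^ q * (u ^ s * u ^ (-(n : ℝ))) := by ring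
        _ ≤ _ := mul_le_mul_of_nonneg_left h2 (by positivity)
    calc u ^ s * |Real.sinc (κ * u)| ^ n * (1 + u ^ 2)
        ≤ (κ⁻¹) ^ q * (u ^ 2)⁻¹ * (1 + u ^ 2) := mul_le_mul_of_nonneg_right h4 (by positivity)
      _ = (κ⁻¹) ^ q * ((u ^ 2)⁻¹ + 1) := by field_simp
      _ ≤ (κ⁻¹) ^ q * 2 := by
          apply mul_le_mul_of_nonneg_left _ (by positivity)
          have : (u ^ 2)⁻¹ ≤ 1 := inv_le_one_of_one_le₀ (one_le_pow₀ h)
          linarith
      _ = _ := by ring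

theorem mu_hasDerivAt {r κ : ℝ} {q : ℕ} (hκ : 0 < κ) {u : ℝ} (hu : 0 < u) :
    HasDerivAt (mu r κ q) (r * u ^ (r - 1) * (Real.sinc (κ * u)) ^ q +
      u ^ r * ((q : ℝ) * (Real.sinc (κ * u)) ^ (q - 1) *
        (((Real.cos (κ * u) * (κ * u) - Real.sin (κ * u)) / (κ * u) ^ 2) * κ))) u := by
  have h1 : HasDerivAt (fun x : ℝ => x ^ r) (r * u ^ (r - 1)) u :=
    Real.hasDerivAt_rpow_const (Or.inl hu.ne')
  have h2 : HasDerivAt (fun x : ℝ => Real.sinc (κ * x))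
      (((Real.cos (κ * u) * (κ * u) - Real.sin (κ * u)) / (κ * u) ^ 2) * κ) u := by
    have h3 : HasDerivAt (fun x : ℝ => κ * x) κ u := by
      simpa using (hasDerivAt_id u).const_mul κ
    exact (mu_hasDerivAt_sinc (v := κ * u) (by positivity)).comp u h3
  exact h1.mul (h2.pow q)

theorem mu_deriv_le {r κ : ℝ} {q : ℕ} (hr : 1 < r) (hκ : 0 < κ) (hκ1 : κ ≤ 1) (hq : r + 2 ≤ q)
    {u : ℝ} (hu : 0 < u) :
    |r * u ^ (r - 1) * (Real.sinc (κ * u)) ^ q +
      u ^ r * ((q : ℝ) * (Real.sinc (κ * u)) ^ (q - 1) *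
        (((Real.cos (κ * u) * (κ * u) - Real.sin (κ * u)) / (κ * u) ^ 2) * κ))| ≤
      (r + 2 * q) * (2 * (κ⁻¹) ^ q) / (1 + u ^ 2) := by
  have hq1 : 1 ≤ q := by
    have : (1 : ℝ) ≤ q := by linarith
    exact_mod_cast this
  have hS0 : 0 ≤ |Real.sinc (κ * u)| := abs_nonneg _
  have hS1 : |Real.sinc (κ * u)| ≤ 1 := Real.abs_sinc_le_one _
  have hcast : (((q - 1 : ℕ) : ℕ) : ℝ) = q - 1 := by
    rw [Nat.cast_sub hq1, Nat.cast_one]
  have key := mu_pow_le hr hκ hκ1 hq hu (r - 1) (q - 1) (by linarith)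
    (by rw [hcast]; linarith) (Nat.sub_le _ _)
  have hu1 : u ^ r = u ^ (r - 1) * u := by
    rw [← Real.rpow_add_one hu.ne']; congr 1; ring
  have e1 : |r * u ^ (r - 1) * (Real.sinc (κ * u)) ^ q| ≤
      r * (u ^ (r - 1) * |Real.sinc (κ * u)| ^ (q - 1)) := by
    rw [abs_mul, abs_mul, abs_of_pos (by linarith : (0 : ℝ) < r),
      abs_of_nonneg (Real.rpow_nonneg hu.le _), abs_pow, mul_assoc]
    apply mul_le_mul_of_nonneg_left _ (by linarith)
    apply mul_le_mul_of_nonneg_left _ (Real.rpow_nonneg hu.le _)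
    exact pow_le_pow_of_le_one hS0 hS1 (Nat.sub_le _ _)
  have e2 : |u ^ r * ((q : ℝ) * (Real.sinc (κ * u)) ^ (q - 1) *
        (((Real.cos (κ * u) * (κ * u) - Real.sin (κ * u)) / (κ * u) ^ 2) * κ))| ≤
      2 * q * (u ^ (r - 1) * |Real.sinc (κ * u)| ^ (q - 1)) := by
    have h3 := mu_sinc_deriv_le (v := κ * u) (by positivity)
    rw [abs_mul, abs_mul, abs_mul, abs_mul, abs_pow, Nat.abs_cast, abs_of_pos hκ,
      abs_of_nonneg (Real.rpow_nonneg hu.le r)]
    calc u ^ r * ((q : ℝ) * |Real.sinc (κ * u)| ^ (q - 1) *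
          (|(Real.cos (κ * u) * (κ * u) - Real.sin (κ * u)) / (κ * u) ^ 2| * κ))
        ≤ u ^ r * ((q : ℝ) * |Real.sinc (κ * u)| ^ (q - 1) * ((2 / (κ * u)) * κ)) := by gcongr
      _ = 2 * q * (u ^ (r - 1) * |Real.sinc (κ * u)| ^ (q - 1)) := by
          rw [hu1]
          field_simp
  calc _ ≤ _ := abs_add_le _ _
    _ ≤ r * (u ^ (r - 1) * |Real.sinc (κ * u)| ^ (q - 1)) +
        2 * q * (u ^ (r - 1) * |Real.sinc (κ * u)| ^ (q - 1)) := add_le_add e1 e2
    _ = (r + 2 * q) * (u ^ (r - 1) * |Real.sinc (κ * u)| ^ (q - 1)) := by ring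
    _ ≤ (r + 2 * q) * (2 * (κ⁻¹) ^ q / (1 + u ^ 2)) := by
        apply mul_le_mul_of_nonneg_left key
        positivity
    _ = _ := by ring

theorem t_MU : S_MU := by
  intro r κ q hr hκ hκ1 hq
  have hκi : 1 ≤ κ⁻¹ := (one_le_inv₀ hκ).mpr hκ1
  have hκq : (1 : ℝ) ≤ (κ⁻¹) ^ q := one_le_pow₀ hκi
  have hq0 : (0 : ℝ) ≤ q := Nat.cast_nonneg q
  have hc : (1 : ℝ) ≤ r + 2 * q := by linarith
  set B : ℝ := (r + 2 * q) * (2 * (κ⁻¹) ^ q) with hB
  have hB2 : 2 * (κ⁻¹) ^ q ≤ B := by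
    rw [hB]
    nlinarith
  have hcont : Continuous (mu r κ q) := by
    unfold mu
    exact (Real.continuous_rpow_const (by linarith)).mul
      ((Real.continuous_sinc.comp (continuous_const.mul continuous_id)).pow q)
  have hr0 : (0 : ℝ) ^ r = 0 := Real.zero_rpow (by linarith)
  refine ⟨B, by linarith, ?_, ?_, ?_⟩
  · intro u hu
    rcases eq_or_lt_of_le hu with h | h
    · subst h
      have : mu r κ q 0 = 0 := by unfold mu; rw [hr0, zero_mul]
      rw [this, abs_zero]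
      have : 0 ≤ B := by linarith
      positivity
    · have h1 := mu_pow_le hr hκ hκ1 hq h r q (by linarith) hq le_rfl
      have h2 : |mu r κ q u| = u ^ r * |Real.sinc (κ * u)| ^ q := by
        unfold mu
        rw [abs_mul, abs_pow, abs_of_nonneg (Real.rpow_nonneg hu r)]
      rw [h2]
      refine h1.trans ?_
      apply div_le_div_of_nonneg_right hB2 (by positivity)
  · intro u h hu hh hh1
    rcases eq_or_lt_of_le hh with h0 | h0
    · subst h0
      simp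
    · obtain ⟨c, hc1, hc2⟩ := exists_hasDerivAt_eq_slope (mu r κ q)
        (fun u => r * u ^ (r - 1) * (Real.sinc (κ * u)) ^ q +
          u ^ r * ((q : ℝ) * (Real.sinc (κ * u)) ^ (q - 1) *
          (((Real.cos (κ * u) * (κ * u) - Real.sin (κ * u)) / (κ * u) ^ 2) * κ)))
        (show u < u + h by linarith) hcont.continuousOn
        (fun x hx => mu_hasDerivAt hκ (lt_of_le_of_lt hu hx.1))
      have hcpos : 0 < c := lt_of_le_of_lt hu hc1.1
      have h3 := mu_deriv_le hr hκ hκ1 hq hcpos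
      rw [hc2, add_sub_cancel_left, abs_div, abs_of_pos h0, div_le_iff₀ h0] at h3
      refine h3.trans ?_
      rw [div_mul_eq_mul_div]
      apply div_le_div_of_nonneg_left
      · have : 0 ≤ B := by linarith
        positivity
      · positivity
      · have := hc1.1
        nlinarith
  · intro u hu hu1
    unfold mu
    rw [abs_mul, abs_pow, abs_of_nonneg (Real.rpow_nonneg hu r)]
    have h1 : |Real.sinc (κ * u)| ^ q ≤ 1 := pow_le_one₀ (abs_nonneg _) (Real.abs_sinc_le_one _)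
    have h2 : u ^ r ≤ u := by
      rcases eq_or_lt_of_le hu with h | h
      · subst h; rw [hr0]
      · calc u ^ r ≤ u ^ (1 : ℝ) := Real.rpow_le_rpow_of_exponent_ge h hu1 hr.le
          _ = u := Real.rpow_one u
    calc u ^ r * |Real.sinc (κ * u)| ^ q ≤ u ^ r * 1 :=
          mul_le_mul_of_nonneg_left h1 (Real.rpow_nonneg hu r)
      _ ≤ u := by rw [mul_one]; exact h2

end Pool.Agent.H729R2.CB
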