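import Mathlib
import Pool.Agent.H729R2.CB.Stubs

set_option autoImplicit false

namespace Pool.Agent.H729R2.CB

open MeasureTheory

noncomputable section

private theorem nm_ball (c : G) (a : ℝ) (ha : 0 < a) :
    hm (Metric.closedBall c a) ≤ ENNReal.ofReal a := by
  have h1 : volume (Metric.closedBall c a) = ENNReal.ofReal (min (2 * Real.pi) (2 * a)) :=
    AddCircle.volume_closedBall (2 * Real.pi) a
  have h2 : volume (Metric.closedBall c a) =
      ENNReal.ofReal (2 * Real.pi) * hm (Metric.closedBall c a) := by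
    rw [AddCircle.volume_eq_smul_haarAddCircle]
    rfl
  have h3 : ENNReal.ofReal (2 * Real.pi) * hm (Metric.closedBall c a) ≤
      ENNReal.ofReal (2 * Real.pi) * ENNReal.ofReal a := by
    rw [← h2, h1, ← ENNReal.ofReal_mul (by positivity)]
    apply ENNReal.ofReal_le_ofReal
    refine (min_le_right _ _).trans ?_
    nlinarith [Real.pi_gt_three]
  have h4 : ENNReal.ofReal (2 * Real.pi) ≠ 0 := by
    rw [Ne, ENNReal.ofReal_eq_zero, not_le]
    positivity
  exact (ENNReal.mul_le_mul_iff_right h4 ENNReal.ofReal_ne_top).mp h3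

/-- NM: the measure of the set of points near a node -/
theorem t_NM : S_NM := by
  intro m ξ a b ha hb
  have hsub : {x : G × G | ∃ μ, ‖(ξ μ).1 - x.1‖ < a ∧ ‖(ξ μ).2 - x.2‖ < b} ⊆
      ⋃ μ : Fin m, Metric.closedBall (ξ μ).1 a ×ˢ Metric.closedBall (ξ μ).2 b := by
    rintro x ⟨μ, h1, h2⟩
    refine Set.mem_iUnion.mpr ⟨μ, ?_, ?_⟩
    · rw [Metric.mem_closedBall, dist_comm, dist_eq_norm]
      exact h1.le
    · rw [Metric.mem_closedBall, dist_comm, dist_eq_norm]
      exact h2.le
  have hle : hm2 {x : G × G | ∃ μ, ‖(ξ μ).1 - x.1‖ < a ∧ ‖(ξ μ).2 - x.2‖ < b} ≤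
      ENNReal.ofReal (m * a * b) := by
    refine (measure_mono hsub).trans ((measure_iUnion_le _).trans ?_)
    rw [tsum_fintype]
    refine (Finset.sum_le_sum (g := fun _ => ENNReal.ofReal a * ENNReal.ofReal b)
      fun μ _ => ?_).trans (le_of_eq ?_)
    · rw [Measure.prod_prod]
      exact mul_le_mul' (nm_ball _ a ha) (nm_ball _ b hb)
    · rw [Finset.sum_const, Finset.card_univ, Fintype.card_fin, nsmul_eq_mul, mul_assoc,
        ENNReal.ofReal_mul (Nat.cast_nonneg m), ENNReal.ofReal_mul ha.le, ENNReal.ofReal_natCast]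
  exact ENNReal.toReal_le_of_le_ofReal (by positivity) hle

end

end Pool.Agent.H729R2.CB
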