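import Mathlib
import Pool.Agent.H729R2.CB.Stubs

set_option autoImplicit false

namespace Pool.Agent.H729R2.CB

open MeasureTheory Pool.Agent.Helper150.Cub

theorem t_NRM : S_NRM := by
  intro x
  induction x using QuotientAddGroup.induction_on with
  | H y0 =>
    have hp : (0 : ℝ) < 2 * Real.pi := by positivity
    have h1 : ‖((y0 : ℝ) : AddCircle (2 * Real.pi))‖ =
      |y0 - round ((2 * Real.pi)⁻¹ * y0) * (2 * Real.pi)| := AddCircle.norm_eq _
    have h2 : ((y0 - round ((2 * Real.pi)⁻¹ * y0) * (2 * Real.pi) : ℝ) : AddCircle (2 * Real.pi)) =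
        ((y0 : ℝ) : AddCircle (2 * Real.pi)) := by
      rw [AddCircle.coe_sub]
      have : ((round ((2 * Real.pi)⁻¹ * y0) * (2 * Real.pi) : ℝ) : AddCircle (2 * Real.pi)) = 0 := by
        rw [AddCircle.coe_eq_zero_iff]
        exact ⟨round ((2 * Real.pi)⁻¹ * y0), by simp⟩
      rw [this, sub_zero]
    have h3 : ‖((y0 : ℝ) : AddCircle (2 * Real.pi))‖ ≤ |2 * Real.pi| / 2 :=
      AddCircle.norm_le_half_period _ hp.ne'
    change ‖((y0 : ℝ) : AddCircle (2 * Real.pi))‖ ≤
      2 * ‖(fourier 1 ((y0 : ℝ) : AddCircle (2 * Real.pi)) : ℂ) - 1‖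
    rw [abs_of_pos hp] at h3
    generalize y0 - round ((2 * Real.pi)⁻¹ * y0) * (2 * Real.pi) = y at h1 h2
    rw [← h2, fourier_coe_apply, h2, h1]
    rw [h1] at h3
    have h4 : (2 * (Real.pi : ℂ) * Complex.I * ((1 : ℤ) : ℂ) * (y : ℂ) / ((2 * Real.pi : ℝ) : ℂ)) =
        Complex.I * (y : ℂ) := by
      have : (Real.pi : ℂ) ≠ 0 := by exact_mod_cast Real.pi_ne_zero
      push_cast
      field_simp
    rw [h4, Complex.norm_exp_I_mul_ofReal_sub_one]
    have h5 : |y / 2| ≤ Real.pi / 2 := by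
      rw [abs_div, abs_of_pos (by norm_num : (0 : ℝ) < 2)]
      linarith
    have h6 := Real.mul_abs_le_abs_sin h5
    rw [abs_div, abs_of_pos (by norm_num : (0 : ℝ) < 2)] at h6
    rw [Real.norm_eq_abs, abs_mul, abs_of_pos (by norm_num : (0 : ℝ) < 2)]
    have h7 : (1 : ℝ) / 4 ≤ 1 / Real.pi := by
      apply one_div_le_one_div_of_le Real.pi_pos
      exact Real.pi_le_four
    have h8 : 2 / Real.pi * (|y| / 2) = 1 / Real.pi * |y| := by ring
    rw [h8] at h6
    have h9 := mul_le_mul_of_nonneg_right h7 (abs_nonneg y)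
    linarith

end Pool.Agent.H729R2.CB
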