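import Mathlib
import Pool.Agent.H729R2.CB.Stubs

set_option autoImplicit false

/-! Absolutely convergent Fourier series and Parseval (task PAR). -/

namespace Pool.Agent.H729R2.CB

open MeasureTheory

noncomputable section

lemma par_norm (k : ℤ) (x : G) : ‖(fourier k x : ℂ)‖ = 1 := by
  rw [fourier_apply]
  exact Circle.norm_coe _

lemma par_cont {c : ℤ → ℂ} (hc : Summable (fun k => ‖c k‖)) :
    Continuous (fun x : G => ∑' k, c k * fourier k x) := by
  refine continuous_tsum (u := fun k => ‖c k‖) (fun k => by fun_prop) hc fun k x => ?_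
  rw [norm_mul, par_norm, mul_one]

lemma par_int (k : ℤ) : ∫ x : G, (fourier k x : ℂ) ∂hm = if k = 0 then 1 else 0 := by
  have h := (orthonormal_iff_ite.mp (orthonormal_fourier (T := 2 * Real.pi))) 0 k
  rw [ContinuousMap.inner_toLp (AddCircle.haarAddCircle) (fourier 0) (fourier k)] at h
  simp_rw [← fourier_neg, ← fourier_add] at h
  have h2 : k + -0 = k := by ring
  rw [h2] at h
  rw [h]
  by_cases hk : k = 0
  · subst hk; simp
  · rw [if_neg hk, if_neg (Ne.symm hk)]

lemma par_coeff {c : ℤ → ℂ} (hc : Summable (fun k => ‖c k‖)) (n : ℤ) :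
    fourierCoeff (fun x : G => ∑' k, c k * fourier k x) n = c n := by
  unfold fourierCoeff
  have h1 : ∀ k : ℤ, Integrable (fun x : G => c k * (fourier (k - n) x : ℂ)) hm := by
    intro k
    have hcont : Continuous (fun x : G => c k * (fourier (k - n) x : ℂ)) := by fun_prop
    exact hcont.integrable_of_hasCompactSupport (HasCompactSupport.of_compactSpace _)
  have h2 : Summable (fun k : ℤ => ∫ x : G, ‖c k * (fourier (k - n) x : ℂ)‖ ∂hm) := by
    refine hc.congr fun k => ?_
    simp only [norm_mul, par_norm, mul_one, integral_const, probReal_univ, one_smul]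
  have h3 := hasSum_integral_of_summable_integral_norm h1 h2
  have h4 : (fun x : G => ∑' k, c k * (fourier (k - n) x : ℂ)) =
      fun x : G => fourier (-n) x • ∑' k, c k * (fourier k x : ℂ) := by
    funext x
    rw [smul_eq_mul, ← tsum_mul_left]
    refine tsum_congr fun k => ?_
    rw [sub_eq_add_neg, fourier_add]
    ring
  rw [h4] at h3
  have h5 : ∀ k : ℤ, ∫ x : G, c k * (fourier (k - n) x : ℂ) ∂hm = if k = n then c n else 0 := by
    intro k
    rw [integral_const_mul, par_int]
    by_cases hk : k = n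
    · subst hk; simp
    · have : k - n ≠ 0 := sub_ne_zero.mpr hk
      rw [if_neg this, if_neg hk, mul_zero]
  simp only [h5] at h3
  exact h3.unique (hasSum_ite_eq n (c n))

theorem t_PAR : S_PAR := by
  intro c hc
  refine ⟨par_cont hc, fun k => par_coeff hc k, ?_⟩
  set g : C(G, ℂ) := ⟨fun x : G => ∑' k, c k * fourier k x, par_cont hc⟩ with hg
  have h := tsum_sq_fourierCoeff (ContinuousMap.toLp (E := ℂ) 2 AddCircle.haarAddCircle ℂ g)
  have h1 := ContinuousMap.coeFn_toLp (p := 2) (𝕜 := ℂ) (AddCircle.haarAddCircle (T := 2 * Real.pi)) g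
  rw [fourierCoeff_congr_ae h1] at h
  have h2 : ∫ t : G, ‖(ContinuousMap.toLp (E := ℂ) 2 AddCircle.haarAddCircle ℂ g : G → ℂ) t‖ ^ 2
      ∂AddCircle.haarAddCircle = ∫ t : G, ‖g t‖ ^ 2 ∂AddCircle.haarAddCircle := by
    refine integral_congr_ae ?_
    filter_upwards [h1] with t ht
    rw [ht]
  rw [h2] at h
  have h3 : ∀ i : ℤ, fourierCoeff (g : G → ℂ) i = c i := fun i => par_coeff hc i
  simp only [h3] at h
  exact h.symm

end

end Pool.Agent.H729R2.CB
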