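import Mathlib
import Pool.Agent.H729R2.CB.Stubs

set_option autoImplicit false

namespace Pool.Agent.H729R2.CB

open MeasureTheory

theorem qf_i1 : Continuous i1 := by unfold i1; fun_prop

theorem qf_i2 : Continuous i2 := by unfold i2; fun_prop

theorem qf_scale (s : ℝ) (hs : 0 < s) (hs1 : s ≤ 1) (J j : ℕ) :
    0 < sa s j ∧ sa s j ≤ 1 ∧ 0 < sb s J j ∧ sb s J j ≤ 1 := by
  unfold sa sb
  exact ⟨pow_pos hs _, pow_le_one₀ hs.le hs1, pow_pos hs _, pow_le_one₀ hs.le hs1⟩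

theorem qf_s_le_one (C s : ℝ) (J : ℕ) (hC : 1 ≤ C) (hJ : 1 ≤ J) (hs : 0 < s)
    (h : (10 ^ 4 + 8 * C ^ 2) * (J : ℝ) ^ 8 * s ≤ 1) : s ≤ 1 := by
  have h1 : (1 : ℝ) ≤ J := by exact_mod_cast hJ
  have h2 : (1 : ℝ) ≤ (J : ℝ) ^ 8 := one_le_pow₀ h1
  have h3 : (1 : ℝ) ≤ 10 ^ 4 + 8 * C ^ 2 := by
    have : 0 ≤ C ^ 2 := by positivity
    linarith
  have h4 : (1 : ℝ) ≤ (10 ^ 4 + 8 * C ^ 2) * (J : ℝ) ^ 8 := by
    calc (1 : ℝ) = 1 * 1 := by ring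
      _ ≤ _ := mul_le_mul h3 h2 zero_le_one (by positivity)
  calc s = 1 * s := by ring
    _ ≤ (10 ^ 4 + 8 * C ^ 2) * (J : ℝ) ^ 8 * s := mul_le_mul_of_nonneg_right h4 hs.le
    _ ≤ 1 := h

theorem qf_aux (C x y : ℝ) (hC : 1 ≤ C) (h : |x| ≤ C * (C * y)) :
    |-(1 / (2 * C ^ 2)) * x| ≤ y / 2 := by
  rw [abs_mul, abs_neg, abs_of_nonneg (by positivity)]
  calc 1 / (2 * C ^ 2) * |x| ≤ 1 / (2 * C ^ 2) * (C * (C * y)) := by gcongr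
    _ = y / 2 := by field_simp

theorem t_QF (h1 : S_CV1) (h2 : S_CV2) (h3 : S_CV3) : S_QF := by
  intro r C E M m ξ f J s χ hS j hj
  have hs1 : s ≤ 1 := qf_s_le_one C s J hS.hC hS.J1 hS.s0 hS.sJ
  obtain ⟨ha0, ha1, hb0, hb1⟩ := qf_scale s hS.s0 hs1 J j
  have hcut := hS.cut j hj
  have hMa := hS.ker.cont (sa s j) ha0 ha1
  have hMb := hS.ker.cont (sb s J j) hb0 hb1
  have hla := hS.ker.l1 (sa s j) ha0 ha1
  have hlb := hS.ker.l1 (sb s J j) hb0 hb1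
  have hχ1 : ∀ x, |χ j x| ≤ 1 := fun x => by
    rw [abs_of_nonneg (hcut.nonneg x)]; exact hcut.le_one x
  have hg : Continuous (Cv i2 (M (sb s J j)) (χ j)) := (h1 i2 _ _ qf_i2 hMb hcut.cont).1
  have hgb := (h2 i2 _ _ 1 C qf_i2 hMb hcut.cont hχ1 hlb).1
  have hq := (h1 i1 _ _ qf_i1 hMa hg).1
  have hqb := (h2 i1 _ _ (C * 1) C qf_i1 hMa hg hgb hla).1
  refine ⟨?_, ?_, ?_, ?_⟩
  · unfold qf
    exact continuous_const.mul hq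
  · intro x
    unfold qf
    exact qf_aux C _ 1 hS.hC (hqb x)
  · intro x t
    have hl1 := h3 i2 _ _ (i1 t) (‖t‖ / sa s j) C qf_i2 hMb hcut.cont
      (fun x => hcut.lip1 x t) hlb
    have hl2 := h3 i1 _ _ (i1 t) (C * (‖t‖ / sa s j)) C qf_i1 hMa hg hl1 hla x
    unfold qf
    rw [← mul_sub]
    exact qf_aux C _ _ hS.hC hl2
  · intro x t
    have hl1 := h3 i2 _ _ (i2 t) (‖t‖ / sb s J j) C qf_i2 hMb hcut.cont
      (fun x => hcut.lip2 x t) hlb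
    have hl2 := h3 i1 _ _ (i2 t) (C * (‖t‖ / sb s J j)) C qf_i1 hMa hg hl1 hla x
    unfold qf
    rw [← mul_sub]
    exact qf_aux C _ _ hS.hC hl2

end Pool.Agent.H729R2.CB
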