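import Mathlib
import Pool.Agent.H729R2.CB.Stubs

set_option autoImplicit false

namespace Pool.Agent.H729R2.CB

open MeasureTheory

noncomputable section

namespace SPL

/-- average over an interval of half length `h` -/
def A (h : ℝ) (g : G → ℝ) (x : G) : ℝ := (2 * h)⁻¹ * ∫ s in (-h)..h, g (x - (s : G))

theorem meas_coe : Measurable ((↑) : ℝ → G) := AddCircle.measurable_mk'

theorem intble {g : G → ℝ} (hg : Measurable g) {B : ℝ} (hB : ∀ x, |g x| ≤ B) (y : G) (a b : ℝ) :
    IntervalIntegrable (fun s : ℝ => g (y - (s : G))) volume a b := by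
  rw [intervalIntegrable_iff]
  apply Measure.integrableOn_of_bounded (M := B)
  · exact measure_Ioc_lt_top.ne
  · exact (hg.comp (measurable_const.sub meas_coe)).aestronglyMeasurable
  · filter_upwards with s
    rw [Real.norm_eq_abs]
    exact hB _

theorem A_bdd {h : ℝ} (hh : 0 < h) {g : G → ℝ} {B : ℝ} (hB : ∀ x, |g x| ≤ B) (x : G) :
    |A h g x| ≤ B := by
  unfold A
  rw [abs_mul, abs_of_pos (by positivity : 0 < (2 * h)⁻¹)]
  have h1 : |∫ s in (-h)..h, g (x - (s : G))| ≤ B * |h - (-h)| := by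
    rw [← Real.norm_eq_abs]
    apply intervalIntegral.norm_integral_le_of_norm_le_const
    intro s _
    rw [Real.norm_eq_abs]
    exact hB _
  have h2 : |h - (-h)| = 2 * h := by rw [abs_of_pos (by linarith)]; ring
  rw [h2] at h1
  calc (2 * h)⁻¹ * |∫ s in (-h)..h, g (x - (s : G))| ≤ (2 * h)⁻¹ * (B * (2 * h)) := by gcongr
    _ = B := by field_simp

theorem A_cont (h : ℝ) {g : G → ℝ} (hg : Measurable g) {B : ℝ} (hB : ∀ x, |g x| ≤ B) :
    Continuous (A h g) := by
  have hq : Topology.IsQuotientMap ((↑) : ℝ → G) := QuotientAddGroup.isQuotientMap_mk _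
  rw [hq.continuous_iff]
  have hint : ∀ a b : ℝ, IntervalIntegrable (fun u : ℝ => g (u : G)) volume a b := by
    intro a b
    rw [intervalIntegrable_iff]
    apply Measure.integrableOn_of_bounded (M := B)
    · exact measure_Ioc_lt_top.ne
    · exact (hg.comp meas_coe).aestronglyMeasurable
    · filter_upwards with s
      rw [Real.norm_eq_abs]
      exact hB _
  have h1 : (A h g ∘ ((↑) : ℝ → G)) = fun y : ℝ => (2 * h)⁻¹ *
      ((∫ u in (0 : ℝ)..(y + h), g (u : G)) - ∫ u in (0 : ℝ)..(y - h), g (u : G)) := by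
    funext y
    simp only [Function.comp, A]
    have h2 := intervalIntegral.integral_comp_sub_left (fun u : ℝ => g (u : G)) y (a := -h) (b := h)
    simp only [AddCircle.coe_sub] at h2
    rw [h2, sub_neg_eq_add, intervalIntegral.integral_interval_sub_left (hint _ _) (hint _ _)]
  rw [h1]
  have h3 := intervalIntegral.continuous_primitive hint 0
  have h4 : Continuous (fun y : ℝ => ∫ u in (0 : ℝ)..(y + h), g (u : G)) :=
    h3.comp (continuous_id.add continuous_const)
  have h5 : Continuous (fun y : ℝ => ∫ u in (0 : ℝ)..(y - h), g (u : G)) :=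
    h3.comp (continuous_id.sub continuous_const)
  exact continuous_const.mul (h4.sub h5)

theorem A_supp {h : ℝ} (hh : 0 < h) {g : G → ℝ} {ρ : ℝ} (hg : ∀ x, ρ < ‖x‖ → g x = 0) (x : G)
    (hx : ρ + h < ‖x‖) : A h g x = 0 := by
  unfold A
  have h1 : (∫ s in (-h)..h, g (x - (s : G))) = ∫ s in (-h)..h, (0 : ℝ) := by
    apply intervalIntegral.integral_congr
    intro s hs
    rw [Set.uIcc_of_le (by linarith)] at hs
    apply hg
    have h2 : ‖x‖ ≤ ‖x - (s : G)‖ + ‖(s : G)‖ := by
      have : x = (x - (s : G)) + (s : G) := by abel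
      calc ‖x‖ = ‖(x - (s : G)) + (s : G)‖ := by rw [← this]
        _ ≤ _ := norm_add_le _ _
    have h3 : ‖(s : G)‖ ≤ |s| := by
      exact QuotientAddGroup.norm_mk_le_norm
    have h4 : |s| ≤ h := abs_le.mpr hs
    linarith
  rw [h1]
  simp

theorem fourier_mul_arg (n : ℤ) (x y : G) : (fourier n (x + y) : ℂ) = fourier n x * fourier n y := by
  simp only [fourier_apply, smul_add, AddCircle.toCircle_add, Circle.coe_mul]

theorem exp_int (k : ℤ) {h : ℝ} (hh : 0 < h) :
    ∫ s in (-h)..h, (fourier (-k) (s : G) : ℂ) = ((2 * h * Real.sinc (k * h) : ℝ) : ℂ) := by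
  have hpi := Real.pi_ne_zero
  have h1 : ∀ s : ℝ, (fourier (-k) (s : G) : ℂ) = Complex.exp ((-(k : ℂ) * Complex.I) * (s : ℂ)) := by
    intro s
    rw [fourier_coe_apply]
    congr 1
    push_cast
    have : (Real.pi : ℂ) ≠ 0 := by exact_mod_cast hpi
    field_simp
  simp only [h1]
  by_cases hk : k = 0
  · subst hk
    simp
    ring
  · have hkc : (k : ℂ) ≠ 0 := by exact_mod_cast hk
    have hkr : (k : ℝ) ≠ 0 := by exact_mod_cast hk
    have hc : -(k : ℂ) * Complex.I ≠ 0 := mul_ne_zero (neg_ne_zero.mpr hkc) Complex.I_ne_zero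
    rw [integral_exp_mul_complex hc, Real.sinc_of_ne_zero (mul_ne_zero hkr hh.ne')]
    push_cast
    rw [Complex.sin]
    have hhc : (h : ℂ) ≠ 0 := by exact_mod_cast hh.ne'
    have e1 : -(k : ℂ) * Complex.I * (h : ℂ) = -((k : ℂ) * h) * Complex.I := by ring
    have e2 : -(k : ℂ) * Complex.I * (-(h : ℂ)) = ((k : ℂ) * h) * Complex.I := by ring
    rw [e1, e2]
    field_simp
    rw [Complex.I_sq]
    ring

theorem A_coeff {h : ℝ} (hh : 0 < h) {g : G → ℝ} (hg : Measurable g) {B : ℝ}
    (hB : ∀ x, |g x| ≤ B) (k : ℤ) :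
    fourierCoeff (fun x : G => ((A h g x : ℝ) : ℂ)) k =
      ((Real.sinc (k * h) : ℝ) : ℂ) * fourierCoeff (fun x : G => ((g x : ℝ) : ℂ)) k := by
  have hle : -h ≤ h := by linarith
  unfold fourierCoeff
  have h1 : ∀ x : G, (fourier (-k) x : ℂ) • ((A h g x : ℝ) : ℂ) =
      ((2 * h : ℝ) : ℂ)⁻¹ * ∫ s in Set.Ioc (-h) h, (fourier (-k) x : ℂ) * ((g (x - (s : G)) : ℝ) : ℂ) := by
    intro x
    unfold A
    rw [smul_eq_mul, intervalIntegral.integral_of_le hle, integral_const_mul]
    push_cast
    rw [integral_complex_ofReal]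
    ring
  simp only [h1]
  rw [integral_const_mul, integral_integral_swap]
  · have h2 : ∀ s : ℝ, ∫ x : G, (fourier (-k) x : ℂ) * ((g (x - (s : G)) : ℝ) : ℂ) ∂hm =
        fourier (-k) (s : G) * ∫ x : G, (fourier (-k) x : ℂ) • ((g x : ℝ) : ℂ) ∂hm := by
      intro s
      have h3 := integral_sub_right_eq_self (μ := hm)
        (fun y : G => (fourier (-k) (y + (s : G)) : ℂ) * ((g y : ℝ) : ℂ)) (s : G)
      simp only [sub_add_cancel] at h3
      rw [h3, ← integral_const_mul]
      congr 1
      funext y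
      rw [fourier_mul_arg, smul_eq_mul]
      ring
    simp only [h2]
    rw [integral_mul_const, ← intervalIntegral.integral_of_le hle, exp_int k hh]
    push_cast
    have hhc : (h : ℂ) ≠ 0 := by exact_mod_cast hh.ne'
    field_simp
  · apply Integrable.of_bound (C := B)
    · apply Measurable.aestronglyMeasurable
      apply Measurable.mul
      · exact ((fourier (-k)).continuous.measurable).comp measurable_fst
      · apply Complex.measurable_ofReal.comp
        exact hg.comp (measurable_fst.sub (meas_coe.comp measurable_snd))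
    · filter_upwards with p
      simp only [Function.uncurry]
      rw [norm_mul, fourier_apply, Circle.norm_coe, one_mul, Complex.norm_real, Real.norm_eq_abs]
      exact hB _

/-- the normalised indicator -/
def be (h : ℝ) (x : G) : ℝ := (Metric.closedBall (0 : G) h).indicator (fun _ => Real.pi / h) x

theorem be_meas (h : ℝ) : Measurable (be h) :=
  measurable_const.indicator Metric.isClosed_closedBall.measurableSet

theorem be_bdd {h : ℝ} (hh : 0 < h) (x : G) : |be h x| ≤ Real.pi / h := by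
  have hpi := Real.pi_pos
  unfold be
  by_cases hx : x ∈ Metric.closedBall (0 : G) h
  · rw [Set.indicator_of_mem hx, abs_of_pos (by positivity)]
  · rw [Set.indicator_of_notMem hx, abs_zero]
    positivity

theorem be_supp (h : ℝ) (x : G) (hx : h < ‖x‖) : be h x = 0 := by
  unfold be
  apply Set.indicator_of_notMem
  rw [mem_closedBall_zero_iff, not_le]
  exact hx

theorem be_coeff {h : ℝ} (hh : 0 < h) (h1 : h ≤ 1) (k : ℤ) :
    fourierCoeff (fun x : G => ((be h x : ℝ) : ℂ)) k = ((Real.sinc (k * h) : ℝ) : ℂ) := by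
  have hpi := Real.pi_pos
  have hpi3 := Real.pi_gt_three
  rw [fourierCoeff_eq_intervalIntegral _ _ (-Real.pi)]
  have e0 : -Real.pi + 2 * Real.pi = Real.pi := by ring
  rw [e0, intervalIntegral.integral_of_le (by linarith)]
  have e1 : ∀ x ∈ Set.Ioc (-Real.pi) Real.pi, (fourier (-k) (x : G) : ℂ) • ((be h (x : G) : ℝ) : ℂ) =
      (Set.Icc (-h) h).indicator (fun x : ℝ => ((Real.pi / h : ℝ) : ℂ) * (fourier (-k) (x : G) : ℂ)) x := by
    intro x hx
    have hn : ‖(x : G)‖ = |x| := by
      rw [AddCircle.norm_coe_eq_abs_iff (2 * Real.pi) (by positivity)]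
      rw [abs_of_pos (by positivity : 0 < 2 * Real.pi), mul_div_cancel_left₀ _ (by norm_num)]
      exact abs_le.mpr ⟨hx.1.le, hx.2⟩
    by_cases hxh : x ∈ Set.Icc (-h) h
    · rw [Set.indicator_of_mem hxh]
      unfold be
      rw [Set.indicator_of_mem]
      · rw [smul_eq_mul, mul_comm]
      · rw [mem_closedBall_zero_iff, hn]; exact abs_le.mpr hxh
    · rw [Set.indicator_of_notMem hxh]
      unfold be
      rw [Set.indicator_of_notMem]
      · simp
      · rw [mem_closedBall_zero_iff, hn]
        intro h'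
        exact hxh (abs_le.mp h')
  rw [setIntegral_congr_fun measurableSet_Ioc e1, setIntegral_indicator measurableSet_Icc]
  have e2 : Set.Ioc (-Real.pi) Real.pi ∩ Set.Icc (-h) h = Set.Icc (-h) h := by
    apply Set.inter_eq_right.mpr
    intro x hx
    exact ⟨by linarith [hx.1], by linarith [hx.2]⟩
  rw [e2, integral_Icc_eq_integral_Ioc, ← intervalIntegral.integral_of_le (by linarith),
    intervalIntegral.integral_const_mul, exp_int k hh]
  rw [Complex.real_smul]
  push_cast
  have hpc : (Real.pi : ℂ) ≠ 0 := by exact_mod_cast hpi.ne'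
  have hhc : (h : ℂ) ≠ 0 := by exact_mod_cast hh.ne'
  field_simp

theorem iter {h : ℝ} (hh : 0 < h) (h1 : h ≤ 1) (m : ℕ) :
    Measurable ((A h)^[m] (be h)) ∧ (∃ B, ∀ x, |(A h)^[m] (be h) x| ≤ B) ∧
      (∀ k : ℤ, fourierCoeff (fun x : G => (((A h)^[m] (be h) x : ℝ) : ℂ)) k =
        ((Real.sinc (k * h) ^ (m + 1) : ℝ) : ℂ)) ∧
      (∀ x : G, (m + 1 : ℕ) * h < ‖x‖ → (A h)^[m] (be h) x = 0) ∧
      (1 ≤ m → Continuous ((A h)^[m] (be h))) := by
  induction m with
  | zero =>
    refine ⟨be_meas h, ⟨_, be_bdd hh⟩, ?_, ?_, by omega⟩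
    · intro k
      simp only [Function.iterate_zero, id, zero_add, pow_one]
      exact be_coeff hh h1 k
    · intro x hx
      apply be_supp
      simpa using hx
  | succ m ih =>
    obtain ⟨hm1, ⟨B, hB⟩, hc, hs, -⟩ := ih
    have hcont := A_cont h hm1 hB
    simp only [Function.iterate_succ_apply']
    refine ⟨hcont.measurable, ⟨B, A_bdd hh hB⟩, ?_, ?_, fun _ => hcont⟩
    · intro k
      rw [A_coeff hh hm1 hB k, hc k]
      push_cast
      ring
    · intro x hx
      apply A_supp hh hs
      push_cast at hx ⊢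
      linarith

end SPL

theorem t_SPL : S_SPL := by
  intro q h hq hh hqh
  have h1 : h ≤ 1 := by
    have : (2 : ℝ) ≤ q := by exact_mod_cast hq
    nlinarith
  obtain ⟨-, -, hc, hs, hcont⟩ := SPL.iter hh h1 (q - 1)
  have e : q - 1 + 1 = q := by omega
  rw [e] at hs
  simp only [e] at hc
  exact ⟨_, hcont (by omega), hc, hs⟩

end

end Pool.Agent.H729R2.CB
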