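import Mathlib
import Pool.Agent.H729R2.CB.Stubs

set_option autoImplicit false

namespace Pool.Agent.H729R2.CB

open MeasureTheory Pool.Agent.Helper150.Cub

noncomputable section

theorem star_int {g : G → ℝ} (hg : Continuous g) : Integrable g hm :=
  hg.integrable_of_hasCompactSupport (HasCompactSupport.of_compactSpace g)

theorem t_STAR (hF : S_FCF) : S_STAR := by
  intro r α C M hr hK h0 m w ξ
  have hFc : Continuous (FG r α) := (hF r α hr).1
  have hcont : Continuous (errF r α w ξ) := by
    unfold errF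
    fun_prop
  refine ⟨hcont, ?_⟩
  intro a b ha0 ha1 hb0 hb1 y hy
  have hMa := hK.cont a ha0 ha1
  have hMb := hK.cont b hb0 hb1
  -- first step
  have h2 : ∀ y : G × G, Dv i2 (M b) (errF r α w ξ) y =
      ∑ μ, w μ * (FG r α ((ξ μ).1 - y.1) * ∫ t, M b t * FG r α (((ξ μ).2 - y.2) - t) ∂hm) -
        b ^ r := by
    intro y
    unfold Dv
    have e : ∀ t, M b t * errF r α w ξ (y + i2 t) =
        ∑ μ, w μ * FG r α ((ξ μ).1 - y.1) * (M b t * FG r α (((ξ μ).2 - y.2) - t)) - M b t := by
      intro t
      unfold errF i2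
      rw [mul_sub, mul_one, Finset.mul_sum]
      congr 1
      refine Finset.sum_congr rfl fun μ _ => ?_
      simp only [Prod.fst_add, Prod.snd_add, add_zero, sub_sub]
      ring
    simp only [e]
    rw [integral_sub, integral_finsetSum]
    · congr 1
      · refine Finset.sum_congr rfl fun μ _ => ?_
        rw [integral_const_mul, mul_assoc]
      · exact hK.mean b hb0 hb1
    · intro μ _
      exact star_int (by fun_prop)
    · exact star_int (by fun_prop)
    · exact star_int hMb
  have h1 : Dv i1 (M a) (Dv i2 (M b) (errF r α w ξ)) y =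
      ∑ μ, w μ * ((∫ t, M a t * FG r α (((ξ μ).1 - y.1) - t) ∂hm) *
        ∫ t, M b t * FG r α (((ξ μ).2 - y.2) - t) ∂hm) - a ^ r * b ^ r := by
    have e0 : Dv i1 (M a) (Dv i2 (M b) (errF r α w ξ)) y =
        ∫ t, M a t * Dv i2 (M b) (errF r α w ξ) (y + i1 t) ∂hm := rfl
    rw [e0]
    have e : ∀ t, M a t * Dv i2 (M b) (errF r α w ξ) (y + i1 t) =
        ∑ μ, (w μ * ∫ t, M b t * FG r α (((ξ μ).2 - y.2) - t) ∂hm) *
          (M a t * FG r α (((ξ μ).1 - y.1) - t)) - b ^ r * M a t := by
      intro t
      rw [h2, mul_sub, Finset.mul_sum]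
      congr 1
      · refine Finset.sum_congr rfl fun μ _ => ?_
        have e3 : (y + i1 t).2 = y.2 := by simp [i1]
        have e4 : (ξ μ).1 - (y + i1 t).1 = ((ξ μ).1 - y.1) - t := by
          simp only [i1, Prod.fst_add, sub_sub]
        rw [e3, e4]
        ring
      · ring
    simp only [e]
    rw [integral_sub, integral_finsetSum]
    · congr 1
      · refine Finset.sum_congr rfl fun μ _ => ?_
        rw [integral_const_mul]
        ring
      · rw [integral_const_mul, hK.mean a ha0 ha1]
        ring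
    · intro μ _
      exact star_int (by fun_prop)
    · exact star_int (by fun_prop)
    · exact star_int (by fun_prop)
  rw [h1]
  have hz : ∑ μ, w μ * ((∫ t, M a t * FG r α (((ξ μ).1 - y.1) - t) ∂hm) *
        ∫ t, M b t * FG r α (((ξ μ).2 - y.2) - t) ∂hm) = 0 := by
    refine Finset.sum_eq_zero fun μ _ => ?_
    rcases hy μ with h | h
    · rw [h0 a ha0 ha1 _ h, zero_mul, mul_zero]
    · rw [h0 b hb0 hb1 _ h, mul_zero, mul_zero]
  rw [hz, zero_sub]

end

end Pool.Agent.H729R2.CB
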