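import Mathlib
import Pool.Agent.H729R2.CB.Stubs

set_option autoImplicit false

namespace Pool.Agent.H729R2.CB

open MeasureTheory

theorem sum_arctan (a b : ℝ) (ha : 0 ≤ a) (hab : a ≤ b) :
    1 / (1 + b ^ 2) * (b - a) ≤ Real.arctan b - Real.arctan a := by
  refine Convex.mul_sub_le_image_sub_of_le_deriv (D := Set.Icc a b) (convex_Icc a b)
    Real.continuous_arctan.continuousOn Real.differentiable_arctan.differentiableOn ?_
    a (Set.left_mem_Icc.mpr hab) b (Set.right_mem_Icc.mpr hab) hab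
  intro x hx
  rw [interior_Icc] at hx
  rw [Real.deriv_arctan]
  have h0 : 0 ≤ x := ha.trans hx.1.le
  have h1 : x ^ 2 ≤ b ^ 2 := pow_le_pow_left₀ h0 hx.2.le 2
  exact one_div_le_one_div_of_le (by positivity) (by linarith)

theorem sum_term (δ : ℝ) (hδ : 0 < δ) (k : ℕ) :
    1 / (1 + (((k + 1 : ℕ) : ℝ) * δ) ^ 2) ≤
      (Real.arctan (((k + 1 : ℕ) : ℝ) * δ) - Real.arctan ((k : ℝ) * δ)) / δ := by
  rw [le_div_iff₀ hδ]
  have h := sum_arctan ((k : ℝ) * δ) (((k + 1 : ℕ) : ℝ) * δ) (by positivity) (by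
    push_cast; nlinarith)
  have e : ((k + 1 : ℕ) : ℝ) * δ - (k : ℝ) * δ = δ := by push_cast; ring
  rwa [e] at h

theorem sum_partial (δ : ℝ) (hδ : 0 < δ) (n : ℕ) :
    ∑ k ∈ Finset.range (n + 1), 1 / (1 + ((k : ℝ) * δ) ^ 2) ≤ 1 + Real.arctan ((n : ℝ) * δ) / δ := by
  induction n with
  | zero => simp
  | succ n ih =>
    rw [Finset.sum_range_succ]
    have h := sum_term δ hδ n
    rw [sub_div] at h
    linarith

theorem t_SUM : S_SUM := by
  intro δ hδ hδ1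
  have hb : ∀ n : ℕ, ∑ k ∈ Finset.range n, 1 / (1 + ((k : ℝ) * δ) ^ 2) ≤ 3 / δ := by
    intro n
    have hle : ∑ k ∈ Finset.range n, 1 / (1 + ((k : ℝ) * δ) ^ 2) ≤
        ∑ k ∈ Finset.range (n + 1), 1 / (1 + ((k : ℝ) * δ) ^ 2) := by
      rw [Finset.sum_range_succ]
      have : 0 ≤ 1 / (1 + ((n : ℝ) * δ) ^ 2) := by positivity
      linarith
    refine hle.trans ((sum_partial δ hδ n).trans ?_)
    have h1 : Real.arctan ((n : ℝ) * δ) ≤ 2 := by
      have := Real.arctan_lt_pi_div_two ((n : ℝ) * δ)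
      have := Real.pi_lt_four
      linarith
    rw [le_div_iff₀ hδ, add_mul, div_mul_cancel₀ _ hδ.ne']
    linarith
  have h0 : ∀ k : ℕ, 0 ≤ 1 / (1 + ((k : ℝ) * δ) ^ 2) := fun k => by positivity
  exact ⟨summable_of_sum_range_le h0 hb, Real.tsum_le_of_sum_range_le h0 hb⟩

end Pool.Agent.H729R2.CB
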