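import Mathlib
import Pool.Agent.H729R2.CB.Stubs

/-!
# SUP: the error of the cubature formula dominates the sup norm of `errF` (helper497)
-/

set_option autoImplicit false

namespace Pool.Agent.H729R2.CB

open MeasureTheory Pool.Agent.Helper150.Cub

noncomputable section

/-- the quotient map of the plane -/
def sup_q (x : ℝ × ℝ) : G × G := ((x.1 : G), (x.2 : G))

lemma sup_q_cont : Continuous sup_q := by
  unfold sup_q
  exact ((AddCircle.continuous_mk' _).comp continuous_fst).prodMk
    ((AddCircle.continuous_mk' _).comp continuous_snd)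

lemma sup_mp1 : MeasurePreserving (fun x : ℝ => (x : G)) (volume.restrict (Set.Ico 0 (2 * Real.pi)))
    (ENNReal.ofReal (2 * Real.pi) • hm) := by
  have h := AddCircle.measurePreserving_mk (2 * Real.pi) 0
  rw [zero_add, AddCircle.volume_eq_smul_haarAddCircle] at h
  rw [Measure.restrict_congr_set Ico_ae_eq_Ioc]
  exact h

lemma sup_mp2 : MeasurePreserving sup_q ((volume : Measure (ℝ × ℝ)).restrict sq)
    ((ENNReal.ofReal (2 * Real.pi) * ENNReal.ofReal (2 * Real.pi)) • hm2) := by
  have h := sup_mp1.prod sup_mp1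
  have e1 : (volume : Measure (ℝ × ℝ)).restrict sq =
      (volume.restrict (Set.Ico 0 (2 * Real.pi))).prod (volume.restrict (Set.Ico 0 (2 * Real.pi))) := by
    unfold Pool.Agent.Helper150.Cub.sq
    rw [Measure.prod_restrict]
    rfl
  rw [e1]
  have e2 : (ENNReal.ofReal (2 * Real.pi) • hm).prod (ENNReal.ofReal (2 * Real.pi) • hm) =
      (ENNReal.ofReal (2 * Real.pi) * ENNReal.ofReal (2 * Real.pi)) • hm2 := by
    rw [Measure.prod_smul_left, Measure.prod_smul_right, smul_smul]
  rw [← e2]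
  exact h

/-- transfer of averages -/
lemma sup_avg {E : Type*} [NormedAddCommGroup E] [NormedSpace ℝ E] (H : G × G → E)
    (hH : Continuous H) : avg (fun x => H (sup_q x)) = ∫ z, H z ∂hm2 := by
  unfold avg
  have hpi : 0 < 2 * Real.pi := by positivity
  have h := sup_mp2
  have e : ∫ x in sq, H (sup_q x) = ∫ z, H z ∂((ENNReal.ofReal (2 * Real.pi) * ENNReal.ofReal (2 * Real.pi)) • hm2) := by
    rw [← h.map_eq]
    exact (integral_map h.measurable.aemeasurable hH.aestronglyMeasurable).symm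
  rw [e, integral_smul_measure, smul_smul, ENNReal.toReal_mul, ENNReal.toReal_ofReal hpi.le]
  have : ((2 * Real.pi) ^ 2)⁻¹ * (2 * Real.pi * (2 * Real.pi)) = 1 := by
    field_simp
  rw [this, one_smul]

lemma sup_int {E : Type*} [NormedAddCommGroup E] (H : G × G → E) (hH : Continuous H) : Integrable H hm2 := by
  have h : IntegrableOn H Set.univ hm2 := hH.continuousOn.integrableOn_compact isCompact_univ
  rwa [integrableOn_univ] at h

instance sup_neg : Measure.IsNegInvariant hm2 := by
  have h := (Measure.measurePreserving_neg hm).prod (Measure.measurePreserving_neg hm)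
  exact ⟨h.map_eq⟩

/-- `∫ F_r = 1` -/
lemma sup_FG_int {r : ℝ} (hr : 1 < r) (α : ℝ) : ∫ t, FG r α t ∂hm = 1 := by
  have h := AddCircle.intervalIntegral_preimage (2 * Real.pi) 0 (FG r α)
  have hpi : 0 < 2 * Real.pi := by positivity
  rw [zero_add, AddCircle.volume_eq_smul_haarAddCircle, integral_smul_measure,
    ENNReal.toReal_ofReal hpi.le] at h
  have e : ∫ a in (0 : ℝ)..(2 * Real.pi), FG r α (a : G) = 2 * Real.pi := by
    refine Eq.trans ?_ (F1_integral hr α)
    refine intervalIntegral.integral_congr fun x _ => ?_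
    exact Function.Periodic.lift_coe _ x
  rw [e] at h
  have h2 : (2 * Real.pi) * (∫ t, FG r α t ∂hm) = (2 * Real.pi) * 1 := by
    rw [mul_one]
    exact h.symm
  exact mul_left_cancel₀ hpi.ne' h2

/-- the double kernel -/
def sup_K (r α : ℝ) (u z : G × G) : ℝ := FG r α (u.1 - z.1) * FG r α (u.2 - z.2)

lemma sup_K_cont {r α : ℝ} (hF : Continuous (FG r α)) : Continuous (fun p : (G × G) × (G × G) => sup_K r α p.1 p.2) := by
  unfold sup_K
  fun_prop

lemma sup_K_int {r : ℝ} (hr : 1 < r) {α : ℝ} (z : G × G) : ∫ u, sup_K r α u z ∂hm2 = 1 := by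
  unfold sup_K
  have h := integral_prod_mul (μ := hm) (ν := hm) (fun a : G => FG r α (a - z.1)) (fun b : G => FG r α (b - z.2))
  rw [h, integral_sub_right_eq_self (fun a : G => FG r α a), integral_sub_right_eq_self (fun a : G => FG r α a),
    sup_FG_int hr, one_mul]

/-- the convolution on the group -/
def sup_g (r α : ℝ) (φ : G × G → ℝ) (u : G × G) : ℝ := ∫ z, φ z * sup_K r α u z ∂hm2

lemma sup_g_cont {r α : ℝ} (hF : Continuous (FG r α)) (φ : G × G → ℝ) (hφ : Continuous φ) :
    Continuous (sup_g r α φ) := by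
  have h := continuous_parametric_integral_of_continuous (μ := hm2)
    (f := fun (u : G × G) (z : G × G) => φ z * sup_K r α u z)
    (by
      have := sup_K_cont hF
      exact (hφ.comp continuous_snd).mul this) (isCompact_univ (X := G × G))
  simp only [Measure.restrict_univ] at h
  exact h

lemma sup_g_int {r : ℝ} (hr : 1 < r) {α : ℝ} (hF : Continuous (FG r α)) (φ : G × G → ℝ) (hφ : Continuous φ) :
    ∫ u, sup_g r α φ u ∂hm2 = ∫ z, φ z ∂hm2 := by
  unfold sup_g
  rw [integral_integral_swap]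
  · refine integral_congr_ae (Filter.Eventually.of_forall fun z => ?_)
    simp only
    rw [integral_const_mul, sup_K_int hr, mul_one]
  · have hc : Continuous (Function.uncurry fun (u z : G × G) => φ z * sup_K r α u z) :=
      (hφ.comp continuous_snd).mul (sup_K_cont hF)
    have h : IntegrableOn (Function.uncurry fun (u z : G × G) => φ z * sup_K r α u z) Set.univ (hm2.prod hm2) :=
      hc.continuousOn.integrableOn_compact isCompact_univ
    rwa [integrableOn_univ] at h

/-- the convolution in the plane -/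
lemma sup_conv (𝕜 : Type) [RCLike 𝕜] {r α : ℝ} (hF : Continuous (FG r α)) (φ : G × G → ℝ) (hφ : Continuous φ)
    (x : ℝ × ℝ) :
    conv (fun y : ℝ × ℝ => ((φ (sup_q y) : ℝ) : 𝕜)) (fun y => ((F2 r α y : ℝ) : 𝕜)) x =
      ((sup_g r α φ (sup_q x) : ℝ) : 𝕜) := by
  unfold conv
  have e1 : (fun y : ℝ × ℝ => ((φ (sup_q (x - y)) : ℝ) : 𝕜) * ((F2 r α y : ℝ) : 𝕜)) =
      fun y => (fun z : G × G => ((φ (sup_q x - z) * (FG r α z.1 * FG r α z.2) : ℝ) : 𝕜)) (sup_q y) := by
    funext y
    have e2 : sup_q (x - y) = sup_q x - sup_q y := by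
      unfold sup_q
      rfl
    have e3 : F2 r α y = FG r α (sup_q y).1 * FG r α (sup_q y).2 := by
      unfold F2 sup_q
      have a1 : FG r α ((y.1 : ℝ) : G) = F1 r α y.1 := Function.Periodic.lift_coe _ _
      have a2 : FG r α ((y.2 : ℝ) : G) = F1 r α y.2 := Function.Periodic.lift_coe _ _
      rw [a1, a2]
    rw [e2, e3]
    push_cast
    rfl
  rw [e1, sup_avg (fun z : G × G => ((φ (sup_q x - z) * (FG r α z.1 * FG r α z.2) : ℝ) : 𝕜))]
  · rw [integral_ofReal]
    congr 1
    unfold sup_g sup_K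
    rw [← integral_sub_left_eq_self _ hm2 (sup_q x)]
    refine integral_congr_ae (Filter.Eventually.of_forall fun z => ?_)
    simp only [sub_sub_cancel, Prod.fst_sub, Prod.snd_sub]
  · refine RCLike.continuous_ofReal.comp ?_
    exact (hφ.comp (continuous_const.sub continuous_id)).mul
      ((hF.comp continuous_fst).mul (hF.comp continuous_snd))

/-- integrals of `errF` against continuous functions -/
lemma sup_pair (𝕜 : Type) [RCLike 𝕜] {r α : ℝ} (hr : 1 < r) (hF : Continuous (FG r α)) {m : ℕ} (w : Fin m → 𝕜)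
    (ξ : Fin m → ℝ × ℝ) (E : ℝ) (hE : 0 ≤ E) (hw : cubErr (W 𝕜 r α) w ξ ≤ ENNReal.ofReal E)
    (φ : G × G → ℝ) (hφ : Continuous φ) (h1 : ∫ z, |φ z| ∂hm2 ≤ 1) :
    |∫ z, φ z * errF r α (fun μ => RCLike.re (w μ)) (fun μ => sup_q (ξ μ)) z ∂hm2| ≤ E := by
  set Φ : ℝ × ℝ → 𝕜 := fun y => ((φ (sup_q y) : ℝ) : 𝕜) with hΦ
  have hΦc : Continuous Φ := RCLike.continuous_ofReal.comp (hφ.comp sup_q_cont)
  have hW : conv Φ (fun y => ((F2 r α y : ℝ) : 𝕜)) ∈ W 𝕜 r α := by
    refine ⟨Φ, ?_, ?_, ?_, rfl⟩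
    · intro x y
      have hp : ∀ a : ℝ, ((a + 2 * Real.pi : ℝ) : G) = (a : G) := fun a => AddCircle.coe_add_period _ a
      simp only [hΦ, sup_q]
      rw [hp, hp]
      exact ⟨rfl, rfl⟩
    · have h : IntegrableOn Φ (Set.Icc 0 (2 * Real.pi) ×ˢ Set.Icc 0 (2 * Real.pi)) :=
        hΦc.continuousOn.integrableOn_compact (isCompact_Icc.prod isCompact_Icc)
      exact h.mono_set (Set.prod_mono Set.Ico_subset_Icc_self Set.Ico_subset_Icc_self)
    · have e : (fun x => ‖Φ x‖) = fun x => (fun z => |φ z|) (sup_q x) := by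
        funext x
        simp only [hΦ, RCLike.norm_ofReal]
      rw [e, sup_avg _ hφ.abs]
      exact h1
  have hb : ENNReal.ofReal ‖∑ μ, w μ * conv Φ (fun y => ((F2 r α y : ℝ) : 𝕜)) (ξ μ) -
      avg (conv Φ (fun y => ((F2 r α y : ℝ) : 𝕜)))‖ ≤ ENNReal.ofReal E := by
    refine le_trans ?_ hw
    unfold cubErr
    exact le_iSup₂ (f := fun f (_ : f ∈ W 𝕜 r α) => ENNReal.ofReal ‖∑ μ, w μ * f (ξ μ) - avg f‖) _ hW
  rw [ENNReal.ofReal_le_ofReal_iff hE] at hb
  have ef : conv Φ (fun y => ((F2 r α y : ℝ) : 𝕜)) = fun x => ((sup_g r α φ (sup_q x) : ℝ) : 𝕜) :=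
    funext fun x => sup_conv 𝕜 hF φ hφ x
  rw [ef] at hb
  have ea : avg (fun x => ((sup_g r α φ (sup_q x) : ℝ) : 𝕜)) = ((∫ z, φ z ∂hm2 : ℝ) : 𝕜) := by
    rw [sup_avg (fun z => ((sup_g r α φ z : ℝ) : 𝕜)) (RCLike.continuous_ofReal.comp (sup_g_cont hF φ hφ)),
      integral_ofReal, sup_g_int hr hF φ hφ]
  rw [ea] at hb
  have hre := (RCLike.abs_re_le_norm _).trans hb
  have e4 : RCLike.re (∑ μ, w μ * ((sup_g r α φ (sup_q (ξ μ)) : ℝ) : 𝕜) - ((∫ z, φ z ∂hm2 : ℝ) : 𝕜)) =
      ∫ z, φ z * errF r α (fun μ => RCLike.re (w μ)) (fun μ => sup_q (ξ μ)) z ∂hm2 := by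
    rw [map_sub, map_sum, RCLike.ofReal_re]
    have hint : ∀ μ, Integrable (fun z => RCLike.re (w μ) * (φ z * sup_K r α (sup_q (ξ μ)) z)) hm2 := by
      intro μ
      apply sup_int
      refine continuous_const.mul (hφ.mul ?_)
      exact (sup_K_cont hF).comp (continuous_const.prodMk continuous_id)
    have e5 : (fun z => φ z * errF r α (fun μ => RCLike.re (w μ)) (fun μ => sup_q (ξ μ)) z) =
        fun z => (∑ μ, RCLike.re (w μ) * (φ z * sup_K r α (sup_q (ξ μ)) z)) - φ z := by
      funext z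
      unfold errF sup_K
      rw [mul_sub, Finset.mul_sum, mul_one]
      congr 1
      refine Finset.sum_congr rfl fun μ _ => ?_
      ring
    rw [e5, integral_sub (integrable_finsetSum _ fun μ _ => hint μ) (sup_int _ hφ),
      integral_finsetSum _ fun μ _ => hint μ]
    congr 1
    refine Finset.sum_congr rfl fun μ _ => ?_
    rw [RCLike.re_mul_ofReal, integral_const_mul]
    rfl
  rw [e4] at hre
  exact hre

lemma sup_errF_cont {r α : ℝ} (hF : Continuous (FG r α)) {m : ℕ} (w : Fin m → ℝ) (ξ : Fin m → G × G) :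
    Continuous (errF r α w ξ) := by
  unfold errF
  fun_prop

/-- a continuous function whose pairings are bounded is bounded -/
lemma sup_point (e : G × G → ℝ) (he : Continuous e) (E : ℝ)
    (h : ∀ φ : G × G → ℝ, Continuous φ → ∫ z, |φ z| ∂hm2 ≤ 1 → |∫ z, φ z * e z ∂hm2| ≤ E) (y : G × G) :
    e y ≤ E := by
  by_contra hcon
  push Not at hcon
  have hU : IsOpen {z | (e y + E) / 2 < e z} := isOpen_lt continuous_const he
  have hy : y ∈ {z | (e y + E) / 2 < e z} := by
    show (e y + E) / 2 < e y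
    linarith
  obtain ⟨δ, hδ, hb⟩ := Metric.isOpen_iff.mp hU y hy
  set φ0 : G × G → ℝ := fun z => max 0 (δ - dist z y) with hφ0
  have c0 : Continuous φ0 := continuous_const.max (continuous_const.sub (continuous_id.dist continuous_const))
  have p0 : ∀ z, 0 ≤ φ0 z := fun z => le_max_left _ _
  have hI : 0 < ∫ z, φ0 z ∂hm2 := by
    refine c0.integral_pos_of_hasCompactSupport_nonneg_nonzero (x := y)
      (HasCompactSupport.of_compactSpace _) p0 ?_
    simp only [hφ0, dist_self, sub_zero]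
    rw [max_eq_right hδ.le]
    exact hδ.ne'
  set I := ∫ z, φ0 z ∂hm2 with hIdef
  have h2 := h (fun z => φ0 z / I) (c0.div_const _) (by
    have : (fun z => |φ0 z / I|) = fun z => φ0 z / I := by
      funext z
      exact abs_of_nonneg (div_nonneg (p0 z) hI.le)
    rw [this, integral_div, ← hIdef, div_self hI.ne'])
  have h3 : ∫ z, φ0 z / I * ((e y + E) / 2) ∂hm2 ≤ ∫ z, φ0 z / I * e z ∂hm2 := by
    refine integral_mono (sup_int _ ((c0.div_const _).mul continuous_const))
      (sup_int _ ((c0.div_const _).mul he)) (fun z => ?_)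
    simp only
    by_cases hz : dist z y < δ
    · have : (e y + E) / 2 < e z := hb hz
      exact mul_le_mul_of_nonneg_left this.le (div_nonneg (p0 z) hI.le)
    · have : φ0 z = 0 := by
        simp only [hφ0]
        exact max_eq_left (by linarith [not_lt.mp hz])
      rw [this]
      simp
  rw [integral_mul_const, integral_div, ← hIdef, div_self hI.ne', one_mul] at h3
  have h4 := (abs_le.mp h2).2
  linarith

theorem t_SUP (hF : S_FCF) : S_SUP := by
  intro 𝕜 _ r α hr m w ξ E hE hw y
  obtain ⟨hc, -, -⟩ := hF r α hr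
  have he := sup_errF_cont hc (fun μ => RCLike.re (w μ)) (fun μ => sup_q (ξ μ))
  have hp := sup_pair 𝕜 hr hc w ξ E hE hw
  rw [abs_le]
  constructor
  · have := sup_point (fun z => - errF r α (fun μ => RCLike.re (w μ)) (fun μ => sup_q (ξ μ)) z) he.neg E
      (fun φ h1 h2 => by
        have := hp φ h1 h2
        have e : (fun z => φ z * -errF r α (fun μ => RCLike.re (w μ)) (fun μ => sup_q (ξ μ)) z) =
            fun z => -(φ z * errF r α (fun μ => RCLike.re (w μ)) (fun μ => sup_q (ξ μ)) z) := by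
          funext z; ring
        rw [e, integral_neg, abs_neg]
        exact this) y
    have e2 : errF r α (fun μ => RCLike.re (w μ)) (fun μ => (((ξ μ).1 : G), ((ξ μ).2 : G))) y =
        errF r α (fun μ => RCLike.re (w μ)) (fun μ => sup_q (ξ μ)) y := rfl
    rw [e2]
    linarith
  · exact sup_point _ he E hp y

end

end Pool.Agent.H729R2.CB
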