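import Mathlib
import Pool.Agent.H729R2.CB.Stubs

set_option autoImplicit false

namespace Pool.Agent.H729R2.CB

open MeasureTheory

private lemma wl1_fold (δ : ℝ) (hδ : 0 < δ) :
    ∫ a in (-Real.pi)..Real.pi, (δ + |a|) ^ (-(3/2) : ℝ) ≤ 4 * δ ^ (-(1/2) : ℝ) := by
  have hpi := Real.pi_pos
  have hc : Continuous (fun a : ℝ => (δ + |a|) ^ (-(3/2) : ℝ)) := by
    refine Continuous.rpow_const (by fun_prop) ?_
    intro a
    left
    have := abs_nonneg a
    positivity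
  have hsplit : ∫ a in (-Real.pi)..Real.pi, (δ + |a|) ^ (-(3/2) : ℝ)
      = (∫ a in (-Real.pi)..0, (δ + |a|) ^ (-(3/2) : ℝ))
        + ∫ a in (0:ℝ)..Real.pi, (δ + |a|) ^ (-(3/2) : ℝ) :=
    (intervalIntegral.integral_add_adjacent_intervals (hc.intervalIntegrable _ _)
      (hc.intervalIntegrable _ _)).symm
  have hneg : (∫ a in (-Real.pi)..0, (δ + |a|) ^ (-(3/2) : ℝ))
      = ∫ a in (0:ℝ)..Real.pi, (δ + |a|) ^ (-(3/2) : ℝ) := by
    have := intervalIntegral.integral_comp_neg (a := (0:ℝ)) (b := Real.pi)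
      (fun a : ℝ => (δ + |a|) ^ (-(3/2) : ℝ))
    simp only [abs_neg, neg_zero] at this
    exact this.symm
  have hpos : (∫ a in (0:ℝ)..Real.pi, (δ + |a|) ^ (-(3/2) : ℝ))
      = ∫ a in (0:ℝ)..Real.pi, (δ + a) ^ (-(3/2) : ℝ) := by
    apply intervalIntegral.integral_congr
    intro a ha
    rw [Set.uIcc_of_le hpi.le] at ha
    simp only [abs_of_nonneg ha.1]
  have hval : (∫ a in (0:ℝ)..Real.pi, (δ + a) ^ (-(3/2) : ℝ)) ≤ 2 * δ ^ (-(1/2) : ℝ) := by
    rw [intervalIntegral.integral_comp_add_left (fun x : ℝ => x ^ (-(3/2) : ℝ)) δ]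
    rw [integral_rpow]
    · have h1 : (-(3/2) : ℝ) + 1 = -(1/2) := by norm_num
      rw [h1, add_zero]
      have h2 : 0 ≤ (δ + Real.pi) ^ (-(1/2) : ℝ) := by positivity
      linarith
    · right
      refine ⟨by norm_num, ?_⟩
      rw [Set.uIcc_of_le (by linarith)]
      intro h
      have := h.1
      linarith
  rw [hsplit, hneg, hpos]
  linarith

private lemma wl1_J (δ : ℝ) (hδ : 0 < δ) :
    ∫ x : G, (δ + ‖x‖) ^ (-(3/2) : ℝ) ∂hm ≤ δ ^ (-(1/2) : ℝ) := by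
  have hpi := Real.pi_pos
  have hpi3 := Real.pi_gt_three
  have h1 : ∫ x : G, (δ + ‖x‖) ^ (-(3/2) : ℝ)
      = (2 * Real.pi) * ∫ x : G, (δ + ‖x‖) ^ (-(3/2) : ℝ) ∂hm := by
    rw [AddCircle.volume_eq_smul_haarAddCircle, integral_smul_measure]
    rw [ENNReal.toReal_ofReal (by positivity), smul_eq_mul]
  have h2 : ∫ x : G, (δ + ‖x‖) ^ (-(3/2) : ℝ)
      = ∫ a in (-Real.pi)..Real.pi, (δ + |a|) ^ (-(3/2) : ℝ) := by
    have h := AddCircle.intervalIntegral_preimage (2 * Real.pi) (-Real.pi)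
      (fun x : G => (δ + ‖x‖) ^ (-(3/2) : ℝ))
    rw [← h]
    have e : -Real.pi + 2 * Real.pi = Real.pi := by ring
    rw [e]
    apply intervalIntegral.integral_congr
    intro a ha
    rw [Set.uIcc_of_le (by linarith)] at ha
    have : ‖(a : G)‖ = |a| := by
      rw [AddCircle.norm_coe_eq_abs_iff (2 * Real.pi) (by positivity)]
      rw [abs_of_pos (by positivity : (0:ℝ) < 2 * Real.pi)]
      rw [abs_le]
      constructor <;> linarith [ha.1, ha.2]
    simp only [this]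
  have h3 := wl1_fold δ hδ
  have h4 : 0 ≤ δ ^ (-(1/2) : ℝ) := by positivity
  rw [← h2, h1] at h3
  have h5 : (2 * Real.pi) * ∫ x : G, (δ + ‖x‖) ^ (-(3/2) : ℝ) ∂hm
      ≤ (2 * Real.pi) * δ ^ (-(1/2) : ℝ) := by
    refine h3.trans ?_
    apply mul_le_mul_of_nonneg_right _ h4
    linarith
  exact le_of_mul_le_mul_left h5 (by positivity)

private lemma wl1_int {f : G → ℝ} (hf : Continuous f) : Integrable f hm :=
  hf.integrable_of_hasCompactSupport (HasCompactSupport.of_compactSpace f)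

private lemma wl1_cs (u v : G → ℝ) (hu : Continuous u) (hv : Continuous v) :
    (∫ x, u x * v x ∂hm) ^ 2 ≤ (∫ x, u x ^ 2 ∂hm) * (∫ x, v x ^ 2 ∂hm) := by
  have key : ∀ t : ℝ, 0 ≤ (∫ x, u x ^ 2 ∂hm) * (t * t) + (-2 * ∫ x, u x * v x ∂hm) * t
      + ∫ x, v x ^ 2 ∂hm := by
    intro t
    have h : 0 ≤ ∫ x, (t * u x - v x) ^ 2 ∂hm := integral_nonneg (fun x => sq_nonneg _)
    have e : ∫ x, (t * u x - v x) ^ 2 ∂hm = (∫ x, u x ^ 2 ∂hm) * (t * t)
        + (-2 * ∫ x, u x * v x ∂hm) * t + ∫ x, v x ^ 2 ∂hm := by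
      have i1 : Integrable (fun x => (t * t) * u x ^ 2) hm := wl1_int (by fun_prop)
      have i2 : Integrable (fun x => (-2 * t) * (u x * v x)) hm := wl1_int (by fun_prop)
      have i3 : Integrable (fun x => v x ^ 2) hm := wl1_int (by fun_prop)
      have e1 : (fun x => (t * u x - v x) ^ 2)
          = fun x => ((t * t) * u x ^ 2 + (-2 * t) * (u x * v x)) + v x ^ 2 := by
        funext x; ring
      have i12 : Integrable (fun x => (t * t) * u x ^ 2 + (-2 * t) * (u x * v x)) hm := i1.add i2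
      rw [e1, integral_add i12 i3, integral_add i1 i2, integral_const_mul,
        integral_const_mul]
      ring
    rw [e] at h
    exact h
  have := discrim_le_zero key
  unfold discrim at this
  nlinarith

private lemma wl1_main (B δ : ℝ) (g w : G → ℝ) (hδ : 0 < δ) (hg : Continuous g)
    (hw : Continuous w) (h1 : ∫ x, g x ^ 2 ∂hm ≤ B / δ)
    (h2 : ∫ x, ‖x‖ ^ 2 * g x ^ 2 ∂hm ≤ B * δ) (c : ℝ) (hc : 0 ≤ c)
    (hwc : ∀ x, w x ^ 2 / (δ + ‖x‖) ^ 2 ≤ c * (δ + ‖x‖) ^ (-(3/2) : ℝ)) :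
    (∫ x, w x * |g x| ∂hm) ^ 2 ≤ (4 * B * δ) * (c * δ ^ (-(1/2) : ℝ)) := by
  have hpos : ∀ x : G, 0 < δ + ‖x‖ := fun x => by have := norm_nonneg x; positivity
  have hcu : Continuous (fun x : G => |g x| * (δ + ‖x‖)) := by fun_prop
  have hcv : Continuous (fun x : G => w x / (δ + ‖x‖)) :=
    hw.div (by fun_prop) (fun x => (hpos x).ne')
  have hcs := wl1_cs _ _ hcu hcv
  have e : (fun x : G => |g x| * (δ + ‖x‖) * (w x / (δ + ‖x‖))) = fun x => w x * |g x| := by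
    funext x
    have := (hpos x).ne'
    field_simp
  rw [e] at hcs
  have hcont3 : Continuous (fun x : G => (δ + ‖x‖) ^ (-(3/2) : ℝ)) := by
    refine Continuous.rpow_const (by fun_prop) ?_
    intro a
    left
    exact (hpos a).ne'
  have hu : ∫ x : G, (|g x| * (δ + ‖x‖)) ^ 2 ∂hm ≤ 4 * B * δ := by
    have i1 : Integrable (fun x => (2 * δ ^ 2) * g x ^ 2) hm := wl1_int (by fun_prop)
    have i2 : Integrable (fun x : G => 2 * (‖x‖ ^ 2 * g x ^ 2)) hm := wl1_int (by fun_prop)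
    have hle : ∫ x : G, (|g x| * (δ + ‖x‖)) ^ 2 ∂hm
        ≤ ∫ x : G, ((2 * δ ^ 2) * g x ^ 2 + 2 * (‖x‖ ^ 2 * g x ^ 2)) ∂hm := by
      apply integral_mono (wl1_int (by fun_prop)) (wl1_int (by fun_prop))
      intro x
      show (|g x| * (δ + ‖x‖)) ^ 2 ≤ (2 * δ ^ 2) * g x ^ 2 + 2 * (‖x‖ ^ 2 * g x ^ 2)
      rw [mul_pow, sq_abs]
      nlinarith [mul_nonneg (sq_nonneg (g x)) (sq_nonneg (δ - ‖x‖))]
    rw [integral_add i1 i2, integral_const_mul, integral_const_mul] at hle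
    have h3 : (2 * δ ^ 2) * ∫ x, g x ^ 2 ∂hm ≤ (2 * δ ^ 2) * (B / δ) :=
      mul_le_mul_of_nonneg_left h1 (by positivity)
    have h4 : (2 * δ ^ 2) * (B / δ) = 2 * B * δ := by field_simp
    linarith
  have hv : ∫ x : G, (w x / (δ + ‖x‖)) ^ 2 ∂hm ≤ c * δ ^ (-(1/2) : ℝ) := by
    have hle : ∫ x : G, (w x / (δ + ‖x‖)) ^ 2 ∂hm
        ≤ ∫ x : G, c * (δ + ‖x‖) ^ (-(3/2) : ℝ) ∂hm := by
      apply integral_mono (wl1_int (hcv.pow 2)) (wl1_int (hcont3.const_mul c))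
      intro x
      show (w x / (δ + ‖x‖)) ^ 2 ≤ c * (δ + ‖x‖) ^ (-(3/2) : ℝ)
      rw [div_pow]
      exact hwc x
    rw [integral_const_mul] at hle
    exact hle.trans (mul_le_mul_of_nonneg_left (wl1_J δ hδ) hc)
  refine hcs.trans ?_
  apply mul_le_mul hu hv (integral_nonneg fun x => sq_nonneg _)
  exact le_trans (integral_nonneg fun x => sq_nonneg _) hu

theorem t_WL1 : S_WL1 := by
  refine ⟨2, by norm_num, ?_⟩
  intro B δ g hB hδ hδ1 hg h1 h2
  have hpos : ∀ x : G, 0 < δ + ‖x‖ := fun x => by have := norm_nonneg x; positivity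
  constructor
  · have h := wl1_main B δ g (fun _ => 1) hδ hg continuous_const h1 h2 (δ ^ (-(1/2) : ℝ))
      (by positivity) (by
        intro x
        have hp := hpos x
        have e1 : (1:ℝ) ^ 2 / (δ + ‖x‖) ^ 2 = (δ + ‖x‖) ^ (-(1/2) : ℝ) * (δ + ‖x‖) ^ (-(3/2) : ℝ) := by
          rw [← Real.rpow_add hp, one_pow, one_div, ← Real.rpow_natCast, ← Real.rpow_neg hp.le]
          norm_num
        rw [e1]
        apply mul_le_mul_of_nonneg_right _ (by positivity)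
        exact Real.rpow_le_rpow_of_nonpos hδ (by linarith [norm_nonneg x]) (by norm_num))
    simp only [one_mul] at h
    have e2 : (4 * B * δ) * (δ ^ (-(1/2) : ℝ) * δ ^ (-(1/2) : ℝ)) = (2 * Real.sqrt B) ^ 2 := by
      rw [← Real.rpow_add hδ, mul_pow, Real.sq_sqrt hB]
      have : (-(1/2) : ℝ) + -(1/2) = -1 := by norm_num
      rw [this, Real.rpow_neg_one]
      field_simp
      ring
    rw [e2] at h
    exact abs_le_of_sq_le_sq' h (by positivity) |>.2
  · intro ρ hρ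
    have h := wl1_main B δ g (fun x => min 1 (‖x‖ / ρ)) hδ hg (by fun_prop) h1 h2
      (ρ ^ (-(1/2) : ℝ)) (by positivity) (by
        intro x
        have hp := hpos x
        have hx := norm_nonneg x
        have e1 : (min 1 (‖x‖ / ρ)) ^ 2 ≤ (‖x‖ / ρ) ^ (1/2 : ℝ) := by
          have hm0 : 0 ≤ min 1 (‖x‖ / ρ) := by positivity
          rcases le_total (‖x‖ / ρ) 1 with hh | hh
          · rw [min_eq_right hh, ← Real.rpow_natCast]
            apply Real.rpow_le_rpow_of_exponent_ge' (by positivity) hh (by norm_num)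
            norm_num
          · rw [min_eq_left hh, one_pow]
            exact Real.one_le_rpow hh (by norm_num)
        have e3 : (‖x‖ / ρ) ^ (1/2 : ℝ) ≤ ρ ^ (-(1/2) : ℝ) * (δ + ‖x‖) ^ (1/2 : ℝ) := by
          rw [Real.div_rpow hx hρ.le, Real.rpow_neg hρ.le, div_eq_inv_mul]
          apply mul_le_mul_of_nonneg_left _ (by positivity)
          exact Real.rpow_le_rpow hx (by linarith) (by norm_num)
        rw [div_le_iff₀ (by positivity)]
        refine e1.trans (e3.trans (le_of_eq ?_))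
        rw [mul_assoc, ← Real.rpow_natCast (δ + ‖x‖) 2, ← Real.rpow_add hp]
        norm_num)
    have e2 : (4 * B * δ) * (ρ ^ (-(1/2) : ℝ) * δ ^ (-(1/2) : ℝ))
        = (2 * Real.sqrt B * (δ / ρ) ^ (1/4 : ℝ)) ^ 2 := by
      rw [mul_pow, mul_pow, Real.sq_sqrt hB, ← Real.rpow_natCast ((δ / ρ) ^ (1/4 : ℝ)) 2,
        ← Real.rpow_mul (by positivity), Real.div_rpow hδ.le hρ.le]
      have h5 : (1/4 : ℝ) * ((2:ℕ) : ℝ) = 1/2 := by norm_num
      rw [h5, Real.rpow_neg hρ.le]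
      have h6 : δ * δ ^ (-(1/2) : ℝ) = δ ^ (1/2 : ℝ) := by
        nth_rewrite 1 [← Real.rpow_one δ]
        rw [← Real.rpow_add hδ]
        norm_num
      calc (4 * B * δ) * ((ρ ^ (1/2 : ℝ))⁻¹ * δ ^ (-(1/2) : ℝ))
          = 4 * B * ((δ * δ ^ (-(1/2) : ℝ)) * (ρ ^ (1/2 : ℝ))⁻¹) := by ring
        _ = 4 * B * (δ ^ (1/2 : ℝ) * (ρ ^ (1/2 : ℝ))⁻¹) := by rw [h6]
        _ = 2 ^ 2 * B * (δ ^ (1/2 : ℝ) / ρ ^ (1/2 : ℝ)) := by rw [div_eq_mul_inv]; ring
    rw [e2] at h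
    exact abs_le_of_sq_le_sq' h (by positivity) |>.2

end Pool.Agent.H729R2.CB
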